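import Pool.Agent.Lib.HLU.Base

/-!
# From mean squares for each `y` to almost all tuples, uniformly in `y ≤ x`

PROOF SKETCH. `L = log x`. Let `h = ⌊x / L^(A+C+1)⌋ ≥ 1` (eventually), net points `y_k = k h`, `k ≤ x / h`.
`E = ` the `t ∈ P` such that for some `k ≤ x / h`: `‖∑_{n ≤ k h} D t n‖ > x / (2 L^A)`. Chebyshev and the
hypothesis: for each `k` at most `4 L^(2A) Q / L^(4A+C+6)` elements, the number of `k` is
`x / h + 1 <= 2 L^(A+C+1) + 1 <= 3 L^(A+C+1)`, total `<= 12 L^(3A+C+1) Q / L^(4A+C+6) <= Q / L^A` for `L >= 12`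
(much room). For `t ∉ E`, `y ≤ x`, `k = y / h`: `‖∑_{n ≤ y} D t n‖ <= x / (2 L^A) + h L^C <=
x / (2 L^A) + x / L^(A+1) <= x / L^A`.
-/

set_option autoImplicit false

open Finset Filter

namespace Pool.Agent.HLU

theorem net_y {τ : Type} (A C : ℕ) : ∀ᶠ x : ℕ in atTop, ∀ (P : Finset τ) (D : τ → ℕ → ℂ) (Q : ℝ),
    0 ≤ Q → (∀ t ∈ P, ∀ n ∈ Icc 1 x, ‖D t n‖ ≤ Real.log x ^ C) →
    (∀ y : ℕ, y ≤ x → ∑ t ∈ P, ‖∑ n ∈ Icc 1 y, D t n‖ ^ 2 ≤
      Q * (x ^ 2 / Real.log x ^ (4 * A + C + 6))) →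
    ∃ E ⊆ P, (E.card : ℝ) ≤ Q / Real.log x ^ A ∧ ∀ t ∈ P, t ∉ E → ∀ y : ℕ, y ≤ x →
      ‖∑ n ∈ Icc 1 y, D t n‖ ≤ x / Real.log x ^ A := by
  classical
  filter_upwards [ev_log 2, ev_pow (A + C + 1) 0, eventually_ge_atTop 1] with x hL2 hpow hx1
  intro P D Q hQ hD hms
  set L : ℝ := Real.log x with hLdef
  have hL0 : 0 < L := by linarith
  have hL1 : 1 ≤ L := by linarith
  have hx0 : (0 : ℝ) < x := by exact_mod_cast hx1
  have hLp : ∀ m : ℕ, 0 < L ^ m := fun m => pow_pos hL0 m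
  rw [pow_zero, div_one] at hpow
  set z : ℝ := x / L ^ (A + C + 1) with hz
  have hz1 : 1 ≤ z := by rw [hz, le_div_iff₀ (hLp _), one_mul]; exact hpow
  set h : ℕ := ⌊z⌋₊ with hh
  have hh1 : 1 ≤ h := by rw [hh]; exact Nat.le_floor (by simpa using hz1)
  have hhz : (h : ℝ) ≤ z := Nat.floor_le (by linarith)
  have hzh : z ≤ 2 * (h : ℝ) := by
    have h1 : z < (h : ℝ) + 1 := Nat.lt_floor_add_one z
    have h2 : (1 : ℝ) ≤ h := by exact_mod_cast hh1
    linarith
  have hh0 : (0 : ℝ) < h := by exact_mod_cast hh1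
  set K : ℕ := x / h with hK
  have hKh : K * h ≤ x := Nat.div_mul_le_self x h
  have hKr : ((K + 1 : ℕ) : ℝ) ≤ 3 * L ^ (A + C + 1) := by
    have h1 : (K : ℝ) * h ≤ x := by exact_mod_cast hKh
    have h2 : (x : ℝ) = z * L ^ (A + C + 1) := by
      rw [hz, div_mul_cancel₀ _ (hLp _).ne']
    have h3 : (K : ℝ) * h ≤ (2 * L ^ (A + C + 1)) * h := by
      have := mul_le_mul_of_nonneg_right hzh (hLp (A + C + 1)).le
      linarith
    have h4 : (K : ℝ) ≤ 2 * L ^ (A + C + 1) := le_of_mul_le_mul_right h3 hh0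
    have h5 : (1 : ℝ) ≤ L ^ (A + C + 1) := one_le_pow₀ hL1
    push_cast
    linarith
  set W : ℝ := x / (2 * L ^ A) with hW
  have hW0 : 0 < W := by rw [hW]; have := hLp A; positivity
  let B : ℕ → Finset τ := fun k => P.filter (fun t => W < ‖∑ n ∈ Icc 1 (k * h), D t n‖)
  have hB : ∀ k ∈ range (K + 1), ((B k).card : ℝ) ≤ 4 * L ^ (2 * A) * Q / L ^ (4 * A + C + 6) := by
    intro k hk
    have hk1 : k ≤ K := Nat.lt_succ_iff.mp (mem_range.mp hk)
    have hkx : k * h ≤ x := (Nat.mul_le_mul_right h hk1).trans hKh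
    have h1 : ((B k).card : ℝ) * W ^ 2 ≤ Q * (x ^ 2 / L ^ (4 * A + C + 6)) := by
      calc ((B k).card : ℝ) * W ^ 2 = ∑ t ∈ B k, W ^ 2 := by rw [sum_const, nsmul_eq_mul]
        _ ≤ ∑ t ∈ B k, ‖∑ n ∈ Icc 1 (k * h), D t n‖ ^ 2 := by
            refine sum_le_sum fun t ht => ?_
            exact pow_le_pow_left₀ hW0.le (mem_filter.mp ht).2.le 2
        _ ≤ ∑ t ∈ P, ‖∑ n ∈ Icc 1 (k * h), D t n‖ ^ 2 :=
            sum_le_sum_of_subset_of_nonneg (filter_subset _ _) fun _ _ _ => by positivity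
        _ ≤ _ := hms _ hkx
    have h2 : Q * (x ^ 2 / L ^ (4 * A + C + 6)) =
        (4 * L ^ (2 * A) * Q / L ^ (4 * A + C + 6)) * W ^ 2 := by
      rw [hW]
      have := (hLp A).ne'
      have := (hLp (4 * A + C + 6)).ne'
      rw [show 2 * A = A + A by ring, pow_add L A A]
      field_simp
      ring
    rw [h2] at h1
    exact le_of_mul_le_mul_right h1 (by positivity)
  refine ⟨(range (K + 1)).biUnion B, ?_, ?_, ?_⟩
  · intro t ht
    obtain ⟨k, -, hk⟩ := mem_biUnion.mp ht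
    exact (mem_filter.mp hk).1
  · have h1 : ((((range (K + 1)).biUnion B).card : ℕ) : ℝ) ≤ ∑ k ∈ range (K + 1), ((B k).card : ℝ) := by
      exact_mod_cast card_biUnion_le
    have h2 : ∑ k ∈ range (K + 1), ((B k).card : ℝ) ≤
        ((K + 1 : ℕ) : ℝ) * (4 * L ^ (2 * A) * Q / L ^ (4 * A + C + 6)) := by
      refine (sum_le_sum hB).trans ?_
      rw [sum_const, card_range, nsmul_eq_mul]
    have h3 : ((K + 1 : ℕ) : ℝ) * (4 * L ^ (2 * A) * Q / L ^ (4 * A + C + 6)) ≤
        (3 * L ^ (A + C + 1)) * (4 * L ^ (2 * A) * Q / L ^ (4 * A + C + 6)) := by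
      refine mul_le_mul_of_nonneg_right hKr ?_
      have := hLp (2 * A)
      have := hLp (4 * A + C + 6)
      positivity
    refine h1.trans (h2.trans (h3.trans ?_))
    have h4 : (3 * L ^ (A + C + 1)) * (4 * L ^ (2 * A) * Q / L ^ (4 * A + C + 6)) =
        (12 * Q / L ^ 5) / L ^ A := by
      have e1 : L ^ (4 * A + C + 6) = L ^ (A + C + 1) * L ^ (2 * A) * (L ^ 5 * L ^ A) := by
        rw [← pow_add, ← pow_add, ← pow_add]
        congr 1
        ring
      rw [e1]
      have := (hLp (A + C + 1)).ne'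
      have := (hLp (2 * A)).ne'
      have := (hLp A).ne'
      field_simp
      ring
    rw [h4]
    refine div_le_div_of_nonneg_right ?_ (hLp A).le
    rw [div_le_iff₀ (hLp 5)]
    have h5 : (12 : ℝ) ≤ L ^ 5 := by
      have : (2 : ℝ) ^ 5 ≤ L ^ 5 := pow_le_pow_left₀ (by norm_num) hL2 5
      linarith
    nlinarith
  · intro t ht htE y hy
    set k : ℕ := y / h with hk
    have hkK : k ≤ K := Nat.div_le_div_right hy
    have hkh : k * h ≤ y := Nat.div_mul_le_self y h
    have hlt : y < k * h + h := by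
      have := Nat.lt_div_mul_add (a := y) (b := h) (by omega)
      simpa [hk] using this
    have hg : ‖∑ n ∈ Icc 1 (k * h), D t n‖ ≤ W := by
      by_contra hcon
      push Not at hcon
      exact htE (mem_biUnion.mpr ⟨k, mem_range.mpr (by omega), mem_filter.mpr ⟨ht, hcon⟩⟩)
    have hsplit : ∑ n ∈ Icc 1 y, D t n = ∑ n ∈ Icc 1 (k * h), D t n + ∑ n ∈ Ioc (k * h) y, D t n := by
      rw [← sum_union]
      · congr 1
        ext n
        simp only [mem_union, mem_Icc, mem_Ioc]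
        constructor
        · rintro ⟨h1, h2⟩
          by_cases h3 : n ≤ k * h
          · exact Or.inl ⟨h1, h3⟩
          · exact Or.inr ⟨by omega, h2⟩
        · rintro (⟨h1, h2⟩ | ⟨h1, h2⟩)
          · exact ⟨h1, h2.trans hkh⟩
          · exact ⟨by omega, h2⟩
      · rw [disjoint_left]
        intro n h1 h2
        simp only [mem_Icc, mem_Ioc] at h1 h2
        omega
    have htail : ‖∑ n ∈ Ioc (k * h) y, D t n‖ ≤ h * L ^ C := by
      refine (norm_sum_le _ _).trans ?_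
      calc ∑ n ∈ Ioc (k * h) y, ‖D t n‖ ≤ ∑ _n ∈ Ioc (k * h) y, L ^ C := by
            refine sum_le_sum fun n hn => hD t ht n ?_
            rw [mem_Ioc] at hn
            rw [mem_Icc]
            exact ⟨by omega, hn.2.trans hy⟩
        _ = ((Ioc (k * h) y).card : ℝ) * L ^ C := by rw [sum_const, nsmul_eq_mul]
        _ ≤ h * L ^ C := by
            refine mul_le_mul_of_nonneg_right ?_ (hLp C).le
            rw [Nat.card_Ioc]
            exact_mod_cast (by omega : y - k * h ≤ h)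
    have htail2 : (h : ℝ) * L ^ C ≤ W := by
      calc (h : ℝ) * L ^ C ≤ z * L ^ C := mul_le_mul_of_nonneg_right hhz (hLp C).le
        _ = x / (L * L ^ A) := by
            rw [hz, show A + C + 1 = 1 + A + C by ring, pow_add, pow_add, pow_one]
            have := (hLp A).ne'
            have := (hLp C).ne'
            field_simp
        _ ≤ W := by
            rw [hW]
            refine div_le_div_of_nonneg_left hx0.le (by have := hLp A; positivity) ?_
            exact mul_le_mul_of_nonneg_right hL2 (hLp A).le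
    calc ‖∑ n ∈ Icc 1 y, D t n‖ ≤ ‖∑ n ∈ Icc 1 (k * h), D t n‖ + ‖∑ n ∈ Ioc (k * h) y, D t n‖ := by
          rw [hsplit]; exact norm_add_le _ _
      _ ≤ W + W := add_le_add hg (htail.trans htail2)
      _ = x / L ^ A := by
          rw [hW]
          have := (hLp A).ne'
          field_simp
          norm_num

end Pool.Agent.HLU
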