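import Mathlib

/-!
# Telescoping products in `L^1`
-/

set_option autoImplicit false

open Finset Filter

namespace Pool.Agent.HLU

private lemma prod_sub_abs {ι : Type} [DecidableEq ι] (s : Finset ι) (a b c : ι → ℝ)
    (hc : ∀ i ∈ s, 0 ≤ c i) (ha : ∀ i ∈ s, |a i| ≤ c i) (hb : ∀ i ∈ s, |b i| ≤ c i) :
    |∏ i ∈ s, a i - ∏ i ∈ s, b i| ≤ ∑ i ∈ s, |a i - b i| * ∏ i' ∈ s.erase i, c i' := by
  induction s using Finset.induction_on with
  | empty => simp
  | insert j s hj ih =>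
    have ih' := ih (fun i hi => hc i (mem_insert_of_mem hi)) (fun i hi => ha i (mem_insert_of_mem hi))
      (fun i hi => hb i (mem_insert_of_mem hi))
    rw [prod_insert hj, prod_insert hj, sum_insert hj, erase_insert hj]
    have e1 : a j * ∏ i ∈ s, a i - b j * ∏ i ∈ s, b i =
        a j * (∏ i ∈ s, a i - ∏ i ∈ s, b i) + (a j - b j) * ∏ i ∈ s, b i := by ring
    rw [e1]
    refine (abs_add_le _ _).trans ?_
    rw [abs_mul, abs_mul, add_comm]
    have e2 : |∏ i ∈ s, b i| ≤ ∏ i ∈ s, c i := by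
      rw [Finset.abs_prod]
      exact Finset.prod_le_prod (fun i _ => abs_nonneg _) fun i hi => hb i (mem_insert_of_mem hi)
    refine add_le_add (mul_le_mul_of_nonneg_left e2 (abs_nonneg _)) ?_
    have e3 : ∑ i ∈ s, |a i - b i| * ∏ i' ∈ (insert j s).erase i, c i' =
        c j * ∑ i ∈ s, |a i - b i| * ∏ i' ∈ s.erase i, c i' := by
      rw [mul_sum]
      refine sum_congr rfl fun i hi => ?_
      have hij : j ≠ i := fun h => hj (h ▸ hi)
      rw [erase_insert_of_ne hij, prod_insert (fun h => hj (mem_of_mem_erase h))]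
      ring
    rw [e3]
    exact mul_le_mul (ha j (mem_insert_self _ _)) ih' (abs_nonneg _) (hc j (mem_insert_self _ _))

theorem tel_l1 (k y : ℕ) (S S' : Fin k → ℕ → ℝ) (M : Fin k → ℝ) (R δ : ℝ) (hR : 1 ≤ R)
    (hδ : 0 ≤ δ) (hM : ∀ i, 0 ≤ M i) (hS : ∀ i, ∀ n ∈ Icc 1 y, |S i n| ≤ M i * R)
    (hS' : ∀ i, ∀ n ∈ Icc 1 y, |S' i n| ≤ M i * R)
    (h2 : ∀ i, ∑ n ∈ Icc 1 y, (S i n - S' i n) ^ 2 ≤ M i ^ 2 * δ ^ 2 * y) :
    ∑ n ∈ Icc 1 y, |∏ i, S i n - ∏ i, S' i n| ≤ k * (∏ i, M i) * R ^ k * δ * y := by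
  have hR0 : 0 ≤ R := by linarith
  have hl1 : ∀ i, ∑ n ∈ Icc 1 y, |S i n - S' i n| ≤ M i * δ * y := by
    intro i
    have hcs := sq_sum_le_card_mul_sum_sq (s := Icc 1 y) (f := fun n => |S i n - S' i n|)
    simp only [sq_abs] at hcs
    rw [Nat.card_Icc, Nat.add_sub_cancel] at hcs
    have h3 : (∑ n ∈ Icc 1 y, |S i n - S' i n|) ^ 2 ≤ (M i * δ * y) ^ 2 := by
      refine hcs.trans ?_
      have := mul_le_mul_of_nonneg_left (h2 i) (Nat.cast_nonneg (α := ℝ) y)
      refine this.trans (le_of_eq ?_)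
      ring
    have h4 : 0 ≤ M i * δ * y := mul_nonneg (mul_nonneg (hM i) hδ) (Nat.cast_nonneg _)
    exact le_trans (le_abs_self _) (abs_le_of_sq_le_sq h3 h4)
  calc ∑ n ∈ Icc 1 y, |∏ i, S i n - ∏ i, S' i n|
      ≤ ∑ n ∈ Icc 1 y, ∑ i, |S i n - S' i n| * ∏ i' ∈ univ.erase i, (M i' * R) := by
        refine sum_le_sum fun n hn => ?_
        exact prod_sub_abs univ (fun i => S i n) (fun i => S' i n) (fun i => M i * R)
          (fun i _ => mul_nonneg (hM i) hR0) (fun i _ => hS i n hn) (fun i _ => hS' i n hn)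
    _ = ∑ i, (∑ n ∈ Icc 1 y, |S i n - S' i n|) * ∏ i' ∈ univ.erase i, (M i' * R) := by
        rw [sum_comm]
        refine sum_congr rfl fun i _ => ?_
        rw [sum_mul]
    _ ≤ ∑ _i : Fin k, (∏ i, M i) * R ^ k * δ * y := by
        refine sum_le_sum fun i _ => ?_
        have e1 : ∏ i' ∈ univ.erase i, (M i' * R) = (∏ i' ∈ univ.erase i, M i') * R ^ (k - 1) := by
          rw [prod_mul_distrib, prod_const, card_erase_of_mem (mem_univ i), card_univ,
            Fintype.card_fin]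
        have e2 : (∏ i, M i) = M i * ∏ i' ∈ univ.erase i, M i' :=
          (mul_prod_erase univ M (mem_univ i)).symm
        have hP : 0 ≤ ∏ i' ∈ univ.erase i, M i' := prod_nonneg fun i' _ => hM i'
        have hRk : R ^ (k - 1) ≤ R ^ k := pow_le_pow_right₀ hR (Nat.sub_le _ _)
        rw [e1, e2]
        have h5 := hl1 i
        have h6 : 0 ≤ M i * δ * y := mul_nonneg (mul_nonneg (hM i) hδ) (Nat.cast_nonneg _)
        calc (∑ n ∈ Icc 1 y, |S i n - S' i n|) * ((∏ i' ∈ univ.erase i, M i') * R ^ (k - 1))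
            ≤ (M i * δ * y) * ((∏ i' ∈ univ.erase i, M i') * R ^ k) :=
              mul_le_mul h5 (mul_le_mul_of_nonneg_left hRk hP)
                (mul_nonneg hP (pow_nonneg hR0 _)) h6
          _ = _ := by ring
    _ = k * (∏ i, M i) * R ^ k * δ * y := by
        rw [sum_const, card_univ, Fintype.card_fin, nsmul_eq_mul]
        ring

theorem expand {k m : ℕ} (P : Finset (Fin k × Fin m)) (T : Fin k → Finset ℕ) (b : Fin m → ℕ)
    (G : ℕ → ℝ) (n : ℕ) :
    ∏ i, ∑ a ∈ T i, ∏ j ∈ univ.filter (fun j => (i, j) ∈ P), G (n + a + b j) =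
      ∑ a ∈ Fintype.piFinset T, ∏ p ∈ P, G (n + (a p.1 + b p.2)) := by
  rw [Finset.prod_univ_sum]
  refine sum_congr rfl fun a _ => ?_
  have e : ∏ p ∈ P, G (n + (a p.1 + b p.2)) =
      ∏ p : Fin k × Fin m, if p ∈ P then G (n + (a p.1 + b p.2)) else 1 := by
    rw [← Finset.prod_filter]
    congr 1
    ext p
    simp
  rw [e, Fintype.prod_prod_type]
  refine prod_congr rfl fun i _ => ?_
  rw [Finset.prod_filter]
  refine prod_congr rfl fun j _ => ?_
  rw [add_assoc]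

end Pool.Agent.HLU
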