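import Pool.Agent.Lib.HLU.Trunc

/-!
# Correlation of a function with small exponential sums with products of sums over sets of shifts,
with truncation levels depending on the set (after helper11, `Trunc.lean`)
-/

set_option autoImplicit false

open Finset Filter

namespace Pool.Agent.HLU

open Pool.Agent.HLB Pool.Agent.HL Pool.Agent.HLT

open TruncAux

theorem truncL (k x y : ℕ) (hx : 1 ≤ x) (hyx : y ≤ x) (T : Fin k → Finset ℕ)
    (hT : ∀ i, ∀ a ∈ T i, y + a ≤ x)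
    (g : Fin k → ℕ → ℝ) (u : ℕ → ℂ) (M U δ : ℝ) (S0 L1 : Fin k → ℝ) (hM1 : 1 ≤ M)
    (hL1 : ∀ i, 1 ≤ L1 i) (hS1 : ∀ i, 1 ≤ S0 i) (hU0 : 0 ≤ U) (hδ0 : 0 ≤ δ)
    (hM : ∀ i, ∀ m ∈ Icc 1 x, |g i m| ≤ M) (hU : ∀ n ∈ Icc 1 y, ‖u n‖ ≤ U)
    (hS : ∀ i, ((Spec (4 * x + 1) (T i) (L1 i)).card : ℝ) ≤ S0 i)
    (hu : ∀ ξ : Fin k → ℕ, (∀ i, ξ i ∈ Spec (4 * x + 1) (T i) (L1 i)) →
      ‖∑ n ∈ Icc 1 y, u n * ex (n * (-(∑ i, (ξ i : ℝ)) / ((4 * x + 1 : ℕ) : ℝ)))‖ ≤ δ) :
    ‖∑ n ∈ Icc 1 y, u n * ∏ i, (((∑ a ∈ T i, g i (n + a) : ℝ)) : ℂ)‖ ≤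
      (∏ i, ((T i).card : ℝ)) * M ^ k * ((∏ i, S0 i) * δ +
        U * x * ∑ i, (∏ i' ∈ univ.filter (fun i' => i' < i), S0 i') / L1 i) := by
  classical
  set N := 4 * x + 1 with hNdef
  have hN : 0 < N := by omega
  have hxN : x < N := by omega
  have hNR : (0 : ℝ) < N := by exact_mod_cast hN
  have hxR : (0 : ℝ) ≤ x := Nat.cast_nonneg x
  have hxNR : (x : ℝ) ≤ N := by exact_mod_cast hxN.le
  have hM0 : 0 ≤ M := by linarith
  have hL0 : ∀ i, 0 < L1 i := fun i => by linarith [hL1 i]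
  have hS0 : ∀ i, 0 ≤ S0 i := fun i => by linarith [hS1 i]
  let gc : Fin k → ℕ → ℂ := fun i m => (g i m : ℂ)
  let Sp : Fin k → Finset ℕ := fun i => Spec N (T i) (L1 i)
  have hSp : ∀ i, Sp i ⊆ range N := by
    intro i ζ hζ
    have h1 : ζ ∈ Spec N (T i) (L1 i) := hζ
    unfold Spec at h1
    exact (Finset.mem_filter.1 h1).1
  let G : Fin k → ℕ → ℂ := fun i n => (((∑ a ∈ T i, g i (n + a) : ℝ)) : ℂ)
  let H : Fin k → ℕ → ℂ := fun i n => PF N x (T i) (gc i) (Sp i) n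
  let B : Fin k → ℝ := fun i => S0 i * (M * (T i).card)
  let B' : Fin k → ℝ := fun i => M * (T i).card
  have hB'0 : ∀ i, 0 ≤ B' i := fun i => mul_nonneg hM0 (Nat.cast_nonneg _)
  have hB0 : ∀ i, 0 ≤ B i := fun i => mul_nonneg (hS0 i) (hB'0 i)
  have hGfull : ∀ i, ∀ n ∈ Icc 1 y, G i n = PF N x (T i) (gc i) (range N) n := by
    intro i n hn
    rw [Finset.mem_Icc] at hn
    rw [PF_full hN hxN (T i) (gc i) n hn.1 (fun a ha => by have := hT i a ha; omega)]
    simp only [G, gc]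
    push_cast
    rfl
  have hcnorm : ∀ i ξ, ‖∑ m ∈ Icc 1 x, gc i m * ex (m * (ξ / N))‖ ≤ x * M := by
    intro i ξ
    refine (norm_sum_le _ _).trans ?_
    have h1 : ∀ m ∈ Icc 1 x, ‖gc i m * ex (m * (ξ / N))‖ ≤ M := by
      intro m hm
      rw [norm_mul, norm_ex, mul_one, Complex.norm_real, Real.norm_eq_abs]
      exact hM i m hm
    refine (Finset.sum_le_sum h1).trans ?_
    rw [Finset.sum_const, Nat.card_Icc, nsmul_eq_mul, Nat.add_sub_cancel]
  have hcf : ∀ i ξ, ‖cf N x (T i) (gc i) ξ‖ ≤ M * (T i).card := by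
    intro i ξ
    unfold cf
    rw [norm_mul, norm_mul, norm_div, norm_one, Complex.norm_natCast, Complex.norm_conj]
    have h1 := hcnorm i (ξ : ℝ)
    have h2 := norm_WW_le (T i) ((ξ : ℝ) / N)
    have h3 : ‖∑ m ∈ Icc 1 x, gc i m * ex (m * (ξ / N))‖ * ‖WW (T i) ((ξ : ℝ) / N)‖ ≤
        (x * M) * (T i).card := mul_le_mul h1 h2 (norm_nonneg _) (by positivity)
    have h4 : (x * M) * ((T i).card : ℝ) ≤ N * (M * (T i).card) := by
      have h5 : (0 : ℝ) ≤ M * (T i).card := by positivity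
      have h6 := mul_le_mul_of_nonneg_right hxNR h5
      linarith
    rw [one_div, inv_mul_le_iff₀ hNR]
    exact h3.trans h4
  have hHn : ∀ i n, ‖H i n‖ ≤ B i := by
    intro i n
    refine (norm_sum_le _ _).trans ?_
    have h1 : ∀ ξ ∈ Sp i, ‖cf N x (T i) (gc i) ξ * ex (-(n * (ξ / N)))‖ ≤ M * (T i).card := by
      intro ξ _
      rw [norm_mul, norm_ex, mul_one]
      exact hcf i ξ
    refine (Finset.sum_le_sum h1).trans ?_
    rw [Finset.sum_const, nsmul_eq_mul]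
    have h2 : (0 : ℝ) ≤ M * (T i).card := by positivity
    exact mul_le_mul_of_nonneg_right (hS i) h2
  have hGn : ∀ i, ∀ n ∈ Icc 1 y, ‖G i n‖ ≤ B' i := by
    intro i n hn
    rw [Finset.mem_Icc] at hn
    simp only [G]
    rw [Complex.norm_real, Real.norm_eq_abs]
    refine (Finset.abs_sum_le_sum_abs _ _).trans ?_
    have h1 : ∀ a ∈ T i, |g i (n + a)| ≤ M := by
      intro a ha
      apply hM i
      rw [Finset.mem_Icc]
      have := hT i a ha
      omega
    refine (Finset.sum_le_sum h1).trans ?_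
    rw [Finset.sum_const, nsmul_eq_mul]
    simp only [B']
    rw [mul_comm]
  have hL0' : ∀ i, 0 ≤ L1 i := fun i => (hL0 i).le
  -- (a) the mean square of the difference
  have hdiff : ∀ i, ∑ n ∈ Icc 1 y, ‖G i n - H i n‖ ^ 2 ≤ ((T i).card * M / L1 i) ^ 2 * x := by
    intro i
    have h1 : ∀ n ∈ Icc 1 y, ‖G i n - H i n‖ ^ 2 =
        ‖∑ ξ ∈ range N \ Sp i, cf N x (T i) (gc i) ξ * ex (-(n * (ξ / N)))‖ ^ 2 := by
      intro n hn
      rw [hGfull i n hn]
      have h2 := Finset.sum_sdiff (f := fun ξ : ℕ => cf N x (T i) (gc i) ξ * ex (-(n * (ξ / N))))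
        (hSp i)
      congr 2
      rw [sub_eq_iff_eq_add]
      exact h2.symm
    rw [Finset.sum_congr rfl h1]
    have h2 : ∑ n ∈ Icc 1 y,
        ‖∑ ξ ∈ range N \ Sp i, cf N x (T i) (gc i) ξ * ex (-(n * (ξ / N)))‖ ^ 2 ≤
        ∑ n ∈ range N,
        ‖∑ ξ ∈ range N \ Sp i, cf N x (T i) (gc i) ξ * ex (-(n * (ξ / N)))‖ ^ 2 := by
      apply Finset.sum_le_sum_of_subset_of_nonneg
      · intro n hn
        rw [Finset.mem_Icc] at hn
        rw [Finset.mem_range]
        omega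
      · intro _ _ _
        positivity
    refine h2.trans ?_
    rw [bessel hN _ sdiff_subset]
    have h3 : ∀ ξ ∈ range N \ Sp i, ‖cf N x (T i) (gc i) ξ‖ ^ 2 ≤
        (1 / (N : ℝ)) ^ 2 * (((T i).card / L1 i) ^ 2 *
          ‖∑ m ∈ Icc 1 x, gc i m * ex (m * (ξ / N))‖ ^ 2) := by
      intro ξ hξ
      rw [Finset.mem_sdiff, Finset.mem_range] at hξ
      have h4 : ¬ (((T i).card : ℝ) ≤ L1 i * ‖WW (T i) ((ξ : ℝ) / N)‖) := by
        intro hcon
        apply hξ.2
        change ξ ∈ Spec N (T i) (L1 i)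
        unfold Spec
        rw [Finset.mem_filter, Finset.mem_range]
        exact ⟨hξ.1, hcon⟩
      have h5 : ‖WW (T i) ((ξ : ℝ) / N)‖ ≤ (T i).card / L1 i := by
        rw [le_div_iff₀ (hL0 i)]
        linarith [not_le.mp h4]
      unfold cf
      rw [norm_mul, norm_mul, norm_div, norm_one, Complex.norm_natCast, Complex.norm_conj,
        mul_pow, mul_pow]
      apply mul_le_mul_of_nonneg_left _ (by positivity)
      rw [mul_comm]
      apply mul_le_mul_of_nonneg_right _ (by positivity)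
      exact pow_le_pow_left₀ (norm_nonneg _) h5 2
    have h6 := Finset.sum_le_sum h3
    have h7 : ∑ ξ ∈ range N \ Sp i, (1 / (N : ℝ)) ^ 2 * (((T i).card / L1 i) ^ 2 *
          ‖∑ m ∈ Icc 1 x, gc i m * ex (m * (ξ / N))‖ ^ 2) ≤
        ∑ ξ ∈ range N, (1 / (N : ℝ)) ^ 2 * (((T i).card / L1 i) ^ 2 *
          ‖∑ m ∈ Icc 1 x, gc i m * ex (m * (ξ / N))‖ ^ 2) :=
      Finset.sum_le_sum_of_subset_of_nonneg sdiff_subset fun _ _ _ => by positivity
    have h8 : ∑ ξ ∈ range N, (1 / (N : ℝ)) ^ 2 * (((T i).card / L1 i) ^ 2 *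
          ‖∑ m ∈ Icc 1 x, gc i m * ex (m * (ξ / N))‖ ^ 2) =
        (1 / (N : ℝ)) ^ 2 * (((T i).card / L1 i) ^ 2 * (N * ∑ m ∈ Icc 1 x, ‖gc i m‖ ^ 2)) := by
      rw [← Finset.mul_sum, ← Finset.mul_sum, parseval N x hxN.le hN (gc i)]
    have h9 : ∑ m ∈ Icc 1 x, ‖gc i m‖ ^ 2 ≤ x * M ^ 2 := by
      calc ∑ m ∈ Icc 1 x, ‖gc i m‖ ^ 2 ≤ ∑ m ∈ Icc 1 x, M ^ 2 := by
            refine Finset.sum_le_sum fun m hm => ?_
            rw [Complex.norm_real, Real.norm_eq_abs]
            exact pow_le_pow_left₀ (abs_nonneg _) (hM i m hm) 2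
        _ = x * M ^ 2 := by
            rw [Finset.sum_const, Nat.card_Icc, nsmul_eq_mul, Nat.add_sub_cancel]
    calc (N : ℝ) * ∑ ξ ∈ range N \ Sp i, ‖cf N x (T i) (gc i) ξ‖ ^ 2
        ≤ N * ((1 / (N : ℝ)) ^ 2 * (((T i).card / L1 i) ^ 2 *
            (N * ∑ m ∈ Icc 1 x, ‖gc i m‖ ^ 2))) := by
          apply mul_le_mul_of_nonneg_left _ hNR.le
          rw [← h8]
          exact h6.trans h7
      _ = ((T i).card / L1 i) ^ 2 * ∑ m ∈ Icc 1 x, ‖gc i m‖ ^ 2 := by
          field_simp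
      _ ≤ ((T i).card / L1 i) ^ 2 * (x * M ^ 2) :=
          mul_le_mul_of_nonneg_left h9 (by positivity)
      _ = ((T i).card * M / L1 i) ^ 2 * x := by ring
  have hdiff1 : ∀ i, ∑ n ∈ Icc 1 y, ‖G i n - H i n‖ ≤ (T i).card * M * (x / L1 i) := by
    intro i
    have h1 : (∑ n ∈ Icc 1 y, ‖G i n - H i n‖) ^ 2 ≤
        (Icc 1 y).card * ∑ n ∈ Icc 1 y, ‖G i n - H i n‖ ^ 2 := sq_sum_le_card_mul_sum_sq
    have h2 : ((Icc 1 y).card : ℝ) ≤ x := by
      rw [Nat.card_Icc, Nat.add_sub_cancel]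
      exact_mod_cast hyx
    have h3 : (∑ n ∈ Icc 1 y, ‖G i n - H i n‖) ^ 2 ≤ ((T i).card * M * (x / L1 i)) ^ 2 := by
      calc (∑ n ∈ Icc 1 y, ‖G i n - H i n‖) ^ 2
          ≤ (Icc 1 y).card * ∑ n ∈ Icc 1 y, ‖G i n - H i n‖ ^ 2 := h1
        _ ≤ x * (((T i).card * M / L1 i) ^ 2 * x) :=
            mul_le_mul h2 (hdiff i) (Finset.sum_nonneg fun _ _ => by positivity) hxR
        _ = ((T i).card * M * (x / L1 i)) ^ 2 := by ring
    exact le_of_sq_le_sq h3 ((mul_nonneg (mul_nonneg (Nat.cast_nonneg _) hM0) (div_nonneg hxR (hL0' i))))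
  -- (c) the main term
  have hmain : ‖∑ n ∈ Icc 1 y, u n * ∏ i, H i n‖ ≤ (∏ i, B i) * δ := by
    have h1 : ∀ n ∈ Icc 1 y, u n * ∏ i, H i n =
        ∑ ξ ∈ Fintype.piFinset Sp, (∏ i, cf N x (T i) (gc i) (ξ i)) *
          (u n * ex (n * (-(∑ i, (ξ i : ℝ)) / (N : ℝ)))) := by
      intro n _
      simp only [H, PF]
      rw [Finset.prod_univ_sum, Finset.mul_sum]
      refine Finset.sum_congr rfl fun ξ _ => ?_
      rw [Finset.prod_mul_distrib]
      have h2 : ∏ i, ex (-((n : ℝ) * ((ξ i : ℝ) / N))) =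
          ex (n * (-(∑ i, (ξ i : ℝ)) / (N : ℝ))) := by
        have h3 : ∀ (s : Finset (Fin k)) (f : Fin k → ℝ), ex (∑ i ∈ s, f i) = ∏ i ∈ s, ex (f i) := by
          intro s f
          induction s using Finset.induction_on with
          | empty => simp
          | insert a s ha ih => rw [Finset.sum_insert ha, Finset.prod_insert ha, ex_add, ih]
        rw [← h3]
        congr 1
        rw [Finset.sum_neg_distrib, ← Finset.mul_sum, ← Finset.sum_div]
        ring
      rw [h2]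
      ring
    rw [Finset.sum_congr rfl h1, Finset.sum_comm]
    refine (norm_sum_le _ _).trans ?_
    have h4 : ∀ ξ ∈ Fintype.piFinset Sp, ‖∑ n ∈ Icc 1 y, (∏ i, cf N x (T i) (gc i) (ξ i)) *
          (u n * ex (n * (-(∑ i, (ξ i : ℝ)) / (N : ℝ))))‖ ≤ (∏ i, (M * (T i).card)) * δ := by
      intro ξ hξ
      rw [Fintype.mem_piFinset] at hξ
      rw [← Finset.mul_sum, norm_mul, norm_prod]
      exact mul_le_mul (Finset.prod_le_prod (fun _ _ => norm_nonneg _) fun i _ => hcf i (ξ i))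
        (hu ξ hξ) (norm_nonneg _) (Finset.prod_nonneg fun i _ => by positivity)
    refine (Finset.sum_le_sum h4).trans ?_
    rw [Finset.sum_const, nsmul_eq_mul, Fintype.card_piFinset]
    push_cast
    have h5 : (∏ i, ((Sp i).card : ℝ)) * ∏ i, (M * (T i).card) ≤ ∏ i, B i := by
      rw [← Finset.prod_mul_distrib]
      refine Finset.prod_le_prod (fun i _ => by positivity) fun i _ => ?_
      have h6 : (0 : ℝ) ≤ M * (T i).card := by positivity
      exact mul_le_mul_of_nonneg_right (hS i) h6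
    have h8 := mul_le_mul_of_nonneg_right h5 hδ0
    linarith
  -- (d) the error term
  have herr : ‖∑ n ∈ Icc 1 y, u n * (∏ i, G i n - ∏ i, H i n)‖ ≤
      U * ∑ i, ((T i).card * M * (x / L1 i)) *
        ((∏ j ∈ univ.filter (fun j => j < i), B j) * ∏ j ∈ univ.filter (fun j => i < j), B' j) := by
    refine (norm_sum_le _ _).trans ?_
    have h1 : ∀ n ∈ Icc 1 y, ‖u n * (∏ i, G i n - ∏ i, H i n)‖ ≤
        U * ∑ i, ‖G i n - H i n‖ *
          ((∏ j ∈ univ.filter (fun j => j < i), B j) * ∏ j ∈ univ.filter (fun j => i < j), B' j) := by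
      intro n hn
      rw [norm_mul]
      refine mul_le_mul (hU n hn) ?_ (norm_nonneg _) hU0
      have h2 := Finset.prod_sub_ordered (univ : Finset (Fin k)) (fun i => G i n)
        (fun i => G i n - H i n)
      simp only [sub_sub_cancel] at h2
      rw [h2, sub_sub_cancel]
      refine (norm_sum_le _ _).trans (Finset.sum_le_sum fun i _ => ?_)
      rw [norm_mul, norm_mul, norm_prod, norm_prod, mul_assoc]
      refine mul_le_mul_of_nonneg_left ?_ (norm_nonneg _)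
      refine mul_le_mul ?_ ?_ (Finset.prod_nonneg fun _ _ => norm_nonneg _)
        (Finset.prod_nonneg fun j _ => hB0 j)
      · exact Finset.prod_le_prod (fun _ _ => norm_nonneg _) fun j _ => hHn j n
      · exact Finset.prod_le_prod (fun _ _ => norm_nonneg _) fun j _ => hGn j n hn
    refine (Finset.sum_le_sum h1).trans ?_
    rw [← Finset.mul_sum, Finset.sum_comm]
    refine mul_le_mul_of_nonneg_left (Finset.sum_le_sum fun i _ => ?_) hU0
    rw [← Finset.sum_mul]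
    exact mul_le_mul_of_nonneg_right (hdiff1 i) (mul_nonneg
      (Finset.prod_nonneg fun j _ => hB0 j) (Finset.prod_nonneg fun j _ => hB'0 j))
  have hsplit : ∑ n ∈ Icc 1 y, u n * ∏ i, (((∑ a ∈ T i, g i (n + a) : ℝ)) : ℂ) =
      ∑ n ∈ Icc 1 y, u n * ∏ i, H i n + ∑ n ∈ Icc 1 y, u n * (∏ i, G i n - ∏ i, H i n) := by
    rw [← Finset.sum_add_distrib]
    refine Finset.sum_congr rfl fun n _ => ?_
    simp only [G]
    ring
  have hBprod : ∏ i, B i = (∏ i, ((T i).card : ℝ)) * M ^ k * ∏ i, S0 i := by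
    simp only [B]
    rw [Finset.prod_mul_distrib, Finset.prod_mul_distrib, Finset.prod_const, Finset.card_univ,
      Fintype.card_fin]
    ring
  have hterm : ∀ i : Fin k, ((T i).card * M * (x / L1 i)) *
        ((∏ j ∈ univ.filter (fun j => j < i), B j) * ∏ j ∈ univ.filter (fun j => i < j), B' j) =
      (∏ i, ((T i).card : ℝ)) * M ^ k *
        (x * ((∏ i' ∈ univ.filter (fun i' => i' < i), S0 i') / L1 i)) := by
    intro i
    have h1 : (∏ j ∈ univ.filter (fun j => j < i), B j) =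
        (∏ j ∈ univ.filter (fun j => j < i), S0 j) * ∏ j ∈ univ.filter (fun j => j < i), B' j := by
      rw [← Finset.prod_mul_distrib]
    have h2 : ∏ j, B' j = B' i * ((∏ j ∈ univ.filter (fun j => j < i), B' j) *
        ∏ j ∈ univ.filter (fun j => i < j), B' j) := by
      rw [← Finset.mul_prod_erase univ B' (mem_univ i)]
      congr 1
      rw [← Finset.prod_union]
      · refine Finset.prod_congr ?_ fun _ _ => rfl
        ext j
        simp only [Finset.mem_erase, Finset.mem_univ, and_true, Finset.mem_union,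
          Finset.mem_filter, true_and]
        exact ⟨fun h => lt_or_gt_of_ne h, fun h => h.elim (fun h => h.ne) (fun h => h.ne')⟩
      · rw [Finset.disjoint_filter]
        intro j _ h3 h4
        exact absurd (h3.trans h4) (lt_irrefl _)
    have h3 : ∏ j, B' j = (∏ i, ((T i).card : ℝ)) * M ^ k := by
      simp only [B']
      rw [Finset.prod_mul_distrib, Finset.prod_const, Finset.card_univ, Fintype.card_fin]
      ring
    rw [h1, ← h3, h2]
    simp only [B']
    ring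
  rw [hsplit]
  refine (norm_add_le _ _).trans ((add_le_add hmain herr).trans (le_of_eq ?_))
  rw [Finset.sum_congr rfl fun i _ => hterm i, ← Finset.mul_sum, ← Finset.mul_sum, hBprod]
  ring

end Pool.Agent.HLU
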