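import Pool.Agent.Lib.HLU.GridY
import Pool.Agent.Lib.HLU.Tel
import Pool.Agent.Lib.HLU.TruncL

/-!
# Bipartite patterns of shifts: the comparison of primes and model for good `b`
-/

set_option autoImplicit false

open Finset Filter

namespace Pool.Agent.HLU

open Pool.Agent.HLB Pool.Agent.HL Pool.Agent.HLT

/-- The prime indicator. -/
noncomputable def G0 (n : ℕ) : ℝ := if n.Prime then 1 else 0

/-- Its model. -/
noncomputable def G1 (z n : ℕ) : ℝ := nuz z n * (1 / Real.log (n : ℝ))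

/-- The columns of row `i`. -/
def row {k m : ℕ} (P : Finset (Fin k × Fin m)) (i : Fin k) : Finset (Fin m) :=
  univ.filter (fun j => (i, j) ∈ P)

/-- The truncation levels. -/
def lv (F : ℕ → ℕ) (base : ℕ) : ℕ → ℕ
  | 0 => base
  | i + 1 => lv F base i + F (lv F base i)

lemma lv_eq (F : ℕ → ℕ) (base i : ℕ) : lv F base i = base + ∑ l ∈ range i, F (lv F base l) := by
  induction i with
  | zero => simp [lv]
  | succ i ih =>
    rw [Finset.sum_range_succ, ← add_assoc, ← ih]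
    rfl

lemma lv_mono (F : ℕ → ℕ) (base : ℕ) {i j : ℕ} (h : i ≤ j) : lv F base i ≤ lv F base j := by
  rw [lv_eq F base i, lv_eq F base j]
  exact Nat.add_le_add_left (Finset.sum_le_sum_of_subset (Finset.range_mono h)) _

lemma plhl_eq {ι : Type} (J : Finset ι) (t : ι → ℕ) (n : ℕ) :
    pl J t n * hl J t n = ∏ i ∈ J, G0 (n + t i) := pl_mul_hl J t n

lemma pnhl_eq {ι : Type} (z : ℕ) (J : Finset ι) (t : ι → ℕ) (n : ℕ) :
    pn z J t n * hl J t n = ∏ i ∈ J, G1 z (n + t i) := by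
  unfold pn hl G1
  rw [← Finset.prod_mul_distrib]

lemma inv_log_le (u : ℕ) : 1 / Real.log (u : ℝ) ≤ 2 := by
  rcases Nat.lt_or_ge u 2 with h | h
  · have : u = 0 ∨ u = 1 := by omega
    rcases this with h | h
    · subst h
      simp
    · subst h
      simp
  · have h1 : Real.log 2 ≤ Real.log u :=
      Real.log_le_log (by norm_num) (by exact_mod_cast h)
    have h2 := Real.log_two_gt_d9
    rw [div_le_iff₀ (by linarith)]
    linarith

lemma inv_log_nonneg (u : ℕ) : 0 ≤ 1 / Real.log (u : ℝ) :=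
  div_nonneg zero_le_one (Real.log_natCast_nonneg u)

lemma G0_nonneg (n : ℕ) : 0 ≤ G0 n := by
  unfold G0
  split_ifs
  · exact zero_le_one
  · exact le_refl _

lemma G0_le (n : ℕ) : G0 n ≤ 1 := by
  unfold G0
  split_ifs
  · exact le_refl _
  · exact zero_le_one

lemma G1_nonneg (z n : ℕ) : 0 ≤ G1 z n := mul_nonneg (nuz_nonneg _ _) (inv_log_nonneg _)

lemma G1_le {x z : ℕ} (hL : 2 ≤ Real.log x) (hD : (DZ z)⁻¹ ≤ Real.log x) (n : ℕ) :
    G1 z n ≤ Real.log x ^ 2 := by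
  unfold G1
  have h1 := inv_log_le n
  have h2 := (nuz_le z n).trans hD
  have h3 := inv_log_nonneg n
  have h4 := nuz_nonneg z n
  nlinarith

lemma prodG_nonneg {ι : Type} (J : Finset ι) (G : ℕ → ℝ) (t : ι → ℕ) (n : ℕ)
    (h0 : ∀ n, 0 ≤ G n) : 0 ≤ ∏ i ∈ J, G (n + t i) := Finset.prod_nonneg fun _ _ => h0 _

lemma prodG_le {ι : Type} (J : Finset ι) (G : ℕ → ℝ) (t : ι → ℕ) (n : ℕ) (C : ℝ)
    (h0 : ∀ n, 0 ≤ G n) (h1 : ∀ n, G n ≤ C) : ∏ i ∈ J, G (n + t i) ≤ C ^ J.card := by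
  calc ∏ i ∈ J, G (n + t i) ≤ ∏ _i ∈ J, C :=
        Finset.prod_le_prod (fun i _ => h0 _) fun i _ => h1 _
    _ = C ^ J.card := by rw [Finset.prod_const]

lemma prodG0_le {ι : Type} (J : Finset ι) (t : ι → ℕ) (n : ℕ) : ∏ i ∈ J, G0 (n + t i) ≤ 1 := by
  have := prodG_le J G0 t n 1 G0_nonneg G0_le
  rwa [one_pow] at this

lemma prodG1_le {m x z : ℕ} (hL : 2 ≤ Real.log x) (hD : (DZ z)⁻¹ ≤ Real.log x)
    (J : Finset (Fin m)) (t : Fin m → ℕ) (n : ℕ) :
    ∏ i ∈ J, G1 z (n + t i) ≤ Real.log x ^ (2 * m) := by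
  have h1 := prodG_le J (G1 z) t n (Real.log x ^ 2) (G1_nonneg z) (G1_le hL hD)
  refine h1.trans ?_
  rw [← pow_mul]
  refine pow_le_pow_right₀ (by linarith) (Nat.mul_le_mul_left 2 ?_)
  have := Finset.card_le_univ J
  rwa [Fintype.card_fin] at this

/-- The telescoped part: `L¹` comparison of the products over the rows. -/
theorem core_tel (k m A : ℕ) (F : ℕ → ℕ) : ∃ bg Ag : ℕ, ∀ A' : ℕ, ∀ᶠ x : ℕ in atTop,
    ∀ T : Fin k → Finset ℕ, (∀ i, SpC F bg x (T i)) →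
    ∀ J : Fin k → Finset (Fin m), ∀ β : Fin m → ℕ, (∀ j, β j ≤ x) →
    (∀ i : Fin k, ∀ ξ ∈ Spec (4 * x + 1) (T i) (Real.log x ^ bg), ∀ y : ℕ, y ≤ x →
      ‖∑ n ∈ Icc 1 y, ((pl (J i) β n - pn (zA A' x) (J i) β n : ℝ) : ℂ) *
        ex (n * (ξ / ((4 * x + 1 : ℕ) : ℝ)))‖ ≤ x / Real.log x ^ Ag) →
    ∀ Y : ℕ, Y ≤ x → (∀ i, ∀ a ∈ T i, Y + a ≤ x) →
    ∑ n ∈ Icc 1 Y, |∏ i, (∑ a ∈ T i, ∏ j ∈ J i, G0 (n + a + β j)) -
        ∏ i, (∑ a ∈ T i, ∏ j ∈ J i, G1 (zA A' x) (n + a + β j))| ≤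
      (∏ i, ((T i).card : ℝ)) * (x / Real.log x ^ A) := by
  classical
  obtain ⟨DD, hDD⟩ : ∃ DD, DD = 2 * m * k + 1 + A := ⟨_, rfl⟩
  obtain ⟨bg, Ag, hl2⟩ := grid_l2Y m (2 * DD) F
  refine ⟨bg, Ag, fun A' => ?_⟩
  filter_upwards [hl2 A', DZ_inv_le A', ev_log 2, ev_log (k : ℝ), eventually_ge_atTop 2]
    with x hl2 hD hL2 hLk hx2
  intro T hT J β hβ H1 Y hYx hT2
  obtain ⟨L, hLdef⟩ : ∃ L, L = Real.log x := ⟨_, rfl⟩
  rw [← hLdef] at hl2 hD hL2 hLk H1 ⊢
  have hL0 : 0 < L := by linarith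
  have hL1 : 1 ≤ L := by linarith
  have hLp : ∀ n : ℕ, 0 < L ^ n := fun n => pow_pos hL0 n
  have hx0 : (0 : ℝ) < x := by
    have : 0 < x := by omega
    exact_mod_cast this
  have hprod0 : 0 ≤ ∏ i, ((T i).card : ℝ) := Finset.prod_nonneg fun _ _ => Nat.cast_nonneg _
  have hG1 : ∀ (J : Finset (Fin m)) (n : ℕ), ∏ j ∈ J, G1 (zA A' x) (n + β j) ≤ L ^ (2 * m) := by
    intro J n
    have := prodG1_le (x := x) (z := zA A' x) (by rw [← hLdef]; exact hL2)
      (by rw [← hLdef]; exact hD) J β n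
    rwa [← hLdef] at this
  obtain ⟨S, hS⟩ : ∃ S : Fin k → ℕ → ℝ,
      S = fun i n => ∑ a ∈ T i, ∏ j ∈ J i, G0 (n + a + β j) := ⟨_, rfl⟩
  obtain ⟨S', hS'⟩ : ∃ S' : Fin k → ℕ → ℝ,
      S' = fun i n => ∑ a ∈ T i, ∏ j ∈ J i, G1 (zA A' x) (n + a + β j) := ⟨_, rfl⟩
  have hSb : ∀ i n, |S i n| ≤ (T i).card * L ^ (2 * m) := by
    intro i n
    rw [hS]
    simp only
    rw [abs_of_nonneg (Finset.sum_nonneg fun a _ => Finset.prod_nonneg fun j _ => G0_nonneg _)]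
    calc ∑ a ∈ T i, ∏ j ∈ J i, G0 (n + a + β j) ≤ ∑ _a ∈ T i, (1 : ℝ) :=
          Finset.sum_le_sum fun a _ => prodG0_le (J i) β (n + a)
      _ = (T i).card * 1 := by rw [Finset.sum_const, nsmul_eq_mul]
      _ ≤ (T i).card * L ^ (2 * m) :=
          mul_le_mul_of_nonneg_left (one_le_pow₀ hL1) (Nat.cast_nonneg _)
  have hSb' : ∀ i n, |S' i n| ≤ (T i).card * L ^ (2 * m) := by
    intro i n
    rw [hS']
    simp only
    rw [abs_of_nonneg (Finset.sum_nonneg fun a _ => Finset.prod_nonneg fun j _ => G1_nonneg _ _)]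
    calc ∑ a ∈ T i, ∏ j ∈ J i, G1 (zA A' x) (n + a + β j) ≤ ∑ _a ∈ T i, L ^ (2 * m) :=
          Finset.sum_le_sum fun a _ => hG1 (J i) (n + a)
      _ = (T i).card * L ^ (2 * m) := by rw [Finset.sum_const, nsmul_eq_mul]
  have hb0 : ∀ i : Fin k, 0 ≤ ((T i).card : ℝ) * L ^ (2 * m) := fun i =>
    mul_nonneg (Nat.cast_nonneg _) (hLp _).le
  have h1 := tel_l1 k x (fun i n => if n ≤ Y then S i n else 0)
    (fun i n => if n ≤ Y then S' i n else 0)
    (fun i => ((T i).card : ℝ)) (L ^ (2 * m)) (1 / L ^ DD)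
    (one_le_pow₀ hL1) (div_nonneg zero_le_one (hLp _).le) (fun i => Nat.cast_nonneg _) ?_ ?_ ?_
  · have h4 : ∑ n ∈ Icc 1 Y, |∏ i, S i n - ∏ i, S' i n| ≤
        ∑ n ∈ Icc 1 x, |(∏ i, if n ≤ Y then S i n else 0) - ∏ i, if n ≤ Y then S' i n else 0| := by
      refine le_trans (le_of_eq ?_) (Finset.sum_le_sum_of_subset_of_nonneg
        (Finset.Icc_subset_Icc_right hYx) fun _ _ _ => abs_nonneg _)
      refine Finset.sum_congr rfl fun n hn => ?_
      have := (mem_Icc.mp hn).2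
      simp only [if_pos this]
    rw [hS, hS'] at h4
    refine h4.trans ?_
    rw [hS, hS'] at h1
    refine h1.trans ?_
    calc (k : ℝ) * (∏ i, ((T i).card : ℝ)) * (L ^ (2 * m)) ^ k * (1 / L ^ DD) * (x : ℝ)
        ≤ L * (∏ i, ((T i).card : ℝ)) * (L ^ (2 * m)) ^ k * (1 / L ^ DD) * x := by
          have e1 : (k : ℝ) * (∏ i, ((T i).card : ℝ)) ≤ L * (∏ i, ((T i).card : ℝ)) :=
            mul_le_mul_of_nonneg_right hLk hprod0
          have e2 : 0 ≤ (L ^ (2 * m)) ^ k := pow_nonneg (hLp _).le _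
          have e3 : 0 ≤ 1 / L ^ DD := div_nonneg zero_le_one (hLp _).le
          exact mul_le_mul_of_nonneg_right (mul_le_mul_of_nonneg_right
            (mul_le_mul_of_nonneg_right e1 e2) e3) hx0.le
      _ = (∏ i, ((T i).card : ℝ)) * (x * (L ^ (2 * m * k + 1) / L ^ DD)) := by
          rw [← pow_mul, pow_succ]
          ring
      _ = (∏ i, ((T i).card : ℝ)) * (x * (1 / L ^ A)) := by
          congr 2
          rw [hDD, pow_add L (2 * m * k + 1) A]
          have := (hLp (2 * m * k + 1)).ne'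
          field_simp
      _ = _ := by ring
  · intro i n _
    split_ifs
    · exact hSb i n
    · rw [abs_zero]
      exact hb0 i
  · intro i n _
    split_ifs
    · exact hSb' i n
    · rw [abs_zero]
      exact hb0 i
  · intro i
    have h2 := hl2 (T i) (hT i) Y (hT2 i) (J i) β hβ (H1 i)
    simp only [plhl_eq, pnhl_eq] at h2
    have h5 : ∑ n ∈ Icc 1 x, ((if n ≤ Y then S i n else 0) - (if n ≤ Y then S' i n else 0)) ^ 2 =
        ∑ n ∈ Icc 1 Y, (S i n - S' i n) ^ 2 := by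
      have h6 : Icc 1 Y = (Icc 1 x).filter (fun n => n ≤ Y) := by
        ext n
        simp only [mem_Icc, mem_filter]
        omega
      rw [h6, Finset.sum_filter]
      refine Finset.sum_congr rfl fun n _ => ?_
      split_ifs
      · rfl
      · simp
    rw [h5, hS, hS']
    refine h2.trans (le_of_eq ?_)
    rw [div_pow, one_pow, ← pow_mul, mul_comm DD 2]
    ring

/-- The second part: the factor of the fixed row. -/
theorem core_trunc (k m K A : ℕ) (F : ℕ → ℕ) : ∃ (base A1 : ℕ), ∀ A' : ℕ, ∀ᶠ x : ℕ in atTop,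
    ∀ T : Fin k → Finset ℕ, (∀ i, SpC F (lv F base k) x (T i)) →
    ∀ J0 : Finset (Fin m), ∀ J : Fin k → Finset (Fin m), ∀ β : Fin m → ℕ, (∀ j, β j ≤ x) →
    ∀ w : ℕ → ℂ, (∀ n ∈ Icc 1 x, ‖w n‖ ≤ Real.log x ^ K) →
    (∀ ξ : Fin k → ℕ, (∀ i, ξ i ∈ Spec (4 * x + 1) (T i) (Real.log x ^ lv F base i)) →
      ∀ y : ℕ, y ≤ x → ‖∑ n ∈ Icc 1 y, w n * ((pl J0 β n - pn (zA A' x) J0 β n : ℝ) : ℂ) *
        ex (n * (-(∑ i, (ξ i : ℝ)) / ((4 * x + 1 : ℕ) : ℝ)))‖ ≤ x / Real.log x ^ A1) →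
    ∀ y : ℕ, y ≤ x → (∀ i, ∀ a ∈ T i, y + a ≤ x) →
    ‖∑ n ∈ Icc 1 y, (w n * ((∏ j ∈ J0, G0 (n + β j) - ∏ j ∈ J0, G1 (zA A' x) (n + β j) : ℝ) : ℂ)) *
        ∏ i, ((∑ a ∈ T i, ∏ j ∈ J i, G1 (zA A' x) (n + a + β j) : ℝ) : ℂ)‖ ≤
      (∏ i, ((T i).card : ℝ)) * (x / Real.log x ^ A) := by
  classical
  obtain ⟨base, hbase⟩ : ∃ base, base = 2 * m * k + K + 2 * m + A + 3 := ⟨_, rfl⟩
  obtain ⟨sF, hsF⟩ : ∃ sF, sF = ∑ i ∈ range k, F (lv F base i) := ⟨_, rfl⟩
  refine ⟨base, 2 * m * k + sF + A + 2, fun A' => ?_⟩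
  filter_upwards [DZ_inv_le A', ev_log 2, ev_log (k : ℝ), ev_log (2 ^ (m + 2)),
    eventually_ge_atTop 2] with x hD hL2 hLk hLm hx2
  intro T hT J0 J β hβ w hw H2 y hy hT2
  obtain ⟨L, hLdef⟩ : ∃ L, L = Real.log x := ⟨_, rfl⟩
  have hpg : ∀ (J : Finset (Fin m)) (n : ℕ), ∏ j ∈ J, G1 (zA A' x) (n + β j) ≤ L ^ (2 * m) := by
    intro J n
    have := prodG1_le (x := x) (z := zA A' x) hL2 hD J β n
    rwa [← hLdef] at this
  have hT' : ∀ i, ∀ b ≤ lv F base k, ((Spec (4 * x + 1) (T i) (L ^ b)).card : ℝ) ≤ L ^ F b := by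
    intro i b hb
    rw [hLdef]
    exact (hT i).2 b hb
  rw [← hLdef] at hD hL2 hLk hLm H2 hw ⊢
  have hL0 : 0 < L := by linarith
  have hL1 : 1 ≤ L := by linarith
  have hLp : ∀ n : ℕ, 0 < L ^ n := fun n => pow_pos hL0 n
  have hx0 : (0 : ℝ) < x := by
    have : 0 < x := by omega
    exact_mod_cast this
  have hprod0 : 0 ≤ ∏ i, ((T i).card : ℝ) := Finset.prod_nonneg fun _ _ => Nat.cast_nonneg _
  have hpg0 : ∀ (J : Finset (Fin m)) (n : ℕ), 0 ≤ ∏ j ∈ J, G1 (zA A' x) (n + β j) := fun J n =>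
    prodG_nonneg J _ β n (G1_nonneg _)
  have h1 := truncL k x y (by omega) hy T hT2
    (fun i n => ∏ j ∈ J i, G1 (zA A' x) (n + β j))
    (fun n => w n * ((∏ j ∈ J0, G0 (n + β j) - ∏ j ∈ J0, G1 (zA A' x) (n + β j) : ℝ) : ℂ))
    (L ^ (2 * m)) (L ^ (K + 2 * m)) (2 ^ (m + 2) * (x / L ^ (2 * m * k + sF + A + 2)))
    (fun i => L ^ F (lv F base i)) (fun i => L ^ lv F base i) (one_le_pow₀ hL1)
    (fun i => one_le_pow₀ hL1) (fun i => one_le_pow₀ hL1) (hLp _).le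
    (mul_nonneg (pow_nonneg zero_le_two _) (div_nonneg hx0.le (hLp _).le)) ?_ ?_ ?_ ?_
  · refine h1.trans ?_
    have e1 : ∏ i : Fin k, L ^ F (lv F base i) = L ^ sF := by
      rw [Finset.prod_pow_eq_pow_sum, hsF, Finset.sum_range]
    have e2 : ∀ i : Fin k, (∏ i' ∈ univ.filter (fun i' => i' < i), L ^ F (lv F base i')) /
        L ^ lv F base i = 1 / L ^ base := by
      intro i
      have e3 : ∑ i' ∈ univ.filter (fun i' : Fin k => i' < i), F (lv F base i') =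
          ∑ l ∈ range i, F (lv F base l) := by
        refine Finset.sum_bij (fun i' _ => (i' : ℕ)) ?_ ?_ ?_ ?_
        · intro a ha
          rw [Finset.mem_filter] at ha
          exact Finset.mem_range.mpr ha.2
        · intro a _ b _ hab
          exact Fin.ext hab
        · intro b hb
          have hb' := Finset.mem_range.mp hb
          exact ⟨⟨b, hb'.trans i.2⟩, Finset.mem_filter.mpr ⟨Finset.mem_univ _, hb'⟩, rfl⟩
        · intro a _
          rfl
      rw [Finset.prod_pow_eq_pow_sum, e3, lv_eq F base i, pow_add]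
      have h4 := (hLp (∑ l ∈ range i, F (lv F base l))).ne'
      have h5 := (hLp base).ne'
      field_simp
    have e4 : ∑ i : Fin k, (∏ i' ∈ univ.filter (fun i' => i' < i), L ^ F (lv F base i')) /
        L ^ lv F base i = k * (1 / L ^ base) := by
      rw [Finset.sum_congr rfl fun i _ => e2 i, Finset.sum_const, Finset.card_univ,
        Fintype.card_fin, nsmul_eq_mul]
    rw [e1, e4]
    have f1 : (L ^ (2 * m)) ^ k * (L ^ sF * (2 ^ (m + 2) *
        (x / L ^ (2 * m * k + sF + A + 2)))) ≤ x / L ^ (A + 1) := by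
      rw [← pow_mul]
      calc L ^ (2 * m * k) * (L ^ sF * (2 ^ (m + 2) * (x / L ^ (2 * m * k + sF + A + 2))))
          ≤ L ^ (2 * m * k) * (L ^ sF * (L * (x / L ^ (2 * m * k + sF + A + 2)))) := by
            refine mul_le_mul_of_nonneg_left (mul_le_mul_of_nonneg_left
              (mul_le_mul_of_nonneg_right hLm (div_nonneg hx0.le (hLp _).le)) (hLp _).le) (hLp _).le
        _ = x / L ^ (A + 1) := by
            rw [show 2 * m * k + sF + A + 2 = 2 * m * k + (sF + (1 + (A + 1))) by ring,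
              pow_add L (2 * m * k), pow_add L sF, pow_add L 1, pow_one]
            have h4 := (hLp (2 * m * k)).ne'
            have h5 := (hLp sF).ne'
            have h6 := (hLp (A + 1)).ne'
            have h7 := hL0.ne'
            field_simp
    have f2 : (L ^ (2 * m)) ^ k * (L ^ (K + 2 * m) * x * (k * (1 / L ^ base))) ≤
        x / L ^ (A + 1) := by
      rw [← pow_mul]
      calc L ^ (2 * m * k) * (L ^ (K + 2 * m) * x * (k * (1 / L ^ base)))
          ≤ L ^ (2 * m * k) * (L ^ (K + 2 * m) * x * (L * (1 / L ^ base))) := by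
            refine mul_le_mul_of_nonneg_left (mul_le_mul_of_nonneg_left
              (mul_le_mul_of_nonneg_right hLk (div_nonneg zero_le_one (hLp _).le))
                (mul_nonneg (hLp _).le hx0.le)) (hLp _).le
        _ = x / L ^ (A + 2) := by
            rw [hbase, show 2 * m * k + K + 2 * m + A + 3 =
              2 * m * k + ((K + 2 * m) + (1 + (A + 2))) by ring,
              pow_add L (2 * m * k), pow_add L (K + 2 * m), pow_add L 1, pow_one]
            have h4 := (hLp (2 * m * k)).ne'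
            have h5 := (hLp (K + 2 * m)).ne'
            have h6 := (hLp (A + 2)).ne'
            have h7 := hL0.ne'
            field_simp
        _ ≤ x / L ^ (A + 1) := div_le_div_of_nonneg_left hx0.le (hLp _)
            (pow_le_pow_right₀ hL1 (by omega))
    have f3 : x / L ^ (A + 1) + x / L ^ (A + 1) ≤ x / L ^ A := by
      rw [← two_mul, pow_succ, ← mul_div_assoc, div_le_div_iff₀ (mul_pos (hLp _) hL0) (hLp _)]
      have h8 : 0 ≤ (x : ℝ) * L ^ A := mul_nonneg hx0.le (hLp _).le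
      nlinarith
    calc _ = (∏ i, ((T i).card : ℝ)) * ((L ^ (2 * m)) ^ k * (L ^ sF * (2 ^ (m + 2) *
        (x / L ^ (2 * m * k + sF + A + 2)))) +
          (L ^ (2 * m)) ^ k * (L ^ (K + 2 * m) * x * (k * (1 / L ^ base)))) := by ring
      _ ≤ (∏ i, ((T i).card : ℝ)) * (x / L ^ A) :=
          mul_le_mul_of_nonneg_left ((add_le_add f1 f2).trans f3) hprod0
  · intro i n _
    rw [abs_of_nonneg (hpg0 (J i) n)]
    exact hpg (J i) n
  · intro n hn
    rw [norm_mul, pow_add]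
    refine mul_le_mul (hw n ?_) ?_ (norm_nonneg _) (hLp _).le
    · rw [mem_Icc] at hn ⊢
      omega
    · rw [Complex.norm_real, Real.norm_eq_abs]
      have c1 := hpg J0 n
      have c2 := hpg0 J0 n
      have c3 := prodG0_le J0 β n
      have c4 := prodG_nonneg J0 G0 β n G0_nonneg
      have c5 : (1 : ℝ) ≤ L ^ (2 * m) := one_le_pow₀ hL1
      rw [abs_le]
      constructor <;> linarith
  · intro i
    exact hT' i _ (lv_mono F base i.2.le)
  · intro ξ hξ
    have h2 := abel_log J0 β (fun n => w n * ((pl J0 β n - pn (zA A' x) J0 β n : ℝ) : ℂ) *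
        ex (n * (-(∑ i, (ξ i : ℝ)) / ((4 * x + 1 : ℕ) : ℝ)))) 0
        (x / L ^ (2 * m * k + sF + A + 2)) x (fun y hy => by
          rw [mul_zero, sub_zero]
          exact H2 ξ hξ y hy) y (by omega)
    rw [zero_mul, sub_zero, norm_zero, add_zero] at h2
    have e : ∑ n ∈ Icc 1 y, w n * ((∏ j ∈ J0, G0 (n + β j) -
        ∏ j ∈ J0, G1 (zA A' x) (n + β j) : ℝ) : ℂ) *
        ex (n * (-(∑ i, (ξ i : ℝ)) / ((4 * x + 1 : ℕ) : ℝ))) =
        ∑ n ∈ Icc 1 y, w n * ((pl J0 β n - pn (zA A' x) J0 β n : ℝ) : ℂ) *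
        ex (n * (-(∑ i, (ξ i : ℝ)) / ((4 * x + 1 : ℕ) : ℝ))) * (hl J0 β n : ℂ) := by
      refine Finset.sum_congr rfl fun n _ => ?_
      rw [← plhl_eq, ← pnhl_eq, ← sub_mul]
      push_cast
      ring
    rw [e]
    refine h2.trans ?_
    refine mul_le_mul_of_nonneg_right ?_ (div_nonneg hx0.le (hLp _).le)
    refine pow_le_pow_right₀ one_le_two ?_
    have := Finset.card_le_univ J0
    rw [Fintype.card_fin] at this
    omega

end Pool.Agent.HLU
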