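import Pool.Agent.Lib.HLU.Base

/-!
# Partial summation with the inverse logarithms

PROOF SKETCH. `g n = hl J t n` is nonnegative and decreasing for `n ≥ 2` (each factor `1 / log (n + t i)` with
`n + t i ≥ 2` is positive and decreasing), `g n ≤ 2^|J|` for `n ≥ 1` (`1 / log 2 ≤ 2`; the factor is `0` if
`n + t i = 1`). With `D n = ∑_{k ≤ n} f k - n S`, `‖D n‖ ≤ E` (`D 0 = 0`):
`∑_{2 ≤ n ≤ y} (f n - S) g n = D y * g y + ∑_{2 ≤ n < y} D n (g n - g (n+1)) - D 1 * g 2` for `y ≥ 2`, norm at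
most `E (g y + (g 2 - g y) + g 2) = 2 E g 2 ≤ 2^(|J|+1) E`. The term `n = 1`:
`‖f 1‖ g 1 ≤ (E + ‖S‖) 2^|J|`. (Prove it by induction on `y` or with `Finset.sum_range_by_parts`.)
`count_eq`: `lp n * (1 / log n) = 1` for `n` prime and `0` otherwise.
-/

set_option autoImplicit false

open Finset Filter

namespace Pool.Agent.HLU

open Pool.Agent.HLB Pool.Agent.HL Pool.Agent.HLT

lemma abel_hl_nonneg {ι : Type} (J : Finset ι) (t : ι → ℕ) (n : ℕ) : 0 ≤ hl J t n :=
  Finset.prod_nonneg fun i _ => by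
    have : 0 ≤ Real.log ((n + t i : ℕ) : ℝ) := Real.log_natCast_nonneg _
    positivity

lemma abel_hl_anti {ι : Type} (J : Finset ι) (t : ι → ℕ) {n : ℕ} (hn : 2 ≤ n) :
    hl J t (n + 1) ≤ hl J t n := by
  unfold hl
  refine Finset.prod_le_prod (fun i _ => ?_) fun i _ => ?_
  · have : 0 ≤ Real.log ((n + 1 + t i : ℕ) : ℝ) := Real.log_natCast_nonneg _
    positivity
  · have h1 : (1 : ℝ) < ((n + t i : ℕ) : ℝ) := by
      have : 1 < n + t i := by omega
      exact_mod_cast this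
    have h2 : 0 < Real.log ((n + t i : ℕ) : ℝ) := Real.log_pos h1
    refine one_div_le_one_div_of_le h2 (Real.log_le_log (by linarith) ?_)
    exact_mod_cast (by omega : n + t i ≤ n + 1 + t i)

lemma abel_hl_le {ι : Type} (J : Finset ι) (t : ι → ℕ) {n : ℕ} (hn : 1 ≤ n) :
    hl J t n ≤ 2 ^ J.card := by
  unfold hl
  calc ∏ i ∈ J, 1 / Real.log ((n + t i : ℕ) : ℝ) ≤ ∏ _i ∈ J, (2 : ℝ) := by
        refine Finset.prod_le_prod (fun i _ => ?_) fun i _ => ?_
        · have : 0 ≤ Real.log ((n + t i : ℕ) : ℝ) := Real.log_natCast_nonneg _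
          positivity
        · rcases Nat.lt_or_ge (n + t i) 2 with h | h
          · have : n + t i = 1 := by omega
            rw [this]
            simp
          · have h2 : Real.log 2 ≤ Real.log ((n + t i : ℕ) : ℝ) :=
              Real.log_le_log (by norm_num) (by exact_mod_cast h)
            have h3 := Real.log_two_gt_d9
            rw [div_le_iff₀ (by linarith)]
            linarith
    _ = 2 ^ J.card := by rw [Finset.prod_const]

theorem abel_log {ι : Type} (J : Finset ι) (t : ι → ℕ) (f : ℕ → ℂ) (S : ℂ) (E : ℝ) (x : ℕ)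
    (h : ∀ y : ℕ, y ≤ x → ‖∑ n ∈ Icc 1 y, f n - y * S‖ ≤ E) : ∀ y : ℕ, y ≤ x →
    ‖∑ n ∈ Icc 1 y, f n * (hl J t n : ℂ) - S * ∑ n ∈ Icc 2 y, (hl J t n : ℂ)‖ ≤
      2 ^ (J.card + 2) * (E + ‖S‖) := by
  have hE : 0 ≤ E := (norm_nonneg _).trans (h 0 (Nat.zero_le _))
  set D : ℕ → ℂ := fun y => ∑ n ∈ Icc 1 y, f n - y * S with hD
  set g : ℕ → ℝ := hl J t with hg
  set T : ℕ → ℂ := fun y => ∑ n ∈ Icc 2 y, (f n - S) * (g n : ℂ) with hT
  have hDs : ∀ y : ℕ, f (y + 1) - S = D (y + 1) - D y := by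
    intro y
    simp only [hD]
    rw [Finset.sum_Icc_succ_top (by omega)]
    push_cast
    ring
  have hg2 : ∀ n, 2 ≤ n → g (n + 1) ≤ g n := fun n hn => abel_hl_anti J t hn
  have hgn : ∀ n, 0 ≤ g n := fun n => abel_hl_nonneg J t n
  have key : ∀ y : ℕ, 2 ≤ y → y ≤ x → ‖T y - D y * (g y : ℂ)‖ ≤ E * (2 * g 2 - g y) := by
    intro y hy
    induction y, hy using Nat.le_induction with
    | base =>
      intro hx
      have e : T 2 - D 2 * (g 2 : ℂ) = -(D 1 * (g 2 : ℂ)) := by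
        have : T 2 = (f 2 - S) * (g 2 : ℂ) := by simp [hT]
        rw [this, hDs 1]
        ring
      rw [e, norm_neg, norm_mul, Complex.norm_real, Real.norm_of_nonneg (hgn 2)]
      have := h 1 (by omega)
      calc ‖D 1‖ * g 2 ≤ E * g 2 := mul_le_mul_of_nonneg_right this (hgn 2)
        _ = E * (2 * g 2 - g 2) := by ring
    | succ y hy ih =>
      intro hx
      have e : T (y + 1) - D (y + 1) * (g (y + 1) : ℂ) =
          (T y - D y * (g y : ℂ)) + D y * ((g y - g (y + 1) : ℝ) : ℂ) := by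
        have : T (y + 1) = T y + (f (y + 1) - S) * (g (y + 1) : ℂ) := by
          simp only [hT]
          rw [Finset.sum_Icc_succ_top (by omega)]
        rw [this, hDs y]
        push_cast
        ring
      rw [e]
      have h1 := ih (by omega)
      have h2 : ‖D y * ((g y - g (y + 1) : ℝ) : ℂ)‖ ≤ E * (g y - g (y + 1)) := by
        rw [norm_mul, Complex.norm_real, Real.norm_of_nonneg (by linarith [hg2 y hy])]
        exact mul_le_mul_of_nonneg_right (h y (by omega)) (by linarith [hg2 y hy])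
      calc _ ≤ E * (2 * g 2 - g y) + E * (g y - g (y + 1)) := (norm_add_le _ _).trans (add_le_add h1 h2)
        _ = E * (2 * g 2 - g (y + 1)) := by ring
  intro y hy
  have hp : (2 : ℝ) ^ (J.card + 2) = 4 * 2 ^ J.card := by rw [pow_add]; ring
  have hp0 : (1 : ℝ) ≤ 2 ^ J.card := one_le_pow₀ (by norm_num)
  have hS : 0 ≤ ‖S‖ := norm_nonneg _
  rcases Nat.eq_zero_or_pos y with h0 | h0
  · subst h0
    simp only [Icc_eq_empty_of_lt (show (0:ℕ) < 1 by norm_num),
      Icc_eq_empty_of_lt (show (0:ℕ) < 2 by norm_num), Finset.sum_empty, mul_zero, sub_zero, norm_zero]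
    positivity
  have hT2 : ‖T y‖ ≤ E * (2 * 2 ^ J.card) := by
    rcases Nat.lt_or_ge y 2 with h2 | h2
    · have : y = 1 := by omega
      subst this
      have : T 1 = 0 := by simp [hT]
      rw [this, norm_zero]
      positivity
    · have h3 := key y h2 hy
      have h4 : ‖D y * (g y : ℂ)‖ ≤ E * g y := by
        rw [norm_mul, Complex.norm_real, Real.norm_of_nonneg (hgn y)]
        exact mul_le_mul_of_nonneg_right (h y hy) (hgn y)
      have h5 : g 2 ≤ 2 ^ J.card := abel_hl_le J t (by norm_num)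
      have e : T y = (T y - D y * (g y : ℂ)) + D y * (g y : ℂ) := by ring
      rw [e]
      calc _ ≤ E * (2 * g 2 - g y) + E * g y := (norm_add_le _ _).trans (add_le_add h3 h4)
        _ = E * (2 * g 2) := by ring
        _ ≤ E * (2 * 2 ^ J.card) := mul_le_mul_of_nonneg_left (by linarith) hE
  have e : ∑ n ∈ Icc 1 y, f n * (g n : ℂ) - S * ∑ n ∈ Icc 2 y, (g n : ℂ) =
      f 1 * (g 1 : ℂ) + T y := by
    have hI : Icc 1 y = insert 1 (Icc 2 y) := by
      ext n
      simp only [mem_Icc, mem_insert]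
      omega
    rw [hI, Finset.sum_insert (by simp), Finset.mul_sum, add_sub_assoc, ← Finset.sum_sub_distrib]
    congr 1
    refine Finset.sum_congr rfl fun n _ => ?_
    ring
  have hf1 : ‖f 1‖ ≤ E + ‖S‖ := by
    have h1 := h 1 (by omega)
    simp only [Icc_self, Finset.sum_singleton, Nat.cast_one, one_mul] at h1
    calc ‖f 1‖ = ‖(f 1 - S) + S‖ := by rw [sub_add_cancel]
      _ ≤ E + ‖S‖ := (norm_add_le _ _).trans (by linarith)
  have hg1 : g 1 ≤ 2 ^ J.card := abel_hl_le J t le_rfl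
  rw [e, hp]
  have h6 : ‖f 1 * (g 1 : ℂ)‖ ≤ (E + ‖S‖) * 2 ^ J.card := by
    rw [norm_mul, Complex.norm_real, Real.norm_of_nonneg (hgn 1)]
    exact mul_le_mul hf1 hg1 (hgn 1) (by linarith)
  have h7 : 0 ≤ ‖S‖ * 2 ^ J.card := by positivity
  have h8 : 0 ≤ E * 2 ^ J.card := by positivity
  calc _ ≤ (E + ‖S‖) * 2 ^ J.card + E * (2 * 2 ^ J.card) :=
        (norm_add_le _ _).trans (add_le_add h6 hT2)
    _ ≤ 4 * 2 ^ J.card * (E + ‖S‖) := by nlinarith

theorem abel_log_real {ι : Type} (J : Finset ι) (t : ι → ℕ) (f : ℕ → ℝ) (S E : ℝ) (x : ℕ)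
    (h : ∀ y : ℕ, y ≤ x → |∑ n ∈ Icc 1 y, f n - y * S| ≤ E) : ∀ y : ℕ, y ≤ x →
    |∑ n ∈ Icc 1 y, f n * hl J t n - S * ∑ n ∈ Icc 2 y, hl J t n| ≤
      2 ^ (J.card + 2) * (E + |S|) := by
  intro y hy
  have key := abel_log J t (fun n => (f n : ℂ)) (S : ℂ) E x (fun y hy => by
    have h1 := h y hy
    have e : ∑ n ∈ Icc 1 y, (f n : ℂ) - y * (S : ℂ) =
        ((∑ n ∈ Icc 1 y, f n - y * S : ℝ) : ℂ) := by push_cast; rfl
    rw [e, Complex.norm_real]
    exact h1) y hy
  have e : ∑ n ∈ Icc 1 y, (f n : ℂ) * (hl J t n : ℂ) - (S : ℂ) * ∑ n ∈ Icc 2 y, (hl J t n : ℂ) =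
      ((∑ n ∈ Icc 1 y, f n * hl J t n - S * ∑ n ∈ Icc 2 y, hl J t n : ℝ) : ℂ) := by
    push_cast
    rfl
  rw [e, Complex.norm_real, Complex.norm_real] at key
  exact key

theorem pl_mul_hl {ι : Type} (J : Finset ι) (t : ι → ℕ) (n : ℕ) :
    pl J t n * hl J t n = ∏ i ∈ J, (if (n + t i).Prime then (1 : ℝ) else 0) := by
  unfold pl hl
  rw [← Finset.prod_mul_distrib]
  refine Finset.prod_congr rfl fun i _ => ?_
  unfold HLT.lp
  split_ifs with hp
  · have h1 : (1 : ℝ) < ((n + t i : ℕ) : ℝ) := by exact_mod_cast hp.one_lt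
    have h2 : 0 < Real.log ((n + t i : ℕ) : ℝ) := Real.log_pos h1
    field_simp
  · rw [zero_mul]

theorem count_eq {ι : Type} [Fintype ι] (t : ι → ℕ) (y : ℕ) :
    ∑ n ∈ Icc 1 y, pl univ t n * hl univ t n =
      (((Icc 1 y).filter (fun n : ℕ => ∀ i, (n + t i).Prime)).card : ℝ) := by
  rw [Finset.card_filter]
  push_cast
  refine Finset.sum_congr rfl fun n _ => ?_
  rw [pl_mul_hl, Finset.prod_ite_zero]
  simp

end Pool.Agent.HLU
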