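import Pool.Agent.Lib.HLT.SupNorm

/-!
# Arbitrary weights, power of log errors, all `y ≤ x`: definitions and pointwise bounds

`SN A B x`: the exponential sums of `ff (zA A x) = lp - nuz (zA A x)` over `n ≤ y`, `y ≤ 2 x`, are at
most `x / (log x)^B`. `pl J t n`, `pn z J t n`, `hl J t n`: the products over `i ∈ J` of
`lp (n + t i)`, `nuz z (n + t i)`, `1 / log (n + t i)`.
-/

set_option autoImplicit false

open Finset Filter

namespace Pool.Agent.HLU

open Pool.Agent.HLB Pool.Agent.HL Pool.Agent.HLT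

/-- The sup norm hypothesis; by `sup_norm` it holds for some `A` and all large `x`. -/
def SN (A B x : ℕ) : Prop :=
  ∀ y : ℕ, y ≤ 2 * x → ∀ α : ℝ, ‖esum (ff (zA A x)) y α‖ ≤ x / Real.log x ^ B

/-- Product of the logarithm on the primes. -/
noncomputable def pl {ι : Type} (J : Finset ι) (t : ι → ℕ) (n : ℕ) : ℝ := ∏ i ∈ J, lp (n + t i)

/-- Product of the sieve weights. -/
noncomputable def pn {ι : Type} (z : ℕ) (J : Finset ι) (t : ι → ℕ) (n : ℕ) : ℝ :=
  ∏ i ∈ J, nuz z (n + t i)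

/-- Product of the inverse logarithms. -/
noncomputable def hl {ι : Type} (J : Finset ι) (t : ι → ℕ) (n : ℕ) : ℝ :=
  ∏ i ∈ J, 1 / Real.log ((n + t i : ℕ) : ℝ)

lemma SN.mono {A B B' x : ℕ} (h : SN A B' x) (hB : B ≤ B') (hL : 1 ≤ Real.log x) : SN A B x := by
  intro y hy α
  refine (h y hy α).trans ?_
  have h0 : 0 < Real.log x := by linarith
  exact div_le_div_of_nonneg_left (Nat.cast_nonneg _) (pow_pos h0 _) (pow_le_pow_right₀ hL hB)

lemma sn_exists (A0 B : ℕ) : ∃ A : ℕ, A0 ≤ A ∧ ∀ᶠ x : ℕ in atTop, SN A B x := sup_norm A0 B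

lemma ev_log (C : ℝ) : ∀ᶠ x : ℕ in atTop, C ≤ Real.log x :=
  (Real.tendsto_log_atTop.comp tendsto_natCast_atTop_atTop).eventually_ge_atTop _

/-- Powers of `log x` are at most `x / (log x)^b`. -/
lemma ev_pow (a b : ℕ) : ∀ᶠ x : ℕ in atTop, Real.log x ^ a ≤ x / Real.log x ^ b := by
  have h1 : (fun x : ℝ => Real.log x ^ (a + b)) =o[atTop] (fun x : ℝ => x ^ (1 : ℝ)) := by
    have h := isLittleO_log_rpow_rpow_atTop ((a + b : ℕ) : ℝ) (show (0:ℝ) < 1 by norm_num)
    simp only [Real.rpow_natCast] at h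
    exact h
  have h2 := (h1.comp_tendsto tendsto_natCast_atTop_atTop).bound (show (0:ℝ) < 1 by norm_num)
  filter_upwards [h2, ev_log 1, eventually_ge_atTop 1] with x hx hL hx1
  have hL0 : 0 < Real.log x := by linarith
  simp only [Function.comp_def, Real.rpow_one, one_mul] at hx
  rw [Real.norm_of_nonneg (by positivity), Real.norm_of_nonneg (by positivity)] at hx
  rw [le_div_iff₀ (by positivity), ← pow_add]
  exact hx

lemma lp_le_sq {x n : ℕ} (hL : 2 ≤ Real.log x) (hn : n ≤ 2 * x) : lp n ≤ Real.log x ^ 2 := by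
  have hx0 : (0 : ℝ) < x := by
    rcases Nat.eq_zero_or_pos x with h | h
    · subst h
      simp at hL
      linarith
    · exact_mod_cast h
  refine (lp_le n).trans ?_
  rcases Nat.eq_zero_or_pos n with h0 | h0
  · subst h0
    simp only [Nat.cast_zero, Real.log_zero]
    positivity
  have : Real.log n ≤ Real.log (2 * x) := by
    apply Real.log_le_log (by exact_mod_cast h0)
    exact_mod_cast hn
  rw [Real.log_mul (by norm_num) hx0.ne'] at this
  have hl2 : Real.log 2 ≤ 1 := by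
    have := Real.log_two_lt_d9
    linarith
  nlinarith

lemma pl_nonneg {ι : Type} (J : Finset ι) (t : ι → ℕ) (n : ℕ) : 0 ≤ pl J t n :=
  Finset.prod_nonneg fun _ _ => lp_nonneg _

lemma pn_nonneg {ι : Type} (z : ℕ) (J : Finset ι) (t : ι → ℕ) (n : ℕ) : 0 ≤ pn z J t n :=
  Finset.prod_nonneg fun _ _ => nuz_nonneg _ _

lemma pl_le {ι : Type} {x : ℕ} (hL : 2 ≤ Real.log x) (J : Finset ι) (t : ι → ℕ) (n : ℕ)
    (h : ∀ i ∈ J, n + t i ≤ 2 * x) : pl J t n ≤ Real.log x ^ (2 * J.card) := by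
  unfold pl
  calc ∏ i ∈ J, lp (n + t i) ≤ ∏ _i ∈ J, Real.log x ^ 2 :=
        Finset.prod_le_prod (fun i _ => lp_nonneg _) fun i hi => lp_le_sq hL (h i hi)
    _ = Real.log x ^ (2 * J.card) := by rw [Finset.prod_const, ← pow_mul]

lemma pn_le {ι : Type} {x z : ℕ} (hL : 2 ≤ Real.log x) (hD : (DZ z)⁻¹ ≤ Real.log x)
    (J : Finset ι) (t : ι → ℕ) (n : ℕ) : pn z J t n ≤ Real.log x ^ (2 * J.card) := by
  unfold pn
  calc ∏ i ∈ J, nuz z (n + t i) ≤ ∏ _i ∈ J, Real.log x ^ 2 :=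
        Finset.prod_le_prod (fun i _ => nuz_nonneg _ _) fun i _ =>
          (nuz_le _ _).trans (hD.trans (by nlinarith))
    _ = Real.log x ^ (2 * J.card) := by rw [Finset.prod_const, ← pow_mul]

lemma pl_sub_pn_le {ι : Type} {x z : ℕ} (hL : 2 ≤ Real.log x) (hD : (DZ z)⁻¹ ≤ Real.log x)
    (J : Finset ι) (t : ι → ℕ) (n : ℕ) (h : ∀ i ∈ J, n + t i ≤ 2 * x) :
    |pl J t n - pn z J t n| ≤ Real.log x ^ (2 * J.card) := by
  have h1 := pl_le hL J t n h
  have h2 := pn_le hL hD J t n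
  have h3 := pl_nonneg J t n
  have h4 := pn_nonneg z J t n
  rw [abs_le]
  constructor <;> linarith

end Pool.Agent.HLU
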