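import Pool.Agent.Lib.HLT.FirstUniform
import Pool.Agent.Lib.HLU.Base

/-!
# The fixed shift `c`, sums over `n ≤ y`

PROOF SKETCH. `first_uniform m 2 B' F` with `H n = if n ≤ y then ff z (n + c) else 0`, `G i = nuz z`, `α = 0`
(copy from `key0` in `Lib/HLT/CorrMean.lean`). `∑_{n ≤ x} H n ex (n α) = ∑_{n ≤ y} ff z (n+c) ex (n α) =
ex (-(c α)) (esum (ff z) (y + c) α - esum (ff z) c α)` (private lemma `shift_esum` there, copy it), at most
`2 x / L^(B1+1) <= x / L^B1` by `SN A (B1+1) x`, `y + c <= 2 x`. So `B = B1 + 1` with `B1, b0` from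
`first_uniform`. Pointwise: `|ff z| <= L^2`, `|nuz z| <= L <= L^2` (`lp_le_sq`, `nuz_le`, `DZ_inv_le A`).
-/

set_option autoImplicit false

open Finset Filter

namespace Pool.Agent.HLU

open Pool.Agent.HLB Pool.Agent.HL Pool.Agent.HLT

private lemma shift_esum' (f : ℕ → ℝ) (x c : ℕ) (α : ℝ) :
    ∑ n ∈ Icc 1 x, (f (n + c) : ℂ) * ex (n * α) =
      ex (-(c * α)) * (esum f (x + c) α - esum f c α) := by
  have h1 : esum f (x + c) α - esum f c α = ∑ n ∈ Icc (1 + c) (x + c), (f n : ℂ) * ex (n * α) := by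
    unfold esum
    rw [sub_eq_iff_eq_add]
    have : Icc 1 (x + c) = Icc (1 + c) (x + c) ∪ Icc 1 c := by
      ext n
      simp only [mem_Icc, mem_union]
      omega
    rw [this, Finset.sum_union]
    rw [Finset.disjoint_left]
    intro n hn hn'
    simp only [mem_Icc] at hn hn'
    omega
  have h2 : ∑ n ∈ Icc (1 + c) (x + c), (f n : ℂ) * ex (n * α) =
      ∑ n ∈ Icc 1 x, (f (n + c) : ℂ) * ex ((n + c : ℕ) * α) := by
    have : Icc (1 + c) (x + c) = (Icc 1 x).map (addRightEmbedding c) := by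
      rw [Finset.map_add_right_Icc]
    rw [this, Finset.sum_map]
    rfl
  rw [h1, h2, Finset.mul_sum]
  refine Finset.sum_congr rfl fun n _ => ?_
  have : ex ((n + c : ℕ) * α) = ex (n * α) * ex (c * α) := by
    rw [← ex_add]
    congr 1
    push_cast
    ring
  rw [this]
  have h3 : ex (-(c * α)) * ex (c * α) = 1 := by
    rw [← ex_add]
    simp
  calc (f (n + c) : ℂ) * ex (n * α) = (f (n + c) : ℂ) * ex (n * α) * (ex (-(c * α)) * ex (c * α)) := by
        rw [h3, mul_one]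
    _ = _ := by ring

private lemma sum_cut {x y : ℕ} (hy : y ≤ x) (f : ℕ → ℂ) :
    ∑ n ∈ Icc 1 x, (if n ≤ y then f n else 0) = ∑ n ∈ Icc 1 y, f n := by
  rw [← Finset.sum_filter]
  refine Finset.sum_congr ?_ fun _ _ => rfl
  ext n
  simp only [mem_filter, mem_Icc]
  omega

theorem first_c (m B' : ℕ) (F : ℕ → ℕ) : ∃ b0 B : ℕ, ∀ A : ℕ, ∀ᶠ x : ℕ in atTop, SN A B x →
    ∀ T : Fin m → Finset ℕ, (∀ i, SpC F b0 x (T i)) → ∀ c : ℕ, c ≤ x → ∀ y : ℕ, y ≤ x →
    ∑ t ∈ Fintype.piFinset T,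
        (∑ n ∈ Icc 1 y, ff (zA A x) (n + c) * pn (zA A x) univ t n) ^ 2 ≤
      (∏ i, ((T i).card : ℝ)) * (x ^ 2 / Real.log x ^ B') := by
  obtain ⟨b1, B1, h1⟩ := first_uniform m 2 B' F
  refine ⟨b1, B1 + 1, ?_⟩
  intro A
  filter_upwards [h1, DZ_inv_le A, ev_log 2, eventually_ge_atTop 1] with x h1 h4 hL2 hx1 h3 T hT c hc y hy
  set L : ℝ := Real.log x with hL
  set z : ℕ := zA A x with hz
  have hx0 : (0:ℝ) < x := by exact_mod_cast hx1
  have hL0 : (0:ℝ) < L := by linarith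
  have hLL : L ≤ L ^ 2 := by nlinarith
  have hnu : ∀ n : ℕ, |nuz z n| ≤ L ^ 2 := by
    intro n
    rw [abs_of_nonneg (nuz_nonneg z n)]
    exact (nuz_le z n).trans (h4.trans hLL)
  have hff : ∀ n : ℕ, n ≤ 2 * x → |ff z n| ≤ L ^ 2 := by
    intro n hn
    unfold ff
    have e1 := lp_le_sq hL2 hn
    have e2 := hnu n
    rw [abs_of_nonneg (nuz_nonneg z n)] at e2
    have e3 := lp_nonneg n
    have e4 := nuz_nonneg z n
    rw [abs_le]
    constructor <;> linarith
  have hpow : 2 * ((x:ℝ) / L ^ (B1 + 1)) ≤ x / L ^ B1 := by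
    rw [← mul_div_assoc, div_le_div_iff₀ (by positivity) (by positivity), pow_succ]
    have e2 : 0 < L ^ B1 := by positivity
    calc 2 * (x:ℝ) * L ^ B1 = x * (L ^ B1 * 2) := by ring
      _ ≤ x * (L ^ B1 * L) := by gcongr
  have := h1 T hT (fun n => if n ≤ y then (ff z (n + c) : ℂ) else 0)
      (fun _ => nuz z) ?_ ?_ ?_ 0
  · refine le_trans (le_of_eq ?_) this
    refine Finset.sum_congr rfl fun t _ => ?_
    have e : ∑ n ∈ Icc 1 x, (if n ≤ y then ((ff z (n + c) : ℝ) : ℂ) else 0) * ex (n * 0) *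
          ∏ i, (nuz z (n + t i) : ℂ) =
        ((∑ n ∈ Icc 1 y, ff z (n + c) * pn z univ t n : ℝ) : ℂ) := by
      rw [show (∑ n ∈ Icc 1 x, (if n ≤ y then ((ff z (n + c) : ℝ) : ℂ) else 0) * ex (n * 0) *
          ∏ i, (nuz z (n + t i) : ℂ)) = ∑ n ∈ Icc 1 x, (if n ≤ y then
          ((ff z (n + c) : ℝ) : ℂ) * ex (n * 0) * ∏ i, (nuz z (n + t i) : ℂ) else 0) from
        Finset.sum_congr rfl fun n _ => by split_ifs <;> simp]
      rw [sum_cut hy]
      push_cast
      refine Finset.sum_congr rfl fun n _ => ?_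
      unfold pn
      simp
    rw [e, Complex.norm_real, Real.norm_eq_abs, sq_abs]
  · intro n hn
    rw [mem_Icc] at hn
    split_ifs with hny
    · rw [Complex.norm_real, Real.norm_eq_abs]
      exact hff _ (by omega)
    · rw [norm_zero]
      positivity
  · intro i n hn
    exact hnu n
  · intro α
    have e : ∑ n ∈ Icc 1 x, (if n ≤ y then ((ff z (n + c) : ℝ) : ℂ) else 0) * ex (n * α) =
        ∑ n ∈ Icc 1 y, ((ff z (n + c) : ℝ) : ℂ) * ex (n * α) := by
      rw [← sum_cut hy]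
      exact Finset.sum_congr rfl fun n _ => by split_ifs <;> simp
    rw [e, shift_esum', norm_mul, norm_ex, one_mul]
    refine (norm_sub_le _ _).trans ?_
    have e1 := h3 (y + c) (by omega) α
    have e2 := h3 c (by omega) α
    linarith

end Pool.Agent.HLU
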