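import Pool.Agent.Lib.HLT.Correl
import Pool.Agent.Lib.HLU.Base

/-!
# The sieve model: sums over `n ≤ y`

PROOF SKETCH. Copy `sieve_corr` in `Lib/HLT/Correl.lean`, using `brun_asym` (which allows `y ≤ 4 x`) with the
given `y` in place of `x`, for a general index type `ι` with `r` elements.
-/

set_option autoImplicit false

open Finset Filter

namespace Pool.Agent.HLU

open Pool.Agent.HLB Pool.Agent.HL Pool.Agent.HLT

namespace SieveYAux

variable {ι : Type} [Fintype ι]

/-- Excluded residues. -/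
def exr (t : ι → ℕ) (p : ℕ) : Finset ℕ := univ.image (fun i => negres p (t i))

lemma exr_subset (t : ι → ℕ) {p : ℕ} (hp : 0 < p) : exr t p ⊆ range p := by
  intro u hu
  obtain ⟨i, -, rfl⟩ := Finset.mem_image.mp hu
  exact Finset.mem_range.mpr (negres_lt hp _)

lemma card_exr (t : ι → ℕ) {p : ℕ} (hp : 0 < p) : (exr t p).card = nuI t p := by
  classical
  unfold exr nuI
  have hinj : Set.InjOn (fun u : ZMod p => negres p u.val)
      (univ.image (fun i => ((t i : ℕ) : ZMod p)) : Finset (ZMod p)) := by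
    have : NeZero p := ⟨hp.ne'⟩
    intro a _ b _ hab
    have h := (negres_eq_iff hp _ _).mp hab
    rwa [ZMod.natCast_zmod_val, ZMod.natCast_zmod_val] at h
  rw [← Finset.card_image_of_injOn hinj, Finset.image_image]
  congr 1
  refine Finset.image_congr fun i _ => ?_
  have : NeZero p := ⟨hp.ne'⟩
  simp only [Function.comp]
  rw [negres_eq_iff hp, ZMod.natCast_zmod_val]

lemma prod_nuz' (z : ℕ) (t : ι → ℕ) (n : ℕ) :
    pn z univ t n = (DZ z)⁻¹ ^ Fintype.card ι *
      (if ∀ p ∈ Nat.primesLE z, n % p ∉ exr t p then 1 else 0) := by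
  classical
  unfold pn nuz
  rw [Finset.prod_mul_distrib, Finset.prod_const, Finset.card_univ]
  congr 1
  split_ifs with h
  · refine Finset.prod_eq_one fun i _ => ?_
    unfold ic
    rw [if_pos]
    intro p hp hd
    have hp0 : 0 < p := (Nat.mem_primesLE.1 hp).2.pos
    refine h p hp ?_
    rw [(dvd_add_iff_negres hp0 n (t i)).mp hd]
    exact Finset.mem_image_of_mem _ (Finset.mem_univ i)
  · push Not at h
    obtain ⟨p, hp, hm⟩ := h
    obtain ⟨i, -, hi⟩ := Finset.mem_image.mp hm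
    have hp0 : 0 < p := (Nat.mem_primesLE.1 hp).2.pos
    refine Finset.prod_eq_zero (Finset.mem_univ i) ?_
    unfold ic
    rw [if_neg]
    intro h2
    exact h2 p hp ((dvd_add_iff_negres hp0 n (t i)).mpr hi.symm)

lemma SZ_eq' (z : ℕ) (t : ι → ℕ) :
    SZ z t = (DZ z)⁻¹ ^ Fintype.card ι *
      ∏ p ∈ Nat.primesLE z, (1 - ((exr t p).card : ℝ) / p) := by
  unfold SZ locI DZ
  rw [Finset.prod_mul_distrib, Finset.prod_pow, Finset.prod_inv_distrib, mul_comm]
  congr 1
  refine Finset.prod_congr rfl fun p hp => ?_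
  rw [card_exr t (Nat.mem_primesLE.1 hp).2.pos]

end SieveYAux

open SieveYAux in
theorem sieve_corr_y (r A B : ℕ) : ∀ᶠ x : ℕ in atTop, ∀ (ι : Type) [Fintype ι] (t : ι → ℕ),
    Fintype.card ι = r → ∀ y : ℕ, y ≤ 4 * x →
    |∑ n ∈ Icc 1 y, pn (zA A x) univ t n - y * SZ (zA A x) t| ≤ x / Real.log x ^ B := by
  classical
  filter_upwards [brun_asym r A (B + r), DZ_inv_le A, eventually_ge_atTop 3] with x hb hD hx
  intro ι _ t hr y hy
  have hlog : 0 < Real.log x := Real.log_pos (by exact_mod_cast (by omega : 1 < x))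
  have hD0 : 0 ≤ (DZ (zA A x))⁻¹ := inv_nonneg.mpr (DZ_pos _).le
  have h1 := hb y hy (exr t) (fun p hp => by
    have hp0 : 0 < p := (Nat.mem_primesLE.1 hp).2.pos
    refine ⟨exr_subset t hp0, ?_⟩
    rw [card_exr t hp0]
    have := nuI_le t p
    rwa [hr] at this)
  have h2 : ∑ n ∈ Icc 1 y, pn (zA A x) univ t n = (DZ (zA A x))⁻¹ ^ r *
      (((Icc 1 y).filter (fun n => ∀ p ∈ Nat.primesLE (zA A x), n % p ∉ exr t p)).card : ℝ) := by
    rw [Finset.card_filter]
    push_cast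
    rw [Finset.mul_sum]
    exact Finset.sum_congr rfl fun n _ => by rw [prod_nuz', hr]
  rw [h2, SZ_eq', hr]
  have h3 : (DZ (zA A x))⁻¹ ^ r *
      (((Icc 1 y).filter (fun n => ∀ p ∈ Nat.primesLE (zA A x), n % p ∉ exr t p)).card : ℝ) -
      y * ((DZ (zA A x))⁻¹ ^ r * ∏ p ∈ Nat.primesLE (zA A x), (1 - ((exr t p).card : ℝ) / p)) =
      (DZ (zA A x))⁻¹ ^ r *
      ((((Icc 1 y).filter (fun n => ∀ p ∈ Nat.primesLE (zA A x), n % p ∉ exr t p)).card : ℝ) -
        y * ∏ p ∈ Nat.primesLE (zA A x), (1 - ((exr t p).card : ℝ) / p)) := by ring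
  rw [h3, abs_mul, abs_of_nonneg (pow_nonneg hD0 r)]
  calc (DZ (zA A x))⁻¹ ^ r * _ ≤ Real.log x ^ r * (x / Real.log x ^ (B + r)) :=
        mul_le_mul (pow_le_pow_left₀ hD0 hD r) h1 (abs_nonneg _) (pow_nonneg hlog.le r)
    _ = x / Real.log x ^ B := by
        rw [pow_add]
        field_simp

end Pool.Agent.HLU
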