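import Pool.Agent.Lib.HLT.SingTwo
import Pool.Agent.Lib.HLU.Base

/-!
# The singular series and its partial product, with a power of log saving

`sing_strong`: the proof of `sing_two` in `Lib/HLT/SingTwo.lean` with `ε = 1 / L^B`,
`z = zA A x >= L^A - 1 >= L^(B+3) / 2`.
`sing_upper`: `SZ z t <= (DZ z)⁻¹ ^ r <= L^r` and `SI <= 2 SZ`.
-/

set_option autoImplicit false

open Finset Filter

namespace Pool.Agent.HLU

open Pool.Agent.HLB Pool.Agent.HL Pool.Agent.HLT

lemma locI_zero {ι : Type} [Fintype ι] (t : ι → ℕ) (h : Fintype.card ι = 0) (p : ℕ) :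
    locI t p = 1 := by
  have : IsEmpty ι := Fintype.card_eq_zero_iff.1 h
  unfold locI nuI
  simp

lemma SZ_zero {ι : Type} [Fintype ι] (t : ι → ℕ) (h : Fintype.card ι = 0) (z : ℕ) :
    SZ z t = 1 := by
  unfold SZ
  exact Finset.prod_eq_one fun p _ => locI_zero t h p

lemma SI_zero {ι : Type} [Fintype ι] (t : ι → ℕ) (h : Fintype.card ι = 0) :
    SI t = 1 := by
  unfold SI
  have : (fun p : Nat.Primes => locI t (p : ℕ)) = fun _ => 1 := by
    funext p
    exact locI_zero t h p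
  rw [this, tprod_one]

lemma exp_le_two {u : ℝ} (h0 : 0 ≤ u) (h1 : u ≤ 1) : Real.exp u ≤ 1 + 2 * u := by
  have h := Real.abs_exp_sub_one_sub_id_le (x := u) (by rw [abs_of_nonneg h0]; exact h1)
  have h2 := (abs_le.1 h).2
  nlinarith

theorem sing_strong (r A B : ℕ) (hA : B + 3 ≤ A) : ∀ᶠ x : ℕ in atTop,
    ∀ (ι : Type) [Fintype ι] (t : ι → ℕ), Fintype.card ι = r → Function.Injective t →
      (∀ i, t i ≤ 2 * x) → |SZ (zA A x) t - SI t| ≤ SI t / Real.log x ^ B := by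
  filter_upwards [ev_log (32 * (r:ℝ) ^ 3 + 4 * (r:ℝ) ^ 2 + 2 * r + 4), eventually_ge_atTop 3]
    with x hL hx3 ι _ t hcard ht htx
  set L := Real.log x with hLdef
  have hr0 : (0:ℝ) ≤ r := Nat.cast_nonneg r
  have hr2 : (0:ℝ) ≤ (r:ℝ) ^ 2 := by positivity
  have hr3 : (0:ℝ) ≤ (r:ℝ) ^ 3 := by positivity
  have hL4 : 4 ≤ L := by linarith
  have hL1 : 1 ≤ L := by linarith
  have hL0 : 0 < L := by linarith only [hL, hr2, hr3]
  have hLB : 0 < L ^ B := by positivity
  have hLB1 : 1 ≤ L ^ B := one_le_pow₀ hL1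
  have hSI := SI_nonneg t ht
  by_cases hr : 1 ≤ r
  swap
  · have hr' : r = 0 := by omega
    rw [SZ_zero t (by omega), SI_zero t (by omega)]
    simp only [sub_self, abs_zero]
    positivity
  have hx0 : (0:ℝ) < x := by
    have : 0 < x := by omega
    exact_mod_cast this
  have hzge : L ^ (B + 3) / 2 ≤ (zA A x : ℝ) := by
    have h2 : L ^ A - 1 < (zA A x : ℝ) := by
      unfold zA
      exact Nat.sub_one_lt_floor _
    have h3 : L ^ (B + 3) ≤ L ^ A := pow_le_pow_right₀ hL1 hA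
    have h4 : L ≤ L ^ (B + 3) := by
      calc L = L ^ 1 := (pow_one _).symm
        _ ≤ L ^ (B + 3) := pow_le_pow_right₀ hL1 (by omega)
    linarith only [hL, hr2, hr3, h2, h3, h4]
  have hzL : L ^ B * (L * L) ≤ (zA A x : ℝ) := by
    have h1 : L ^ (B + 3) / 2 = L ^ B * (L * L) * (L / 2) := by ring
    have h2 : L ^ B * (L * L) * 1 ≤ L ^ B * (L * L) * (L / 2) := by
      apply mul_le_mul_of_nonneg_left _ (by positivity)
      linarith only [hL, hr2, hr3]
    linarith only [hzge, h1, h2]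
  have hzL1 : L ≤ (zA A x : ℝ) := by
    have h1 : L * 1 ≤ L * L := mul_le_mul_of_nonneg_left hL1 hL0.le
    have h2 : 1 * (L * L) ≤ L ^ B * (L * L) := mul_le_mul_of_nonneg_right hLB1 (by positivity)
    linarith only [hzL, h1, h2]
  have hzr : r ≤ zA A x := by
    have : (r : ℝ) ≤ (zA A x : ℝ) := by linarith only [hL, hr2, hr3, hzL1]
    exact_mod_cast this
  have hz4 : (4:ℝ) ≤ (zA A x : ℝ) := by linarith only [hL, hr2, hr3, hzL1]
  have hz4n : 4 ≤ zA A x := by exact_mod_cast hz4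
  have hzpos : (0:ℝ) < zA A x := by linarith only [hL, hr2, hr3, hzL1]
  have hlogz : 1 ≤ Real.log (zA A x : ℝ) := by
    rw [Real.le_log_iff_exp_le hzpos]
    have := Real.exp_one_lt_d9
    linarith only [hL, hr2, hr3, hzL1, this]
  have hSZ := SZ_nonneg (zA A x) t
  have hlog1 : Real.log ((2 * x + 1 : ℕ) : ℝ) ≤ 2 * L := by
    have h2 : ((2 * x + 1 : ℕ) : ℝ) ≤ (x:ℝ) ^ 2 := by
      have h3 : 2 * x + 1 ≤ x ^ 2 := by nlinarith only [hx3]
      exact_mod_cast h3
    calc Real.log ((2 * x + 1 : ℕ) : ℝ) ≤ Real.log ((x:ℝ) ^ 2) :=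
          Real.log_le_log (by (clear * - hx3; positivity)) h2
      _ = 2 * L := by rw [Real.log_pow]; norm_num [hLdef]
  have hlog0 : 0 ≤ Real.log ((2 * x + 1 : ℕ) : ℝ) := Real.log_natCast_nonneg _
  set ε : ℝ := 1 / L ^ B with hε
  have hε0 : 0 < ε := by (clear * - hL4; positivity)
  have hε1 : ε ≤ 1 := by
    rw [hε, div_le_one hLB]
    exact hLB1
  have hεz : 1 / (zA A x : ℝ) ≤ ε * (1 / (L * L)) := by
    have h1 : ε * (1 / (L * L)) = 1 / (L ^ B * (L * L)) := by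
      rw [hε, one_div_mul_one_div]
    rw [h1]
    exact one_div_le_one_div_of_le (by (clear * - hL4; positivity)) hzL
  have hupper : SI t ≤ (1 + ε) * SZ (zA A x) t := by
    have h1 := SI_le_SZ t (by rw [hcard]; exact hr) ht (2 * x) (zA A x) (by omega) htx
    rw [hcard] at h1
    refine h1.trans ?_
    rw [mul_comm]
    apply mul_le_mul_of_nonneg_right _ hSZ
    have hE : 2 * (r:ℝ) ^ 3 * Real.log ((2 * x + 1 : ℕ) : ℝ) /
        ((zA A x : ℝ) * Real.log (zA A x : ℝ)) ≤ ε / 2 := by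
      calc 2 * (r:ℝ) ^ 3 * Real.log ((2 * x + 1 : ℕ) : ℝ) /
            ((zA A x : ℝ) * Real.log (zA A x : ℝ))
          ≤ 2 * (r:ℝ) ^ 3 * (2 * L) / ((zA A x : ℝ) * 1) := by
            gcongr
        _ = 4 * (r:ℝ) ^ 3 * L * (1 / (zA A x : ℝ)) := by
            rw [mul_one]
            ring
        _ ≤ 4 * (r:ℝ) ^ 3 * L * (ε * (1 / (L * L))) := by
            apply mul_le_mul_of_nonneg_left hεz
            (clear * - hL4 hr; positivity)
        _ = ε * (4 * (r:ℝ) ^ 3 / L) := by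
            field_simp
        _ ≤ ε * (1 / 2) := by
            apply mul_le_mul_of_nonneg_left _ hε0.le
            rw [div_le_iff₀ hL0]
            linarith only [hL, hr2, hr3]
        _ = ε / 2 := by ring
    have hE0 : 0 ≤ 2 * (r:ℝ) ^ 3 * Real.log ((2 * x + 1 : ℕ) : ℝ) /
        ((zA A x : ℝ) * Real.log (zA A x : ℝ)) := by
      have : 0 < Real.log (zA A x : ℝ) := by linarith only [hlogz]
      (clear * - hr hz4n hlogz; positivity)
    have h2 := exp_le_two hE0 (by linarith only [hε1, hE])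
    linarith only [hE, h2]
  have hlower : SZ (zA A x) t ≤ (1 + ε) * SI t := by
    have h1 := SZ_le_SI t ht (zA A x) (by omega) (by rw [hcard]; exact hzr)
    rw [hcard] at h1
    have h2 : (r:ℝ) ^ 2 / (zA A x : ℝ) ≤ ε / 2 := by
      calc (r:ℝ) ^ 2 / (zA A x : ℝ) = (r:ℝ) ^ 2 * (1 / (zA A x : ℝ)) := by ring
        _ ≤ (r:ℝ) ^ 2 * (ε * (1 / (L * L))) := by gcongr
        _ = ε * ((r:ℝ) ^ 2 / (L * L)) := by ring
        _ ≤ ε * (1 / 2) := by
            apply mul_le_mul_of_nonneg_left _ hε0.le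
            rw [div_le_iff₀ (by (clear * - hL4; positivity))]
            have h5 : L * 1 ≤ L * L := mul_le_mul_of_nonneg_left hL1 hL0.le
            linarith only [hL, hr2, hr3, h5]
        _ = ε / 2 := by ring
    have h3 : 1 ≤ (1 + ε) * (1 - (r:ℝ) ^ 2 / (zA A x : ℝ)) := by
      have h4 : (1 + ε) * (1 - ε / 2) ≤ (1 + ε) * (1 - (r:ℝ) ^ 2 / (zA A x : ℝ)) := by
        apply mul_le_mul_of_nonneg_left _ (by linarith only [hε0])
        linarith only [h2]
      have h5 : 1 ≤ (1 + ε) * (1 - ε / 2) := by nlinarith only [hε0, hε1]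
      linarith only [h4, h5]
    calc SZ (zA A x) t = SZ (zA A x) t * 1 := (mul_one _).symm
      _ ≤ SZ (zA A x) t * ((1 + ε) * (1 - (r:ℝ) ^ 2 / (zA A x : ℝ))) := by gcongr
      _ = (1 + ε) * (SZ (zA A x) t * (1 - (r:ℝ) ^ 2 / (zA A x : ℝ))) := by ring
      _ ≤ (1 + ε) * SI t := by gcongr
  have hfin : |SZ (zA A x) t - SI t| ≤ ε * SI t := by
    rw [abs_le]
    constructor
    · have h2 : (1 - ε) * SI t ≤ SZ (zA A x) t := by
        calc (1 - ε) * SI t ≤ (1 - ε) * ((1 + ε) * SZ (zA A x) t) := by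
                apply mul_le_mul_of_nonneg_left hupper (by linarith only [hε1])
            _ = (1 - ε ^ 2) * SZ (zA A x) t := by ring
            _ ≤ 1 * SZ (zA A x) t := by
                apply mul_le_mul_of_nonneg_right _ hSZ
                nlinarith
            _ = SZ (zA A x) t := one_mul _
      linarith only [h2]
    · linarith only [hlower]
  calc |SZ (zA A x) t - SI t| ≤ ε * SI t := hfin
    _ = SI t / L ^ B := by rw [hε]; ring

lemma SZ_le_DZ {ι : Type} [Fintype ι] (z : ℕ) (t : ι → ℕ) :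
    SZ z t ≤ ((DZ z)⁻¹) ^ (Fintype.card ι) := by
  unfold SZ DZ
  rw [← Finset.prod_inv_distrib, ← Finset.prod_pow]
  apply Finset.prod_le_prod
  · intro p hp
    exact locI_nonneg t (Nat.mem_primesLE.1 hp).2
  · intro p hp
    have hpp := (Nat.mem_primesLE.1 hp).2
    have hp0 : (0:ℝ) < p := by exact_mod_cast hpp.pos
    have hp1 : (1:ℝ) < p := by exact_mod_cast hpp.one_lt
    have h5 : 0 < 1 - 1 / (p:ℝ) := by
      rw [sub_pos, div_lt_one hp0]
      exact hp1
    unfold locI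
    have h6 : 1 - (nuI t p : ℝ) / (p:ℝ) ≤ 1 := by
      have : 0 ≤ (nuI t p : ℝ) / (p:ℝ) := by positivity
      linarith
    have h7 : 0 ≤ ((1 - 1 / (p:ℝ))⁻¹) ^ (Fintype.card ι) := by positivity
    calc (1 - (nuI t p : ℝ) / (p:ℝ)) * ((1 - 1 / (p:ℝ))⁻¹) ^ (Fintype.card ι)
        ≤ 1 * ((1 - 1 / (p:ℝ))⁻¹) ^ (Fintype.card ι) := mul_le_mul_of_nonneg_right h6 h7
      _ = _ := one_mul _

theorem sing_upper (r : ℕ) : ∀ᶠ x : ℕ in atTop,
    ∀ (ι : Type) [Fintype ι] (t : ι → ℕ), Fintype.card ι = r → Function.Injective t →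
      (∀ i, t i ≤ 2 * x) → SI t ≤ Real.log x ^ (r + 1) := by
  filter_upwards [sing_strong r 4 1 (by omega), DZ_inv_le 4, ev_log 2] with x h1 h2 h3 ι _ t hcard ht htx
  have h4 := h1 ι t hcard ht htx
  set L := Real.log x with hL
  have hSI := SI_nonneg t ht
  have h5 : SI t / L ^ 1 ≤ SI t / 2 := by
    rw [pow_one]
    gcongr
  have h6 := (abs_le.1 h4).1
  have h7 : SI t ≤ 2 * SZ (zA 4 x) t := by linarith
  have h8 := SZ_le_DZ (zA 4 x) t
  rw [hcard] at h8
  have h9 : ((DZ (zA 4 x))⁻¹) ^ r ≤ L ^ r :=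
    pow_le_pow_left₀ (inv_nonneg.2 (DZ_pos _).le) h2 r
  calc SI t ≤ 2 * SZ (zA 4 x) t := h7
    _ ≤ 2 * L ^ r := by linarith only [h8, h9]
    _ ≤ L * L ^ r := by gcongr
    _ = L ^ (r + 1) := by ring

end Pool.Agent.HLU
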