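import Pool.Agent.Lib.HLU.GenW
import Pool.Agent.Lib.HLU.FirstC
import Pool.Agent.Lib.HLU.NetY
import Pool.Agent.Lib.HLU.SieveY
import Pool.Agent.Lib.HLU.SingS
import Pool.Agent.Lib.HLU.Abel

/-!
# Almost all tuples of shifts: arbitrary weights, and the Hardy-Littlewood formula with a power of
log saving for all `y ≤ x`
-/

set_option autoImplicit false

open Finset Filter

namespace Pool.Agent.HLU

open Pool.Agent.HLB Pool.Agent.HL Pool.Agent.HLT

/-- Arbitrary weights. -/
theorem weights_all (m K A : ℕ) (F : ℕ → ℕ) : ∃ b0 B : ℕ, ∀ A' : ℕ, ∀ᶠ x : ℕ in atTop,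
    SN A' B x → ∀ T : Fin m → Finset ℕ, (∀ i, SpC F b0 x (T i)) → ∀ w : ℕ → ℂ,
    (∀ n ∈ Icc 1 x, ‖w n‖ ≤ Real.log x ^ K) →
    ∃ E ⊆ Fintype.piFinset T, (E.card : ℝ) ≤ (∏ i, ((T i).card : ℝ)) / Real.log x ^ A ∧
      ∀ t ∈ Fintype.piFinset T, t ∉ E → ∀ y : ℕ, y ≤ x →
        ‖∑ n ∈ Icc 1 y, w n * ((pl univ t n - pn (zA A' x) univ t n : ℝ) : ℂ)‖ ≤
          x / Real.log x ^ A := by
  obtain ⟨b0, B, hg⟩ := gen_w m K (4 * A + (K + 2 * m) + 6) F
  refine ⟨b0, B, fun A' => ?_⟩
  filter_upwards [hg A', net_y (τ := Fin m → ℕ) A (K + 2 * m), DZ_inv_le A', ev_log 2]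
    with x h1 h2 hD hL hSN T hT w hw
  have hL0 : 0 < Real.log x := by linarith
  have hT' : ∀ t ∈ Fintype.piFinset T, ∀ i, t i ≤ x := by
    intro t ht i
    have h7 := Fintype.mem_piFinset.mp ht i
    have h8 := Finset.mem_range.mp ((hT i).1 h7)
    omega
  refine h2 (Fintype.piFinset T)
    (fun t n => w n * ((pl univ t n - pn (zA A' x) univ t n : ℝ) : ℂ)) (∏ i, ((T i).card : ℝ))
    (Finset.prod_nonneg fun _ _ => Nat.cast_nonneg _) ?_ ?_
  · intro t ht n hn
    rw [norm_mul, pow_add]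
    refine mul_le_mul (hw n hn) ?_ (norm_nonneg _) (by positivity)
    rw [Complex.norm_real, Real.norm_eq_abs]
    have h3 := pl_sub_pn_le hL hD univ t n (fun i _ => by
      have := hT' t ht i
      rw [mem_Icc] at hn
      omega)
    rwa [Finset.card_univ, Fintype.card_fin] at h3
  · intro y hy
    have h3 := h1 hSN T hT univ (fun n => if n ≤ y then w n else 0) (fun n hn => by
      split_ifs
      · exact hw n hn
      · rw [norm_zero]
        positivity)
    refine le_trans (le_of_eq ?_) h3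
    refine Finset.sum_congr rfl fun t _ => ?_
    congr 2
    simp only [ite_mul, zero_mul]
    rw [← Finset.sum_filter]
    refine Finset.sum_congr ?_ fun _ _ => rfl
    ext n
    simp only [mem_Icc, mem_filter]
    omega

lemma pl_cons {m : ℕ} (c : ℕ) (t : Fin m → ℕ) (n : ℕ) :
    pl univ (Fin.cons c t : Fin (m + 1) → ℕ) n = lp (n + c) * pl univ t n := by
  unfold pl
  rw [Fin.prod_univ_succ, Fin.cons_zero]
  simp only [Fin.cons_succ]

lemma pn_cons {m : ℕ} (z c : ℕ) (t : Fin m → ℕ) (n : ℕ) :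
    pn z univ (Fin.cons c t : Fin (m + 1) → ℕ) n = nuz z (n + c) * pn z univ t n := by
  unfold pn
  rw [Fin.prod_univ_succ, Fin.cons_zero]
  simp only [Fin.cons_succ]

/-- One fixed shift `c`. -/
theorem fixed_c (m A : ℕ) (F : ℕ → ℕ) : ∃ b0 B : ℕ, ∀ A' : ℕ, ∀ᶠ x : ℕ in atTop,
    SN A' B x → ∀ T : Fin m → Finset ℕ, (∀ i, SpC F b0 x (T i)) → ∀ c : ℕ, c ≤ x →
    ∃ E ⊆ Fintype.piFinset T, (E.card : ℝ) ≤ (∏ i, ((T i).card : ℝ)) / Real.log x ^ A ∧
      ∀ t ∈ Fintype.piFinset T, t ∉ E → ∀ y : ℕ, y ≤ x →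
        |∑ n ∈ Icc 1 y, (pl univ (Fin.cons c t : Fin (m + 1) → ℕ) n -
          pn (zA A' x) univ (Fin.cons c t : Fin (m + 1) → ℕ) n)| ≤ x / Real.log x ^ A := by
  classical
  obtain ⟨b1, B1, h1⟩ := weights_all m 2 (A + 1) F
  obtain ⟨b2, B2, h2⟩ := first_c m (4 * (A + 1) + (2 + 2 * m) + 6) F
  refine ⟨max b1 b2, max B1 B2, fun A' => ?_⟩
  filter_upwards [h1 A', h2 A', net_y (τ := Fin m → ℕ) (A + 1) (2 + 2 * m), DZ_inv_le A', ev_log 2]
    with x h1 h2 h3 hD hL hSN T hT c hc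
  have hL0 : 0 < Real.log x := by linarith
  have hL1 : 1 ≤ Real.log x := by linarith
  have hT' : ∀ t ∈ Fintype.piFinset T, ∀ i, t i ≤ x := by
    intro t ht i
    have h7 := Fintype.mem_piFinset.mp ht i
    have h8 := Finset.mem_range.mp ((hT i).1 h7)
    omega
  obtain ⟨E1, hE1, hE1c, hE1'⟩ := h1 (hSN.mono (le_max_left _ _) hL1) T
    (fun i => (hT i).mono (le_max_left _ _)) (fun n => (lp (n + c) : ℂ)) (fun n hn => by
      rw [Complex.norm_real, Real.norm_eq_abs, abs_of_nonneg (lp_nonneg _)]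
      rw [mem_Icc] at hn
      exact lp_le_sq hL (by omega))
  obtain ⟨E2, hE2, hE2c, hE2'⟩ := h3 (Fintype.piFinset T)
    (fun t n => ((ff (zA A' x) (n + c) * pn (zA A' x) univ t n : ℝ) : ℂ))
    (∏ i, ((T i).card : ℝ)) (Finset.prod_nonneg fun _ _ => Nat.cast_nonneg _) (by
      intro t ht n hn
      rw [mem_Icc] at hn
      rw [Complex.norm_real, Real.norm_eq_abs, abs_mul, pow_add]
      have e1 := lp_le_sq hL (show n + c ≤ 2 * x by omega)
      have e2 : nuz (zA A' x) (n + c) ≤ Real.log x ^ 2 :=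
        (nuz_le _ _).trans (hD.trans (by nlinarith))
      have e3 := lp_nonneg (n + c)
      have e4 := nuz_nonneg (zA A' x) (n + c)
      refine mul_le_mul ?_ ?_ (abs_nonneg _) (by positivity)
      · unfold ff
        rw [abs_le]
        constructor <;> linarith
      · rw [abs_of_nonneg (pn_nonneg _ _ _ _)]
        have := pn_le hL hD (univ : Finset (Fin m)) t n
        rwa [Finset.card_univ, Fintype.card_fin] at this) (by
      intro y hy
      refine le_trans (le_of_eq ?_) (h2 (hSN.mono (le_max_right _ _) hL1) T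
        (fun i => (hT i).mono (le_max_right _ _)) c hc y hy)
      refine Finset.sum_congr rfl fun t _ => ?_
      rw [← Complex.ofReal_sum, Complex.norm_real, Real.norm_eq_abs, sq_abs])
  refine ⟨E1 ∪ E2, Finset.union_subset hE1 hE2, ?_, ?_⟩
  · have h5 : ((E1 ∪ E2).card : ℝ) ≤ E1.card + E2.card := by
      exact_mod_cast Finset.card_union_le E1 E2
    have h6 : 0 ≤ ∏ i, ((T i).card : ℝ) := Finset.prod_nonneg fun _ _ => Nat.cast_nonneg _
    refine h5.trans ((add_le_add hE1c hE2c).trans ?_)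
    rw [← two_mul, pow_succ, ← mul_div_assoc, div_le_div_iff₀ (by positivity) (by positivity)]
    have h7 : 0 ≤ (∏ i, ((T i).card : ℝ)) * Real.log x ^ A := by positivity
    nlinarith
  · intro t ht htE y hy
    rw [Finset.mem_union, not_or] at htE
    have a1 := hE1' t ht htE.1 y hy
    have a2 := hE2' t ht htE.2 y hy
    have e : ∑ n ∈ Icc 1 y, (pl univ (Fin.cons c t : Fin (m + 1) → ℕ) n -
          pn (zA A' x) univ (Fin.cons c t : Fin (m + 1) → ℕ) n) =
        ∑ n ∈ Icc 1 y, lp (n + c) * (pl univ t n - pn (zA A' x) univ t n) +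
          ∑ n ∈ Icc 1 y, ff (zA A' x) (n + c) * pn (zA A' x) univ t n := by
      rw [← Finset.sum_add_distrib]
      refine Finset.sum_congr rfl fun n _ => ?_
      rw [pl_cons, pn_cons]
      unfold ff
      ring
    rw [e]
    have a1' : |∑ n ∈ Icc 1 y, lp (n + c) * (pl univ t n - pn (zA A' x) univ t n)| ≤
        x / Real.log x ^ (A + 1) := by
      refine le_trans (le_of_eq ?_) a1
      rw [← Real.norm_eq_abs, ← Complex.norm_real]
      congr 1
      push_cast
      rfl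
    have a2' : |∑ n ∈ Icc 1 y, ff (zA A' x) (n + c) * pn (zA A' x) univ t n| ≤
        x / Real.log x ^ (A + 1) := by
      refine le_trans (le_of_eq ?_) a2
      rw [← Real.norm_eq_abs, ← Complex.norm_real]
      congr 1
      push_cast
      rfl
    refine (abs_add_le _ _).trans ((add_le_add a1' a2').trans ?_)
    have hx0 : (0 : ℝ) ≤ x := Nat.cast_nonneg x
    rw [← two_mul, pow_succ, ← mul_div_assoc, div_le_div_iff₀ (by positivity) (by positivity)]
    have h7 : 0 ≤ (x : ℝ) * Real.log x ^ A := by positivity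
    nlinarith

/-- The sum over `n ≤ y` of the model for distinct shifts. -/
theorem model_y (r A B : ℕ) (hA : B + r + 6 ≤ A) : ∀ᶠ x : ℕ in atTop,
    ∀ (ι : Type) [Fintype ι] (t : ι → ℕ), Fintype.card ι = r → Function.Injective t →
      (∀ i, t i ≤ 2 * x) → ∀ y : ℕ, y ≤ x →
      |∑ n ∈ Icc 1 y, pn (zA A x) univ t n - y * SI t| ≤ x / Real.log x ^ B := by
  filter_upwards [sieve_corr_y r A (B + 1), sing_strong r A (B + r + 2) (by omega), sing_upper r,
    ev_log 2] with x h1 h2 h3 hL ι _ t hr ht htx y hy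
  have hL0 : 0 < Real.log x := by linarith
  have hx0 : (0 : ℝ) ≤ x := Nat.cast_nonneg x
  have hyx : (y : ℝ) ≤ x := by exact_mod_cast hy
  have a1 := h1 ι t hr y (by omega)
  have a2 := h2 ι t hr ht htx
  have a3 := h3 ι t hr ht htx
  have a4 : |(y : ℝ) * SZ (zA A x) t - y * SI t| ≤ x / Real.log x ^ (B + 1) := by
    rw [← mul_sub, abs_mul, abs_of_nonneg (Nat.cast_nonneg y)]
    calc (y : ℝ) * |SZ (zA A x) t - SI t| ≤ x * (SI t / Real.log x ^ (B + r + 2)) := by gcongr
      _ ≤ x * (Real.log x ^ (r + 1) / Real.log x ^ (B + r + 2)) := by gcongr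
      _ = x / Real.log x ^ (B + 1) := by
          rw [show B + r + 2 = (B + 1) + (r + 1) by ring, pow_add _ (B + 1) (r + 1)]
          field_simp
  calc |∑ n ∈ Icc 1 y, pn (zA A x) univ t n - y * SI t|
      = |(∑ n ∈ Icc 1 y, pn (zA A x) univ t n - y * SZ (zA A x) t) +
          (y * SZ (zA A x) t - y * SI t)| := by ring_nf
    _ ≤ _ := abs_add_le _ _
    _ ≤ x / Real.log x ^ (B + 1) + x / Real.log x ^ (B + 1) := add_le_add a1 a4
    _ ≤ x / Real.log x ^ B := by
        rw [← two_mul, pow_succ, ← mul_div_assoc, div_le_div_iff₀ (by positivity) (by positivity)]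
        have h7 : 0 ≤ (x : ℝ) * Real.log x ^ B := by positivity
        nlinarith

/-- The strong form of Hardy-Littlewood for almost all tuples. -/
theorem hl_strong (m A : ℕ) (F : ℕ → ℕ) : ∃ b0 : ℕ, ∀ᶠ x : ℕ in atTop,
    ∀ T : Fin m → Finset ℕ, (∀ i, SpC F b0 x (T i)) → ∀ c : ℕ, c ≤ x →
    ∃ E ⊆ Fintype.piFinset T, (E.card : ℝ) ≤ (∏ i, ((T i).card : ℝ)) / Real.log x ^ A ∧
      ∀ t ∈ Fintype.piFinset T, t ∉ E → Function.Injective (Fin.cons c t : Fin (m + 1) → ℕ) →
        ∀ y : ℕ, y ≤ x →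
        |(((Icc 1 y).filter
            (fun n : ℕ => ∀ i, (n + (Fin.cons c t : Fin (m + 1) → ℕ) i).Prime)).card : ℝ) -
          SI (Fin.cons c t : Fin (m + 1) → ℕ) *
            ∑ n ∈ Icc 2 y, hl univ (Fin.cons c t : Fin (m + 1) → ℕ) n| ≤ x / Real.log x ^ A := by
  classical
  obtain ⟨b0, B, hf⟩ := fixed_c m (A + 2) F
  obtain ⟨A', hA', hSN⟩ := sn_exists ((A + 2) + (m + 1) + 6) B
  refine ⟨b0, ?_⟩
  filter_upwards [hf A', hSN, model_y (m + 1) A' (A + 2) hA', sing_upper (m + 1),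
    ev_pow (m + 2) (A + 2), ev_log (2 ^ (m + 5))] with x h1 hSN h2 h3 h4 hL
  intro T hT c hc
  have hL2 : 2 ≤ Real.log x := by
    refine le_trans ?_ hL
    calc (2 : ℝ) = 2 ^ 1 := by norm_num
      _ ≤ 2 ^ (m + 5) := pow_le_pow_right₀ (by norm_num) (by omega)
  have hL0 : 0 < Real.log x := by linarith
  have hx0 : (0 : ℝ) ≤ x := Nat.cast_nonneg x
  obtain ⟨E, hE, hEc, hE'⟩ := h1 hSN T hT c hc
  refine ⟨E, hE, hEc.trans ?_, ?_⟩
  · refine div_le_div_of_nonneg_left (Finset.prod_nonneg fun _ _ => Nat.cast_nonneg _)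
      (by positivity) (pow_le_pow_right₀ (by linarith) (by omega))
  · intro t ht htE hinj y hy
    set a : Fin (m + 1) → ℕ := Fin.cons c t with ha
    have hax : ∀ i, a i ≤ 2 * x := by
      intro i
      refine Fin.cases ?_ ?_ i
      · rw [ha, Fin.cons_zero]
        omega
      · intro j
        have h7 := Fintype.mem_piFinset.mp ht j
        have h8 := Finset.mem_range.mp ((hT j).1 h7)
        rw [ha, Fin.cons_succ]
        omega
    have b1 := h3 (Fin (m + 1)) a (Fintype.card_fin _) hinj hax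
    have b2 : ∀ y : ℕ, y ≤ x → |∑ n ∈ Icc 1 y, pl univ a n - y * SI a| ≤
        2 * (x / Real.log x ^ (A + 2)) := by
      intro y hy
      have c1 := hE' t ht htE y hy
      have c2 := h2 (Fin (m + 1)) a (Fintype.card_fin _) hinj hax y hy
      rw [Finset.sum_sub_distrib] at c1
      calc |∑ n ∈ Icc 1 y, pl univ a n - y * SI a|
          = |(∑ n ∈ Icc 1 y, pl univ a n - ∑ n ∈ Icc 1 y, pn (zA A' x) univ a n) +
              (∑ n ∈ Icc 1 y, pn (zA A' x) univ a n - y * SI a)| := by ring_nf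
        _ ≤ _ := abs_add_le _ _
        _ ≤ _ := by linarith
    have b3 := abel_log_real univ a (pl univ a) (SI a) (2 * (x / Real.log x ^ (A + 2))) x b2 y hy
    rw [count_eq, Finset.card_univ, Fintype.card_fin, abs_of_nonneg (SI_nonneg a hinj)] at b3
    have b4 : 2 * (x / Real.log x ^ (A + 2)) + SI a ≤ 4 * (x / Real.log x ^ (A + 2)) := by
      have : SI a ≤ x / Real.log x ^ (A + 2) := b1.trans h4
      have h0 : 0 ≤ x / Real.log x ^ (A + 2) := by positivity
      linarith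
    have key : 2 ^ (m + 1 + 2) * (2 * (x / Real.log x ^ (A + 2)) + SI a) ≤ x / Real.log x ^ A := by
     calc 2 ^ (m + 1 + 2) * (2 * (x / Real.log x ^ (A + 2)) + SI a)
        ≤ 2 ^ (m + 1 + 2) * (4 * (x / Real.log x ^ (A + 2))) := by gcongr
      _ = 2 ^ (m + 5) * (x / Real.log x ^ (A + 2)) := by
          rw [show m + 5 = (m + 1 + 2) + 2 by ring, pow_add _ (m + 1 + 2) 2]
          ring
      _ ≤ Real.log x * (x / Real.log x ^ (A + 2)) := by gcongr
      _ = x / Real.log x ^ (A + 1) := by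
          rw [show A + 2 = (A + 1) + 1 by ring, pow_succ _ (A + 1)]
          field_simp
      _ ≤ x / Real.log x ^ A := by
          refine div_le_div_of_nonneg_left hx0 (by positivity)
            (pow_le_pow_right₀ (by linarith) (by omega))
    refine le_trans (le_of_eq ?_) (b3.trans key)
    congr!

end Pool.Agent.HLU
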