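import Pool.Agent.Lib.HLT.FirstUniform
import Pool.Agent.Lib.HLT.LastUniform
import Pool.Agent.Lib.HLU.Tel

/-!
# Coincidences and expansion of products with the fixed row `a 0 = 0`
-/

set_option autoImplicit false

open Finset Filter

namespace Pool.Agent.HLU

open Pool.Agent.HLB Pool.Agent.HL Pool.Agent.HLT

private lemma cons_update_self {k : ℕ} (a : Fin k → ℕ) (i : Fin k) (u : ℕ) :
    (Fin.cons 0 (Function.update a i u) : Fin (k + 1) → ℕ) i.succ = u := by
  rw [Fin.cons_succ, Function.update_self]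

private lemma cons_update_ne {k : ℕ} (a : Fin k → ℕ) (i : Fin k) (u : ℕ) (l : Fin (k + 1))
    (h : l ≠ i.succ) : (Fin.cons 0 (Function.update a i u) : Fin (k + 1) → ℕ) l =
      (Fin.cons 0 a : Fin (k + 1) → ℕ) l := by
  refine Fin.cases ?_ ?_ l (motive := fun l => l ≠ i.succ →
    (Fin.cons 0 (Function.update a i u) : Fin (k + 1) → ℕ) l =
      (Fin.cons 0 a : Fin (k + 1) → ℕ) l) h
  · intro _
    rw [Fin.cons_zero, Fin.cons_zero]
  · intro l hl
    have : l ≠ i := fun h => hl (congrArg Fin.succ h)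
    rw [Fin.cons_succ, Fin.cons_succ, Function.update_of_ne this]

private lemma one_pair {k : ℕ} (T : Fin k → Finset ℕ) (M : ℝ) (hM : 0 < M)
    (hT : ∀ i, M ≤ (T i).card) (i : Fin k) (l : Fin (k + 1)) (hl : l ≠ i.succ) (u v : ℕ) :
    (((Fintype.piFinset T).filter (fun a => (Fin.cons 0 a : Fin (k + 1) → ℕ) l + u =
      (Fin.cons 0 a : Fin (k + 1) → ℕ) i.succ + v)).card : ℝ) ≤ (∏ i, ((T i).card : ℝ)) / M := by
  classical
  rw [le_div_iff₀ hM]
  have h1 := card_mul_sum_update i T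
      (fun a => if (Fin.cons 0 a : Fin (k + 1) → ℕ) l + u =
        (Fin.cons 0 a : Fin (k + 1) → ℕ) i.succ + v then (1 : ℝ) else 0)
  have h2 : ∑ a ∈ Fintype.piFinset T, (if (Fin.cons 0 a : Fin (k + 1) → ℕ) l + u =
        (Fin.cons 0 a : Fin (k + 1) → ℕ) i.succ + v then (1 : ℝ) else 0) =
        (((Fintype.piFinset T).filter (fun a => (Fin.cons 0 a : Fin (k + 1) → ℕ) l + u =
      (Fin.cons 0 a : Fin (k + 1) → ℕ) i.succ + v)).card : ℝ) := by
    rw [Finset.sum_boole]
  rw [h2] at h1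
  have h3 : ∑ a ∈ Fintype.piFinset T, ∑ w ∈ T i,
      (if (Fin.cons 0 (Function.update a i w) : Fin (k + 1) → ℕ) l + u =
        (Fin.cons 0 (Function.update a i w) : Fin (k + 1) → ℕ) i.succ + v then (1 : ℝ) else 0) ≤
      ∑ _a ∈ Fintype.piFinset T, (1 : ℝ) := by
    refine Finset.sum_le_sum fun a _ => ?_
    rw [Finset.sum_boole]
    have h4 : ((T i).filter (fun w => (Fin.cons 0 (Function.update a i w) : Fin (k + 1) → ℕ) l + u =
        (Fin.cons 0 (Function.update a i w) : Fin (k + 1) → ℕ) i.succ + v)).card ≤ 1 := by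
      rw [Finset.card_le_one]
      intro w hw w' hw'
      rw [Finset.mem_filter] at hw hw'
      have h5 := hw.2
      have h6 := hw'.2
      rw [cons_update_self, cons_update_ne a i _ l hl] at h5 h6
      omega
    exact_mod_cast h4
  rw [Finset.sum_const, nsmul_eq_mul, mul_one, Fintype.card_piFinset] at h3
  have h5 : ((T i).card : ℝ) * (((Fintype.piFinset T).filter (fun a =>
      (Fin.cons 0 a : Fin (k + 1) → ℕ) l + u =
      (Fin.cons 0 a : Fin (k + 1) → ℕ) i.succ + v)).card : ℝ) ≤ ∏ i, ((T i).card : ℝ) := by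
    rw [← h1]
    refine h3.trans (le_of_eq ?_)
    push_cast
    rfl
  rw [mul_comm]
  exact (mul_le_mul_of_nonneg_right (hT i) (Nat.cast_nonneg _)).trans h5

/-- Coincidences, with a fixed row. -/
theorem coinc0 {k m : ℕ} (P : Finset (Fin (k + 1) × Fin m)) (T : Fin k → Finset ℕ)
    (b : Fin m → ℕ) (M : ℝ) (hM : 0 < M) (hT : ∀ i, M ≤ (T i).card)
    (hb : ∀ i j j', (i, j) ∈ P → (i, j') ∈ P → b j = b j' → j = j') :
    (((Fintype.piFinset T).filter (fun a => ¬ Set.InjOn
      (fun p : Fin (k + 1) × Fin m => (Fin.cons 0 a : Fin (k + 1) → ℕ) p.1 + b p.2)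
      (P : Set (Fin (k + 1) × Fin m)))).card : ℝ) ≤
        (P.card : ℝ) ^ 2 * (∏ i, ((T i).card : ℝ)) / M := by
  classical
  set bad : (Fin (k + 1) × Fin m) × (Fin (k + 1) × Fin m) → Finset (Fin k → ℕ) := fun q =>
    (Fintype.piFinset T).filter (fun a => q.1.1 ≠ q.2.1 ∧
      (Fin.cons 0 a : Fin (k + 1) → ℕ) q.1.1 + b q.1.2 =
        (Fin.cons 0 a : Fin (k + 1) → ℕ) q.2.1 + b q.2.2) with hbad
  have hsub : (Fintype.piFinset T).filter (fun a => ¬ Set.InjOn
      (fun p : Fin (k + 1) × Fin m => (Fin.cons 0 a : Fin (k + 1) → ℕ) p.1 + b p.2)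
      (P : Set (Fin (k + 1) × Fin m))) ⊆
      (P ×ˢ P).biUnion bad := by
    intro a ha
    rw [Finset.mem_filter] at ha
    obtain ⟨ha1, ha2⟩ := ha
    unfold Set.InjOn at ha2
    push Not at ha2
    obtain ⟨p, hp, p', hp', hpp, hne⟩ := ha2
    rw [Finset.mem_biUnion]
    refine ⟨(p, p'), Finset.mem_product.2 ⟨hp, hp'⟩, ?_⟩
    rw [hbad, Finset.mem_filter]
    refine ⟨ha1, ?_, hpp⟩
    intro h1
    have h1' : p.1 = p'.1 := h1
    have hpp' : (Fin.cons 0 a : Fin (k + 1) → ℕ) p.1 + b p.2 =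
      (Fin.cons 0 a : Fin (k + 1) → ℕ) p'.1 + b p'.2 := hpp
    rw [h1'] at hpp'
    have h2 : b p.2 = b p'.2 := by omega
    have h3 : p.2 = p'.2 := by
      refine hb p'.1 _ _ ?_ ?_ h2
      · rw [← h1']
        exact hp
      · exact hp'
    exact hne (Prod.ext h1' h3)
  have hQ0 : 0 ≤ (∏ i, ((T i).card : ℝ)) / M :=
    div_nonneg (Finset.prod_nonneg fun _ _ => Nat.cast_nonneg _) hM.le
  have hone : ∀ q : (Fin (k + 1) × Fin m) × (Fin (k + 1) × Fin m),
      ((bad q).card : ℝ) ≤ (∏ i, ((T i).card : ℝ)) / M := by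
    intro q
    by_cases hq : q.1.1 = q.2.1
    · have : bad q = ∅ := by
        rw [hbad, Finset.filter_eq_empty_iff]
        intro a _ h
        exact h.1 hq
      rw [this, Finset.card_empty, Nat.cast_zero]
      exact hQ0
    · rcases Fin.eq_zero_or_eq_succ q.2.1 with h2 | ⟨i, h2⟩
      · rcases Fin.eq_zero_or_eq_succ q.1.1 with h1 | ⟨i, h1⟩
        · exact absurd (h1.trans h2.symm) hq
        · refine le_trans ?_ (one_pair T M hM hT i q.2.1 (fun h => hq (h1.trans h.symm)) (b q.2.2)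
            (b q.1.2))
          have : bad q ⊆ (Fintype.piFinset T).filter (fun a =>
              (Fin.cons 0 a : Fin (k + 1) → ℕ) q.2.1 + b q.2.2 =
              (Fin.cons 0 a : Fin (k + 1) → ℕ) i.succ + b q.1.2) := by
            intro a ha
            rw [hbad, Finset.mem_filter] at ha
            rw [Finset.mem_filter]
            refine ⟨ha.1, ?_⟩
            rw [← h1]
            exact ha.2.2.symm
          exact_mod_cast Finset.card_le_card this
      · refine le_trans ?_ (one_pair T M hM hT i q.1.1 (fun h => hq (h.trans h2.symm)) (b q.1.2)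
          (b q.2.2))
        have : bad q ⊆ (Fintype.piFinset T).filter (fun a =>
            (Fin.cons 0 a : Fin (k + 1) → ℕ) q.1.1 + b q.1.2 =
            (Fin.cons 0 a : Fin (k + 1) → ℕ) i.succ + b q.2.2) := by
          intro a ha
          rw [hbad, Finset.mem_filter] at ha
          rw [Finset.mem_filter]
          refine ⟨ha.1, ?_⟩
          rw [← h2]
          exact ha.2.2
        exact_mod_cast Finset.card_le_card this
  calc _ ≤ (((P ×ˢ P).biUnion bad).card : ℝ) := by exact_mod_cast Finset.card_le_card hsub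
    _ ≤ ∑ q ∈ P ×ˢ P, ((bad q).card : ℝ) := by exact_mod_cast Finset.card_biUnion_le
    _ ≤ ∑ _q ∈ P ×ˢ P, (∏ i, ((T i).card : ℝ)) / M := Finset.sum_le_sum fun q _ => hone q
    _ = (P.card : ℝ) ^ 2 * (∏ i, ((T i).card : ℝ)) / M := by
        rw [Finset.sum_const, nsmul_eq_mul, Finset.card_product]
        push_cast
        ring

/-- Expansion of the product over the rows, the row `0` being fixed. -/
theorem expand0 {k m : ℕ} (P : Finset (Fin (k + 1) × Fin m)) (T : Fin k → Finset ℕ)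
    (b : Fin m → ℕ) (G : ℕ → ℝ) (n : ℕ) :
    (∏ j ∈ univ.filter (fun j => ((0 : Fin (k + 1)), j) ∈ P), G (n + b j)) *
      ∏ i : Fin k, ∑ a ∈ T i, ∏ j ∈ univ.filter (fun j => (i.succ, j) ∈ P), G (n + a + b j) =
      ∑ a ∈ Fintype.piFinset T, ∏ p ∈ P, G (n + ((Fin.cons 0 a : Fin (k + 1) → ℕ) p.1 + b p.2)) := by
  classical
  have h := expand P (Fin.cons {0} T : Fin (k + 1) → Finset ℕ) b G n
  rw [Fin.prod_univ_succ] at h
  simp only [Fin.cons_zero, Fin.cons_succ, Finset.sum_singleton, add_zero] at h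
  rw [h, sum_piFinset_cons]
  simp only [Fin.cons_zero, Fin.cons_succ, Finset.sum_singleton]

end Pool.Agent.HLU
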