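import Pool.Agent.Lib.HLT.FourierOne

/-!
# Plancherel for sums over a set of shifts

PROOF SKETCH. `N = 4 x + 1`, `c ξ = ∑_{m ≤ x} g m ex (m ξ/N)`. For `1 ≤ m ≤ x`: `g m = (1/N) ∑_{ξ<N} c ξ
ex (-(m ξ/N))` (orthogonality, `∑_{ξ<N} ex (k ξ/N) = N` or `0`; see the private lemmas of `Lib/HLT/Fourier.lean`
and `FourierOne.lean`, copy them). For `1 ≤ n ≤ y`, `a ∈ T`, `n + a ≤ x`:
`∑_{a∈T} g (n + a) = (1/N) ∑_ξ c ξ conj (WW T (ξ/N)) ex (-(n ξ/N))`. The sum over `n ∈ [1, y]` of the squares is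
at most the sum over a complete system of `n` modulo `N`, equal to `(1/N) ∑ ‖c ξ‖² ‖WW T (ξ/N)‖²`
(`parseval` with the roles of `n` and `ξ` exchanged).
-/

set_option autoImplicit false

open Finset Filter

namespace Pool.Agent.HLU

open Pool.Agent.HLB Pool.Agent.HL Pool.Agent.HLT

private lemma ex_eq_one_iff {N : ℕ} (hN : 0 < N) (k : ℤ) : ex (k / N) = 1 ↔ (N : ℤ) ∣ k := by
  unfold ex
  rw [Complex.exp_eq_one_iff]
  have hN' : (N : ℂ) ≠ 0 := by exact_mod_cast hN.ne'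
  have hpi : (2 * (Real.pi : ℂ) * Complex.I) ≠ 0 := Complex.two_pi_I_ne_zero
  constructor
  · rintro ⟨m, hm⟩
    refine ⟨m, ?_⟩
    have h1 : ((k : ℂ) / N) * (2 * (Real.pi : ℂ) * Complex.I) = m * (2 * (Real.pi : ℂ) * Complex.I) := by
      rw [← hm]
      push_cast
      ring
    have h2 := mul_right_cancel₀ hpi h1
    rw [div_eq_iff hN'] at h2
    have h3 : ((k : ℤ) : ℂ) = ((N * m : ℤ) : ℂ) := by
      rw [h2]
      push_cast
      ring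
    exact_mod_cast h3
  · rintro ⟨m, rfl⟩
    refine ⟨m, ?_⟩
    push_cast
    field_simp

private lemma sum_ex {N : ℕ} (hN : 0 < N) (k : ℤ) :
    ∑ ξ ∈ range N, ex (k * (ξ / N)) = if (N : ℤ) ∣ k then (N : ℂ) else 0 := by
  have h1 : ∀ ξ : ℕ, ex (k * (ξ / N)) = ex (k / N) ^ ξ := by
    intro ξ
    rw [← ex_nat_mul]
    congr 1
    ring
  simp_rw [h1]
  split_ifs with h
  · rw [(ex_eq_one_iff hN k).2 h]
    simp
  · have hne : ex (k / N) ≠ 1 := fun h' => h ((ex_eq_one_iff hN k).1 h')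
    rw [geom_sum_eq hne]
    have h2 : ex (k / N) ^ N = 1 := by
      rw [← ex_nat_mul]
      have h3 : ((N : ℝ) * ((k : ℝ) / N)) = ((k : ℤ) : ℝ) := by
        have : (N : ℝ) ≠ 0 := by exact_mod_cast hN.ne'
        field_simp
      rw [h3]
      exact ex_int k
    rw [h2, sub_self, zero_div]

private lemma conj_ex (a : ℝ) : (starRingEnd ℂ) (ex a) = ex (-a) := (ex_neg a).symm

private lemma inv_sum {N x : ℕ} (hN : x < N) (g : ℕ → ℂ) (m : ℕ) (hm : m ∈ Icc 1 x) :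
    ∑ ξ ∈ range N, (∑ k ∈ Icc 1 x, g k * ex (k * (ξ / (N : ℝ)))) *
      (starRingEnd ℂ) (ex (m * (ξ / (N : ℝ)))) = (N : ℂ) * g m := by
  have hN0 : 0 < N := by omega
  have h1 : ∀ ξ ∈ range N, (∑ k ∈ Icc 1 x, g k * ex (k * (ξ / (N : ℝ)))) *
      (starRingEnd ℂ) (ex (m * (ξ / (N : ℝ)))) =
      ∑ k ∈ Icc 1 x, g k * ex ((((k : ℤ) - m : ℤ) : ℝ) * (ξ / (N : ℝ))) := by
    intro ξ _
    rw [Finset.sum_mul]
    refine Finset.sum_congr rfl fun k _ => ?_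
    rw [conj_ex, mul_assoc, ← ex_add]
    congr 2
    push_cast
    ring
  rw [Finset.sum_congr rfl h1, Finset.sum_comm]
  have h2 : ∀ k ∈ Icc 1 x, ∑ ξ ∈ range N, g k * ex ((((k : ℤ) - m : ℤ) : ℝ) * (ξ / (N : ℝ))) =
      if k = m then (N : ℂ) * g k else 0 := by
    intro k hk
    rw [Finset.mem_Icc] at hk hm
    rw [← Finset.mul_sum, sum_ex hN0]
    have h3 : (N : ℤ) ∣ ((k : ℤ) - m) ↔ k = m := by
      constructor
      · intro hd
        have h4 := Int.eq_zero_of_dvd_of_natAbs_lt_natAbs hd (by omega)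
        omega
      · rintro rfl
        simp
    by_cases hkm : k = m
    · rw [if_pos (h3.2 hkm), if_pos hkm, mul_comm]
    · rw [if_neg (fun h => hkm (h3.1 h)), if_neg hkm, mul_zero]
  rw [Finset.sum_congr rfl h2, Finset.sum_ite_eq' (Icc 1 x) m, if_pos hm]

theorem planch (x y : ℕ) (T : Finset ℕ) (hT : ∀ a ∈ T, y + a ≤ x) (g : ℕ → ℂ) :
    ∑ n ∈ Icc 1 y, ‖∑ a ∈ T, g (n + a)‖ ^ 2 ≤ (1 / ((4 * x + 1 : ℕ) : ℝ)) *
      ∑ ξ ∈ range (4 * x + 1), ‖∑ m ∈ Icc 1 x, g m * ex (m * (ξ / ((4 * x + 1 : ℕ) : ℝ)))‖ ^ 2 *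
        ‖WW T (ξ / ((4 * x + 1 : ℕ) : ℝ))‖ ^ 2 := by
  rcases T.eq_empty_or_nonempty with hTe | ⟨a0, ha0⟩
  · subst hTe
    simp only [Finset.sum_empty, norm_zero]
    rw [Finset.sum_eq_zero (fun i _ => by norm_num)]
    positivity
  have hyx : y ≤ x := by
    have := hT a0 ha0
    omega
  obtain ⟨N, hNdef⟩ : ∃ N : ℕ, N = 4 * x + 1 := ⟨_, rfl⟩
  rw [← hNdef]
  have hN0 : 0 < N := by omega
  have hNR : (0 : ℝ) < N := by exact_mod_cast hN0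
  have hxN : x < N := by omega
  set F : ℕ → ℂ := fun n => ∑ a ∈ T, g (n + a) with hF
  set c : ℕ → ℂ := fun ξ => ∑ m ∈ Icc 1 x, g m * ex (m * (ξ / (N : ℝ))) with hc
  set W : ℕ → ℂ := fun ξ => WW T (ξ / (N : ℝ)) with hW
  set Fh : ℕ → ℂ := fun ξ => ∑ n ∈ Icc 1 y, F n * ex (n * (ξ / (N : ℝ))) with hFh
  have hpar : ∑ ξ ∈ range N, ‖Fh ξ‖ ^ 2 = N * ∑ n ∈ Icc 1 y, ‖F n‖ ^ 2 :=
    parseval N y (by omega) hN0 F
  have hkey : ((N * ∑ n ∈ Icc 1 y, ‖F n‖ ^ 2 : ℝ) : ℂ) =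
      ∑ ξ ∈ range N, c ξ * ((starRingEnd ℂ) (Fh ξ) * (starRingEnd ℂ) (W ξ)) := by
    have h1 : ∀ ξ ∈ range N, c ξ * ((starRingEnd ℂ) (Fh ξ) * (starRingEnd ℂ) (W ξ)) =
        ∑ n ∈ Icc 1 y, (starRingEnd ℂ) (F n) * ∑ a ∈ T,
          c ξ * (starRingEnd ℂ) (ex (((n + a : ℕ) : ℝ) * (ξ / (N : ℝ)))) := by
      intro ξ _
      generalize c ξ = cx
      simp only [hFh, hW, HLT.WW]
      rw [map_sum, map_sum, Finset.sum_mul, Finset.mul_sum]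
      refine Finset.sum_congr rfl fun n _ => ?_
      rw [Finset.mul_sum, Finset.mul_sum, Finset.mul_sum]
      refine Finset.sum_congr rfl fun a _ => ?_
      rw [map_mul]
      have h2 : ex (((n + a : ℕ) : ℝ) * (ξ / (N : ℝ))) =
          ex (n * (ξ / (N : ℝ))) * ex (a * (ξ / (N : ℝ))) := by
        rw [← ex_add]
        congr 1
        push_cast
        ring
      rw [h2, map_mul]
      ring
    rw [Finset.sum_congr rfl h1, Finset.sum_comm, Complex.ofReal_mul, Complex.ofReal_sum,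
      Complex.ofReal_natCast, Finset.mul_sum]
    refine Finset.sum_congr rfl fun n hn => ?_
    rw [← Finset.mul_sum, Finset.sum_comm]
    have h3 : ∀ a ∈ T, ∑ ξ ∈ range N,
        c ξ * (starRingEnd ℂ) (ex (((n + a : ℕ) : ℝ) * (ξ / (N : ℝ)))) = (N : ℂ) * g (n + a) := by
      intro a ha
      have h4 := hT a ha
      rw [Finset.mem_Icc] at hn
      exact inv_sum hxN g (n + a) (Finset.mem_Icc.2 ⟨by omega, by omega⟩)
    rw [Finset.sum_congr rfl h3, ← Finset.mul_sum]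
    have h5 : (starRingEnd ℂ) (F n) * F n = ((‖F n‖ ^ 2 : ℝ) : ℂ) := by
      rw [mul_comm, Complex.mul_conj, Complex.normSq_eq_norm_sq]
    have h6 : ∑ a ∈ T, g (n + a) = F n := rfl
    rw [h6, ← h5]
    ring
  set S : ℝ := N * ∑ n ∈ Icc 1 y, ‖F n‖ ^ 2 with hS
  have hS0 : 0 ≤ S := by positivity
  set A : ℝ := ∑ ξ ∈ range N, ‖c ξ‖ ^ 2 * ‖W ξ‖ ^ 2 with hA
  have hA0 : 0 ≤ A := by positivity
  have hle : S ≤ ∑ ξ ∈ range N, (‖c ξ‖ * ‖W ξ‖) * ‖Fh ξ‖ := by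
    have h1 : S = ‖(S : ℂ)‖ := by
      rw [Complex.norm_real, Real.norm_of_nonneg hS0]
    rw [h1, hkey]
    refine (norm_sum_le _ _).trans (le_of_eq ?_)
    refine Finset.sum_congr rfl fun ξ _ => ?_
    rw [norm_mul, norm_mul, Complex.norm_conj, Complex.norm_conj]
    ring
  have hsq : S ^ 2 ≤ A * S := by
    have h1 := Finset.sum_mul_sq_le_sq_mul_sq (range N) (fun ξ => ‖c ξ‖ * ‖W ξ‖) (fun ξ => ‖Fh ξ‖)
    have h2 : S ^ 2 ≤ (∑ ξ ∈ range N, (‖c ξ‖ * ‖W ξ‖) * ‖Fh ξ‖) ^ 2 :=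
      pow_le_pow_left₀ hS0 hle 2
    refine h2.trans (h1.trans (le_of_eq ?_))
    rw [hpar]
    congr 1
    refine Finset.sum_congr rfl fun ξ _ => ?_
    rw [mul_pow]
  have hSA : S ≤ A := by
    rcases hS0.eq_or_lt with h | h
    · rw [← h]
      exact hA0
    · have : S * S ≤ A * S := by
        rw [← pow_two]
        exact hsq
      exact le_of_mul_le_mul_right this h
  rw [one_div, ← div_eq_inv_mul, le_div_iff₀ hNR, mul_comm]
  exact hSA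

/-- With the large spectrum: if the Fourier coefficients of `g` are at most `δ` on the spectrum. -/
theorem planch_spec (x y : ℕ) (T : Finset ℕ) (hT : ∀ a ∈ T, y + a ≤ x) (g : ℕ → ℂ)
    (M δ L1 : ℝ) (hL1 : 0 < L1) (hM : ∀ m ∈ Icc 1 x, ‖g m‖ ≤ M)
    (hδ : ∀ ξ ∈ Spec (4 * x + 1) T L1,
      ‖∑ m ∈ Icc 1 x, g m * ex (m * (ξ / ((4 * x + 1 : ℕ) : ℝ)))‖ ≤ δ) :
    ∑ n ∈ Icc 1 y, ‖∑ a ∈ T, g (n + a)‖ ^ 2 ≤ (T.card : ℝ) ^ 2 *
      (x * M ^ 2 / L1 ^ 2 + (Spec (4 * x + 1) T L1).card * δ ^ 2 / ((4 * x + 1 : ℕ) : ℝ)) := by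
  have hNR : (0 : ℝ) < ((4 * x + 1 : ℕ) : ℝ) := by positivity
  refine (planch x y T hT g).trans ?_
  have hpar := parseval (4 * x + 1) x (by omega) (by omega) g
  set N : ℕ := 4 * x + 1 with hN
  set c : ℕ → ℂ := fun ξ => ∑ m ∈ Icc 1 x, g m * ex (m * (ξ / (N : ℝ))) with hc
  have hmem : ∀ ζ : ℕ, ζ ∈ Spec N T L1 ↔ ζ < N ∧ (T.card : ℝ) ≤ L1 * ‖WW T ((ζ : ℝ) / N)‖ := by
    intro ζ
    classical
    unfold Spec
    rw [Finset.mem_filter, Finset.mem_range]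
  have hsub : Spec N T L1 ⊆ range N := fun ζ hζ => Finset.mem_range.2 ((hmem ζ).1 hζ).1
  have hg : ∑ m ∈ Icc 1 x, ‖g m‖ ^ 2 ≤ x * M ^ 2 := by
    calc ∑ m ∈ Icc 1 x, ‖g m‖ ^ 2 ≤ ∑ _m ∈ Icc 1 x, M ^ 2 :=
          Finset.sum_le_sum fun m hm => pow_le_pow_left₀ (norm_nonneg _) (hM m hm) 2
      _ = x * M ^ 2 := by
          rw [Finset.sum_const, Nat.card_Icc, nsmul_eq_mul, Nat.add_sub_cancel]
  have hon : ∑ ξ ∈ Spec N T L1, ‖c ξ‖ ^ 2 * ‖WW T (ξ / (N : ℝ))‖ ^ 2 ≤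
      (Spec N T L1).card * (δ ^ 2 * (T.card : ℝ) ^ 2) := by
    rw [← nsmul_eq_mul, ← Finset.sum_const]
    refine Finset.sum_le_sum fun ξ hξ => ?_
    exact mul_le_mul (pow_le_pow_left₀ (norm_nonneg _) (hδ ξ hξ) 2)
      (pow_le_pow_left₀ (norm_nonneg _) (norm_WW_le T _) 2) (by positivity) (by positivity)
  have hoff : ∑ ξ ∈ range N \ Spec N T L1, ‖c ξ‖ ^ 2 * ‖WW T (ξ / (N : ℝ))‖ ^ 2 ≤
      (N * (x * M ^ 2)) * ((T.card : ℝ) ^ 2 / L1 ^ 2) := by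
    have h1 : ∀ ξ ∈ range N \ Spec N T L1, ‖c ξ‖ ^ 2 * ‖WW T (ξ / (N : ℝ))‖ ^ 2 ≤
        ‖c ξ‖ ^ 2 * ((T.card : ℝ) ^ 2 / L1 ^ 2) := by
      intro ξ hξ
      rw [Finset.mem_sdiff, Finset.mem_range, hmem] at hξ
      have h2 : L1 * ‖WW T ((ξ : ℝ) / N)‖ ≤ T.card := by
        by_contra hcon
        push Not at hcon
        exact hξ.2 ⟨hξ.1, hcon.le⟩
      refine mul_le_mul_of_nonneg_left ?_ (by positivity)
      rw [le_div_iff₀ (by positivity), ← mul_pow]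
      refine pow_le_pow_left₀ (by positivity) ?_ 2
      rw [mul_comm]
      exact h2
    refine (Finset.sum_le_sum h1).trans ?_
    rw [← Finset.sum_mul]
    refine mul_le_mul_of_nonneg_right ?_ (by positivity)
    refine (Finset.sum_le_sum_of_subset_of_nonneg Finset.sdiff_subset
      (fun _ _ _ => by positivity)).trans ?_
    rw [hpar]
    exact mul_le_mul_of_nonneg_left hg hNR.le
  rw [← Finset.sum_sdiff hsub, one_div, ← div_eq_inv_mul, div_le_iff₀ hNR]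
  refine (add_le_add hoff hon).trans (le_of_eq ?_)
  field_simp

end Pool.Agent.HLU
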