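import Pool.Agent.Lib.HLT.LastUniform
import Pool.Agent.Lib.HLU.Base
import Pool.Agent.Lib.HLU.Planch

/-!
# A set with a small spectrum is not too small; coincidences between shifts

`spc_low`: `parseval` for the indicator of `T` (shifted by one): with `N = 4 x + 1`,
`∑_{ξ<N} ‖WW T (ξ/N)‖² = N |T|`. The `ξ` in the spectrum contribute at most `L^(F b) |T|²`, the others at most
`N |T|² / L^(2b)`. So `N |T| <= |T|² (L^(F b) + N / L^(2b)) <= |T|² 2 N / L^(2b)` for large `x`.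
`coinc`: if two of the shifts `a i + b j`, `(i, j) ∈ P`, coincide although `b` is injective on the `j` with
`(i, j) ∈ P` for each `i`, then they have different `i ≠ i'`, and `a i'` is determined by `a i`:
`|T i'| * #{a : bad} = ∑_a #{u ∈ T i' : update a i' u bad} <= ∑_a 1 = ∏ |T i|`.
-/

set_option autoImplicit false

open Finset Filter

namespace Pool.Agent.HLU

open Pool.Agent.HLB Pool.Agent.HL Pool.Agent.HLT

private lemma sum_WW_sq (x : ℕ) (T : Finset ℕ) (hT : T ⊆ range (x + 1)) :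
    ∑ ξ ∈ range (4 * x + 1), ‖WW T ((ξ : ℝ) / ((4 * x + 1 : ℕ) : ℝ))‖ ^ 2 =
      ((4 * x + 1 : ℕ) : ℝ) * T.card := by
  classical
  set T' : Finset ℕ := T.map ⟨Nat.succ, Nat.succ_injective⟩ with hT'
  have hsub : T' ⊆ Icc 1 (x + 1) := by
    intro n hn
    rw [hT', Finset.mem_map] at hn
    obtain ⟨t, ht, rfl⟩ := hn
    have := Finset.mem_range.1 (hT ht)
    rw [Finset.mem_Icc]
    exact ⟨Nat.succ_pos t, Nat.succ_le_succ (Nat.lt_succ_iff.1 this)⟩
  have h0 := parseval (4 * x + 1) (x + 1) (by omega) (by omega)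
    (fun n => if n ∈ T' then (1 : ℂ) else 0)
  have h1 : ∀ θ : ℝ, ∑ n ∈ Icc 1 (x + 1), (if n ∈ T' then (1 : ℂ) else 0) * ex (n * θ) =
      ex θ * WW T θ := by
    intro θ
    have h2 : ∀ n : ℕ, (if n ∈ T' then (1 : ℂ) else 0) * ex (n * θ) =
        if n ∈ T' then ex (n * θ) else 0 := by
      intro n
      split_ifs
      · rw [one_mul]
      · rw [zero_mul]
    rw [Finset.sum_congr rfl fun n _ => h2 n, Finset.sum_ite_mem,
      Finset.inter_eq_right.2 hsub, hT', Finset.sum_map, HLT.WW, Finset.mul_sum]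
    refine Finset.sum_congr rfl fun t _ => ?_
    rw [← ex_add]
    congr 1
    show ((Nat.succ t : ℕ) : ℝ) * θ = θ + t * θ
    push_cast
    ring
  have h3 : ∑ n ∈ Icc 1 (x + 1), ‖(if n ∈ T' then (1 : ℂ) else 0)‖ ^ 2 = (T.card : ℝ) := by
    have h4 : ∀ n : ℕ, ‖(if n ∈ T' then (1 : ℂ) else 0)‖ ^ 2 = if n ∈ T' then (1 : ℝ) else 0 := by
      intro n
      split_ifs
      · norm_num
      · norm_num
    rw [Finset.sum_congr rfl fun n _ => h4 n, Finset.sum_ite_mem, Finset.inter_eq_right.2 hsub,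
      Finset.sum_const, nsmul_eq_mul, mul_one, hT', Finset.card_map]
  rw [h3] at h0
  rw [← h0]
  refine Finset.sum_congr rfl fun ξ _ => ?_
  rw [h1, norm_mul, norm_ex, one_mul]

theorem spc_low (F : ℕ → ℕ) (b0 b : ℕ) (hb : b ≤ b0) : ∀ᶠ x : ℕ in atTop, ∀ T : Finset ℕ,
    T.Nonempty → SpC F b0 x T → Real.log x ^ (2 * b) ≤ 2 * T.card := by
  classical
  filter_upwards [ev_log 1, ev_pow (F b) (2 * b)] with x hL hpow T hT hS
  obtain ⟨hsub, hspec⟩ := hS
  have hL0 : 0 < Real.log x := by linarith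
  set L := Real.log x with hLdef
  set N : ℕ := 4 * x + 1 with hN
  have hN0 : (0 : ℝ) < (N : ℝ) := by
    rw [hN]
    positivity
  have hTpos : (0 : ℝ) < T.card := by exact_mod_cast hT.card_pos
  have hLb : 0 < L ^ b := by positivity
  have hsum := sum_WW_sq x T hsub
  rw [← hN] at hsum
  have hsp := hspec b hb
  have hle : ∀ ξ ∈ range N, ‖WW T ((ξ : ℝ) / (N : ℝ))‖ ^ 2 ≤
      (if ξ ∈ Spec N T (L ^ b) then (T.card : ℝ) ^ 2 else 0) + (T.card : ℝ) ^ 2 / L ^ (2 * b) := by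
    intro ξ hξ
    have hW : ‖WW T ((ξ : ℝ) / (N : ℝ))‖ ≤ T.card := by
      unfold HLT.WW
      refine (norm_sum_le _ _).trans (le_of_eq ?_)
      simp only [norm_ex, Finset.sum_const, nsmul_eq_mul, mul_one]
    by_cases h : ξ ∈ Spec N T (L ^ b)
    · rw [if_pos h]
      have h1 : ‖WW T ((ξ : ℝ) / (N : ℝ))‖ ^ 2 ≤ (T.card : ℝ) ^ 2 :=
        pow_le_pow_left₀ (norm_nonneg _) hW 2
      have h2 : 0 ≤ (T.card : ℝ) ^ 2 / L ^ (2 * b) := by positivity
      linarith
    · rw [if_neg h, zero_add]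
      have h1 : L ^ b * ‖WW T ((ξ : ℝ) / (N : ℝ))‖ < T.card := by
        by_contra hcon
        refine h ?_
        unfold Spec
        rw [Finset.mem_filter]
        exact ⟨hξ, not_lt.1 hcon⟩
      rw [le_div_iff₀ (by positivity), mul_comm 2 b, pow_mul, ← mul_pow, mul_comm]
      exact pow_le_pow_left₀ (by positivity) h1.le 2
  have hsum2 := Finset.sum_le_sum hle
  rw [hsum, Finset.sum_add_distrib, Finset.sum_ite_mem, Finset.sum_const, Finset.sum_const,
    nsmul_eq_mul, nsmul_eq_mul, Finset.card_range] at hsum2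
  have hinter : ((range N ∩ Spec N T (L ^ b)).card : ℝ) ≤ L ^ F b := by
    refine le_trans ?_ hsp
    exact_mod_cast Finset.card_le_card Finset.inter_subset_right
  have hxN : (x : ℝ) ≤ N := by
    rw [hN]
    push_cast
    linarith [(Nat.cast_nonneg x : (0 : ℝ) ≤ x)]
  have hF : L ^ F b ≤ N / L ^ (2 * b) := hpow.trans (by gcongr)
  have h1 : (N : ℝ) * T.card ≤ 2 * (N / L ^ (2 * b)) * (T.card : ℝ) ^ 2 := by
    refine hsum2.trans ?_
    have h2 : ((range N ∩ Spec N T (L ^ b)).card : ℝ) * (T.card : ℝ) ^ 2 ≤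
        N / L ^ (2 * b) * (T.card : ℝ) ^ 2 :=
      mul_le_mul_of_nonneg_right (hinter.trans hF) (by positivity)
    have h3 : (N : ℝ) * ((T.card : ℝ) ^ 2 / L ^ (2 * b)) = N / L ^ (2 * b) * (T.card : ℝ) ^ 2 := by
      ring
    rw [h3]
    linarith
  have h2 : (N : ℝ) * T.card * L ^ (2 * b) ≤ N * T.card * (2 * T.card) := by
    have h3 := mul_le_mul_of_nonneg_right h1 (show 0 ≤ L ^ (2 * b) by positivity)
    refine h3.trans (le_of_eq ?_)
    field_simp
  exact le_of_mul_le_mul_left h2 (by positivity)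

/-- `M` is a lower bound of all `|T i|`. -/
theorem coinc {k m : ℕ} (P : Finset (Fin k × Fin m)) (T : Fin k → Finset ℕ) (b : Fin m → ℕ)
    (M : ℝ) (hM : 0 < M) (hT : ∀ i, M ≤ (T i).card)
    (hb : ∀ i j j', (i, j) ∈ P → (i, j') ∈ P → b j = b j' → j = j') :
    (((Fintype.piFinset T).filter (fun a => ¬ Set.InjOn (fun p : Fin k × Fin m => a p.1 + b p.2)
      (P : Set (Fin k × Fin m)))).card : ℝ) ≤ (P.card : ℝ) ^ 2 * (∏ i, ((T i).card : ℝ)) / M := by
  classical
  set bad : (Fin k × Fin m) × (Fin k × Fin m) → Finset (Fin k → ℕ) := fun q =>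
    (Fintype.piFinset T).filter (fun a => q.1.1 ≠ q.2.1 ∧ a q.1.1 + b q.1.2 = a q.2.1 + b q.2.2)
    with hbad
  have hsub : (Fintype.piFinset T).filter (fun a => ¬ Set.InjOn
      (fun p : Fin k × Fin m => a p.1 + b p.2) (P : Set (Fin k × Fin m))) ⊆
      (P ×ˢ P).biUnion bad := by
    intro a ha
    rw [Finset.mem_filter] at ha
    obtain ⟨ha1, ha2⟩ := ha
    unfold Set.InjOn at ha2
    push Not at ha2
    obtain ⟨p, hp, p', hp', hpp, hne⟩ := ha2
    rw [Finset.mem_biUnion]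
    refine ⟨(p, p'), Finset.mem_product.2 ⟨hp, hp'⟩, ?_⟩
    rw [hbad, Finset.mem_filter]
    refine ⟨ha1, ?_, hpp⟩
    intro h1
    have h1' : p.1 = p'.1 := h1
    have hpp' : a p.1 + b p.2 = a p'.1 + b p'.2 := hpp
    rw [h1'] at hpp'
    have h2 : b p.2 = b p'.2 := by omega
    have h3 : p.2 = p'.2 := by
      refine hb p'.1 _ _ ?_ ?_ h2
      · rw [← h1']
        exact hp
      · exact hp'
    exact hne (Prod.ext h1' h3)
  have hone : ∀ q : (Fin k × Fin m) × (Fin k × Fin m),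
      ((bad q).card : ℝ) ≤ (∏ i, ((T i).card : ℝ)) / M := by
    intro q
    rw [le_div_iff₀ hM]
    have hTq : (0 : ℝ) < (T q.2.1).card := lt_of_lt_of_le hM (hT q.2.1)
    have h1 := card_mul_sum_update q.2.1 T
      (fun a => if q.1.1 ≠ q.2.1 ∧ a q.1.1 + b q.1.2 = a q.2.1 + b q.2.2 then (1 : ℝ) else 0)
    have h2 : ∑ a ∈ Fintype.piFinset T,
        (if q.1.1 ≠ q.2.1 ∧ a q.1.1 + b q.1.2 = a q.2.1 + b q.2.2 then (1 : ℝ) else 0) =
        (bad q).card := by
      rw [Finset.sum_boole]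
    rw [h2] at h1
    have h3 : ∑ a ∈ Fintype.piFinset T, ∑ u ∈ T q.2.1,
        (if q.1.1 ≠ q.2.1 ∧ Function.update a q.2.1 u q.1.1 + b q.1.2 =
          Function.update a q.2.1 u q.2.1 + b q.2.2 then (1 : ℝ) else 0) ≤
        ∑ _a ∈ Fintype.piFinset T, (1 : ℝ) := by
      refine Finset.sum_le_sum fun a _ => ?_
      rw [Finset.sum_boole]
      have h4 : ((T q.2.1).filter (fun u => q.1.1 ≠ q.2.1 ∧
          Function.update a q.2.1 u q.1.1 + b q.1.2 =
          Function.update a q.2.1 u q.2.1 + b q.2.2)).card ≤ 1 := by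
        rw [Finset.card_le_one]
        intro u hu u' hu'
        rw [Finset.mem_filter] at hu hu'
        have h5 := hu.2.2
        have h6 := hu'.2.2
        rw [Function.update_self, Function.update_of_ne hu.2.1] at h5 h6
        omega
      exact_mod_cast h4
    rw [Finset.sum_const, nsmul_eq_mul, mul_one, Fintype.card_piFinset] at h3
    have h5 : ((T q.2.1).card : ℝ) * ((bad q).card : ℝ) ≤ ∏ i, ((T i).card : ℝ) := by
      rw [← h1]
      refine h3.trans (le_of_eq ?_)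
      push_cast
      rfl
    have h6 : M * ((bad q).card : ℝ) ≤ ((T q.2.1).card : ℝ) * ((bad q).card : ℝ) :=
      mul_le_mul_of_nonneg_right (hT _) (Nat.cast_nonneg _)
    rw [mul_comm]
    exact h6.trans h5
  calc _ ≤ (((P ×ˢ P).biUnion bad).card : ℝ) := by exact_mod_cast Finset.card_le_card hsub
    _ ≤ ∑ q ∈ P ×ˢ P, ((bad q).card : ℝ) := by exact_mod_cast Finset.card_biUnion_le
    _ ≤ ∑ _q ∈ P ×ˢ P, (∏ i, ((T i).card : ℝ)) / M := Finset.sum_le_sum fun q _ => hone q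
    _ = (P.card : ℝ) ^ 2 * (∏ i, ((T i).card : ℝ)) / M := by
        rw [Finset.sum_const, nsmul_eq_mul, Finset.card_product]
        push_cast
        ring

end Pool.Agent.HLU
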