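import Pool.Agent.Lib.HLT.FirstUniform
import Pool.Agent.Lib.HLU.NetY

/-!
# Almost all `b`: the fixed shift `c` with frequencies

PROOF SKETCH (the imports are black boxes). Like `GoodW`, from `first_uniform` instead of `gen_w`. For fixed
`J`, `α = ξ ∈ Z`, `y ≤ x`: `first_uniform m 2 B' F` with `H n = if n ≤ y then ff z (n + c) else 0`,
`G i = nuz z` for `i ∈ J` and `G i = 1` for `i ∉ J` (the products over all `i` of the `G i` then equal
`pn z J b n`), `B' = 4 A2 + (2 + 2 m) + 6`, `A2 = A + C0 + A1 + 1` (see `FirstC.lean` for the sup norm of `H`: `B = B1 + 1`, and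
`key0` in `Lib/HLT/CorrMean.lean`). Then `net_y A2 (2 + 2 m)` and the union over the `2^m` sets `J` and over `Z`.
-/

set_option autoImplicit false

open Finset Filter

namespace Pool.Agent.HLU

open Pool.Agent.HLB Pool.Agent.HL Pool.Agent.HLT

private lemma shift_esumT (f : ℕ → ℝ) (x c : ℕ) (α : ℝ) :
    ∑ n ∈ Icc 1 x, (f (n + c) : ℂ) * ex (n * α) =
      ex (-(c * α)) * (esum f (x + c) α - esum f c α) := by
  have h1 : esum f (x + c) α - esum f c α = ∑ n ∈ Icc (1 + c) (x + c), (f n : ℂ) * ex (n * α) := by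
    unfold esum
    rw [sub_eq_iff_eq_add]
    have : Icc 1 (x + c) = Icc (1 + c) (x + c) ∪ Icc 1 c := by
      ext n
      simp only [mem_Icc, mem_union]
      omega
    rw [this, Finset.sum_union]
    rw [Finset.disjoint_left]
    intro n hn hn'
    simp only [mem_Icc] at hn hn'
    omega
  have h2 : ∑ n ∈ Icc (1 + c) (x + c), (f n : ℂ) * ex (n * α) =
      ∑ n ∈ Icc 1 x, (f (n + c) : ℂ) * ex ((n + c : ℕ) * α) := by
    have : Icc (1 + c) (x + c) = (Icc 1 x).map (addRightEmbedding c) := by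
      rw [Finset.map_add_right_Icc]
    rw [this, Finset.sum_map]
    rfl
  rw [h1, h2, Finset.mul_sum]
  refine Finset.sum_congr rfl fun n _ => ?_
  have : ex ((n + c : ℕ) * α) = ex (n * α) * ex (c * α) := by
    rw [← ex_add]
    congr 1
    push_cast
    ring
  rw [this]
  have h3 : ex (-(c * α)) * ex (c * α) = 1 := by
    rw [← ex_add]
    simp
  calc (f (n + c) : ℂ) * ex (n * α) = (f (n + c) : ℂ) * ex (n * α) * (ex (-(c * α)) * ex (c * α)) := by
        rw [h3, mul_one]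
    _ = _ := by ring

private lemma sum_cutT {x y : ℕ} (hy : y ≤ x) (f : ℕ → ℂ) :
    ∑ n ∈ Icc 1 x, (if n ≤ y then f n else 0) = ∑ n ∈ Icc 1 y, f n := by
  rw [← Finset.sum_filter]
  refine Finset.sum_congr ?_ fun _ _ => rfl
  ext n
  simp only [mem_filter, mem_Icc]
  omega

theorem first_t (m C0 A A1 : ℕ) (F : ℕ → ℕ) : ∃ b0 B : ℕ, ∀ A' : ℕ, ∀ᶠ x : ℕ in atTop,
    SN A' B x → ∀ T' : Fin m → Finset ℕ, (∀ j, SpC F b0 x (T' j)) → ∀ c : ℕ, c ≤ x →
    ∀ Z : Finset ℝ, (Z.card : ℝ) ≤ Real.log x ^ C0 →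
    ∃ E ⊆ Fintype.piFinset T', (E.card : ℝ) ≤ (∏ j, ((T' j).card : ℝ)) / Real.log x ^ A ∧
      ∀ b ∈ Fintype.piFinset T', b ∉ E → ∀ J : Finset (Fin m), ∀ ξ ∈ Z, ∀ y : ℕ, y ≤ x →
        ‖∑ n ∈ Icc 1 y, ((ff (zA A' x) (n + c) * pn (zA A' x) J b n : ℝ) : ℂ) * ex (n * ξ)‖ ≤
          x / Real.log x ^ A1 := by
  classical
  set A2 : ℕ := A + C0 + A1 + 1 with hA2
  obtain ⟨b1, B1, h1⟩ := first_uniform m 2 (4 * A2 + (2 + 2 * m) + 6) F
  refine ⟨b1, B1 + 1, ?_⟩
  intro A'
  filter_upwards [h1, net_y (τ := Fin m → ℕ) A2 (2 + 2 * m), DZ_inv_le A', ev_log 2,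
    ev_log (2 ^ m), eventually_ge_atTop 1] with x h1 hnet h4 hL2 hLm hx1 h3 T hT c hc Z hZ
  set L : ℝ := Real.log x with hL
  set z : ℕ := zA A' x with hz
  have hx0 : (0:ℝ) < x := by exact_mod_cast hx1
  have hL0 : (0:ℝ) < L := by linarith
  have hL1 : (1:ℝ) ≤ L := by linarith
  have hLp : ∀ j : ℕ, 0 < L ^ j := fun j => pow_pos hL0 j
  have hLL : L ≤ L ^ 2 := by nlinarith
  have hnu : ∀ n : ℕ, |nuz z n| ≤ L ^ 2 := by
    intro n
    rw [abs_of_nonneg (nuz_nonneg z n)]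
    exact (nuz_le z n).trans (h4.trans hLL)
  have hff : ∀ n : ℕ, n ≤ 2 * x → |ff z n| ≤ L ^ 2 := by
    intro n hn
    unfold ff
    have e1 := lp_le_sq hL2 hn
    have e2 := hnu n
    rw [abs_of_nonneg (nuz_nonneg z n)] at e2
    have e3 := lp_nonneg n
    have e4 := nuz_nonneg z n
    rw [abs_le]
    constructor <;> linarith
  have hpow : 2 * ((x:ℝ) / L ^ (B1 + 1)) ≤ x / L ^ B1 := by
    rw [← mul_div_assoc, div_le_div_iff₀ (by positivity) (by positivity), pow_succ]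
    have e2 : 0 < L ^ B1 := by positivity
    calc 2 * (x:ℝ) * L ^ B1 = x * (L ^ B1 * 2) := by ring
      _ ≤ x * (L ^ B1 * L) := by gcongr
  set Q : ℝ := ∏ j, ((T j).card : ℝ) with hQ
  have hQ0 : 0 ≤ Q := Finset.prod_nonneg fun _ _ => Nat.cast_nonneg _
  let D : Finset (Fin m) → ℝ → (Fin m → ℕ) → ℕ → ℂ := fun J ξ b n =>
    ((ff z (n + c) * pn z J b n : ℝ) : ℂ) * ex (n * ξ)
  -- the mean squares
  have hms : ∀ (J : Finset (Fin m)) (ξ : ℝ), ∀ y : ℕ, y ≤ x →
      ∑ b ∈ Fintype.piFinset T, ‖∑ n ∈ Icc 1 y, D J ξ b n‖ ^ 2 ≤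
        Q * (x ^ 2 / L ^ (4 * A2 + (2 + 2 * m) + 6)) := by
    intro J ξ y hy
    have := h1 T hT (fun n => if n ≤ y then (ff z (n + c) : ℂ) else 0)
      (fun i n => if i ∈ J then nuz z n else 1) ?_ ?_ ?_ ξ
    · refine le_trans (le_of_eq ?_) this
      refine Finset.sum_congr rfl fun b _ => ?_
      have e : ∑ n ∈ Icc 1 x, (if n ≤ y then ((ff z (n + c) : ℝ) : ℂ) else 0) * ex (n * ξ) *
            ∏ i, (((if i ∈ J then nuz z (n + b i) else 1 : ℝ)) : ℂ) =
          ∑ n ∈ Icc 1 y, D J ξ b n := by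
        rw [show (∑ n ∈ Icc 1 x, (if n ≤ y then ((ff z (n + c) : ℝ) : ℂ) else 0) * ex (n * ξ) *
            ∏ i, (((if i ∈ J then nuz z (n + b i) else 1 : ℝ)) : ℂ)) =
            ∑ n ∈ Icc 1 x, (if n ≤ y then D J ξ b n else 0) from
          Finset.sum_congr rfl fun n _ => by
            have hp : ∏ i, (((if i ∈ J then nuz z (n + b i) else 1 : ℝ)) : ℂ) =
                ((pn z J b n : ℝ) : ℂ) := by
              rw [← Complex.ofReal_prod]
              congr 1
              unfold pn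
              rw [Finset.prod_ite_mem, Finset.univ_inter]
            rw [hp]
            split_ifs
            · simp only [D]
              push_cast
              ring
            · simp]
        rw [sum_cutT hy]
      rw [e]
    · intro n hn
      rw [mem_Icc] at hn
      split_ifs with hny
      · rw [Complex.norm_real, Real.norm_eq_abs]
        exact hff _ (by omega)
      · rw [norm_zero]
        positivity
    · intro i n hn
      split_ifs
      · exact hnu n
      · rw [abs_one]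
        exact hL1.trans hLL
    · intro α
      have e : ∑ n ∈ Icc 1 x, (if n ≤ y then ((ff z (n + c) : ℝ) : ℂ) else 0) * ex (n * α) =
          ∑ n ∈ Icc 1 y, ((ff z (n + c) : ℝ) : ℂ) * ex (n * α) := by
        rw [← sum_cutT hy]
        exact Finset.sum_congr rfl fun n _ => by split_ifs <;> simp
      rw [e, shift_esumT, norm_mul, norm_ex, one_mul]
      refine (norm_sub_le _ _).trans ?_
      have e1 := h3 (y + c) (by omega) α
      have e2 := h3 c (by omega) α
      linarith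
  -- the pointwise bound
  have hpt : ∀ (J : Finset (Fin m)) (ξ : ℝ), ∀ b ∈ Fintype.piFinset T, ∀ n ∈ Icc 1 x,
      ‖D J ξ b n‖ ≤ L ^ (2 + 2 * m) := by
    intro J ξ b _ n hn
    rw [mem_Icc] at hn
    have e1 : ‖D J ξ b n‖ = |ff z (n + c)| * |pn z J b n| := by
      simp only [D]
      rw [norm_mul, norm_ex, mul_one, Complex.norm_real, Real.norm_eq_abs, abs_mul]
    rw [e1, abs_of_nonneg (pn_nonneg z J b n), pow_add]
    have e2 : pn z J b n ≤ L ^ (2 * m) := by
      refine (pn_le hL2 h4 J b n).trans (pow_le_pow_right₀ hL1 ?_)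
      have : J.card ≤ m := by simpa using Finset.card_le_univ J
      omega
    exact mul_le_mul (hff _ (by omega)) e2 (pn_nonneg z J b n) (hLp 2).le
  choose E0 hE0 hE1 hE2 using fun (J : Finset (Fin m)) (ξ : ℝ) =>
    hnet (Fintype.piFinset T) (D J ξ) Q hQ0 (hpt J ξ) (hms J ξ)
  refine ⟨(univ : Finset (Finset (Fin m))).biUnion fun J => Z.biUnion fun ξ => E0 J ξ, ?_, ?_, ?_⟩
  · intro b hb
    obtain ⟨J, -, hb⟩ := mem_biUnion.mp hb
    obtain ⟨ξ, -, hb⟩ := mem_biUnion.mp hb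
    exact hE0 J ξ hb
  · have c1 : ∀ J : Finset (Fin m), ((Z.biUnion fun ξ => E0 J ξ).card : ℝ) ≤
        L ^ C0 * (Q / L ^ A2) := by
      intro J
      have : (((Z.biUnion fun ξ => E0 J ξ).card : ℕ) : ℝ) ≤ ∑ ξ ∈ Z, ((E0 J ξ).card : ℝ) := by
        exact_mod_cast card_biUnion_le
      refine this.trans ((sum_le_sum fun ξ _ => hE1 J ξ).trans ?_)
      rw [sum_const, nsmul_eq_mul]
      exact mul_le_mul_of_nonneg_right hZ (div_nonneg hQ0 (hLp _).le)
    have c2 : ((((univ : Finset (Finset (Fin m))).biUnion fun J => Z.biUnion fun ξ => E0 J ξ).card : ℕ) : ℝ) ≤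
        ∑ J : Finset (Fin m), ((Z.biUnion fun ξ => E0 J ξ).card : ℝ) := by
      exact_mod_cast card_biUnion_le
    refine c2.trans ((sum_le_sum fun J _ => c1 J).trans ?_)
    rw [sum_const, nsmul_eq_mul, card_univ, Fintype.card_finset, Fintype.card_fin]
    push_cast
    have e1 : Q / L ^ A = L ^ (C0 + A1 + 1) * (Q / L ^ A2) := by
      rw [show A2 = (C0 + A1 + 1) + A by omega, pow_add]
      have := (hLp (C0 + A1 + 1)).ne'
      have := (hLp A).ne'
      field_simp
      ring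
    rw [e1, ← mul_assoc]
    refine mul_le_mul_of_nonneg_right ?_ (div_nonneg hQ0 (hLp _).le)
    calc (2:ℝ) ^ m * L ^ C0 ≤ L * L ^ C0 := mul_le_mul_of_nonneg_right hLm (hLp _).le
      _ = L ^ (C0 + 1) := by ring
      _ ≤ L ^ (C0 + A1 + 1) := pow_le_pow_right₀ hL1 (by omega)
  · intro b hb hbE J ξ hξ y hy
    have hb' : b ∉ E0 J ξ := by
      intro hcon
      exact hbE (mem_biUnion.mpr ⟨J, mem_univ _, mem_biUnion.mpr ⟨ξ, hξ, hcon⟩⟩)
    refine (hE2 J ξ b hb hb' y hy).trans ?_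
    exact div_le_div_of_nonneg_left hx0.le (hLp _) (pow_le_pow_right₀ hL1 (by omega))

end Pool.Agent.HLU
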