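import Pool.Agent.Lib.HLU.GoodW
import Pool.Agent.Lib.HLU.FirstT

/-!
# Almost all `b`: small exponential sums with one fixed shift `c`
-/

set_option autoImplicit false

open Finset Filter

namespace Pool.Agent.HLU

open Pool.Agent.HLB Pool.Agent.HL Pool.Agent.HLT

/-- the part of `J` above `0` -/
def Jm {m : ℕ} (J : Finset (Fin (m + 1))) : Finset (Fin m) := univ.filter (fun j => j.succ ∈ J)

lemma prod_cons_J {m : ℕ} (J : Finset (Fin (m + 1))) (c : ℕ) (b : Fin m → ℕ) (G : ℕ → ℝ) (n : ℕ) :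
    ∏ j ∈ J, G (n + (Fin.cons c b : Fin (m + 1) → ℕ) j) =
      (if (0 : Fin (m + 1)) ∈ J then G (n + c) else 1) * ∏ j ∈ Jm J, G (n + b j) := by
  classical
  have h : ∏ j ∈ J, G (n + (Fin.cons c b : Fin (m + 1) → ℕ) j) =
      ∏ j : Fin (m + 1), if j ∈ J then G (n + (Fin.cons c b : Fin (m + 1) → ℕ) j) else 1 := by
    rw [Finset.prod_ite_mem, Finset.univ_inter]
  rw [h, Fin.prod_univ_succ]
  unfold Jm
  rw [Finset.prod_filter]
  simp only [Fin.cons_zero, Fin.cons_succ]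

lemma pl_cons_J {m : ℕ} (J : Finset (Fin (m + 1))) (c : ℕ) (b : Fin m → ℕ) (n : ℕ) :
    pl J (Fin.cons c b : Fin (m + 1) → ℕ) n =
      (if (0 : Fin (m + 1)) ∈ J then lp (n + c) else 1) * pl (Jm J) b n := prod_cons_J J c b lp n

lemma pn_cons_J {m : ℕ} (z : ℕ) (J : Finset (Fin (m + 1))) (c : ℕ) (b : Fin m → ℕ) (n : ℕ) :
    pn z J (Fin.cons c b : Fin (m + 1) → ℕ) n =
      (if (0 : Fin (m + 1)) ∈ J then nuz z (n + c) else 1) * pn z (Jm J) b n :=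
  prod_cons_J J c b (nuz z) n

theorem good_c (m C0 A A1 : ℕ) (F : ℕ → ℕ) : ∃ b0 B : ℕ, ∀ A' : ℕ, ∀ᶠ x : ℕ in atTop,
    SN A' B x → ∀ T' : Fin m → Finset ℕ, (∀ j, SpC F b0 x (T' j)) → ∀ c : ℕ, c ≤ x →
    ∀ Z : Finset ℝ, (Z.card : ℝ) ≤ Real.log x ^ C0 →
    ∃ E ⊆ Fintype.piFinset T', (E.card : ℝ) ≤ (∏ j, ((T' j).card : ℝ)) / Real.log x ^ A ∧
      ∀ b ∈ Fintype.piFinset T', b ∉ E → ∀ J : Finset (Fin (m + 1)), ∀ ξ ∈ Z, ∀ y : ℕ, y ≤ x →
        ‖∑ n ∈ Icc 1 y, ((pl J (Fin.cons c b : Fin (m + 1) → ℕ) n -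
          pn (zA A' x) J (Fin.cons c b : Fin (m + 1) → ℕ) n : ℝ) : ℂ) * ex (n * ξ)‖ ≤
          x / Real.log x ^ A1 := by
  classical
  obtain ⟨b1, B1, h1⟩ := good_w m 2 C0 (A + 2) (A1 + 1) F
  obtain ⟨b2, B2, h2⟩ := good_w m 0 C0 (A + 2) (A1 + 1) F
  obtain ⟨b3, B3, h3⟩ := first_t m C0 (A + 2) (A1 + 1) F
  refine ⟨max (max b1 b2) b3, max (max B1 B2) B3, fun A' => ?_⟩
  filter_upwards [h1 A', h2 A', h3 A', ev_log 2] with x h1 h2 h3 hL hSN T' hT' c hc Z hZ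
  have hL0 : 0 < Real.log x := by linarith
  have hL1 : 1 ≤ Real.log x := by linarith
  obtain ⟨E1, hE1, hE1c, hE1'⟩ := h1
    (hSN.mono ((le_max_left _ _).trans (le_max_left _ _)) hL1) T'
    (fun i => (hT' i).mono ((le_max_left _ _).trans (le_max_left _ _)))
    (fun n => (lp (n + c) : ℂ)) (fun n hn => by
      rw [Complex.norm_real, Real.norm_eq_abs, abs_of_nonneg (lp_nonneg _)]
      rw [mem_Icc] at hn
      exact lp_le_sq hL (by omega)) Z hZ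
  obtain ⟨E2, hE2, hE2c, hE2'⟩ := h2
    (hSN.mono ((le_max_right _ _).trans (le_max_left _ _)) hL1) T'
    (fun i => (hT' i).mono ((le_max_right _ _).trans (le_max_left _ _)))
    (fun _ => 1) (fun n _ => by rw [norm_one, pow_zero]) Z hZ
  obtain ⟨E3, hE3, hE3c, hE3'⟩ := h3 (hSN.mono (le_max_right _ _) hL1) T'
    (fun i => (hT' i).mono (le_max_right _ _)) c hc Z hZ
  have hQ0 : 0 ≤ ∏ j, ((T' j).card : ℝ) := Finset.prod_nonneg fun _ _ => Nat.cast_nonneg _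
  have hx0 : (0 : ℝ) ≤ x := Nat.cast_nonneg x
  refine ⟨E1 ∪ (E2 ∪ E3), Finset.union_subset hE1 (Finset.union_subset hE2 hE3), ?_, ?_⟩
  · have h5 : ((E1 ∪ (E2 ∪ E3)).card : ℝ) ≤ E1.card + (E2.card + E3.card) := by
      exact_mod_cast (Finset.card_union_le E1 (E2 ∪ E3)).trans
        (Nat.add_le_add_left (Finset.card_union_le E2 E3) _)
    refine h5.trans ((add_le_add hE1c (add_le_add hE2c hE3c)).trans ?_)
    have h6 : (∏ j, ((T' j).card : ℝ)) / Real.log x ^ (A + 2) +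
        ((∏ j, ((T' j).card : ℝ)) / Real.log x ^ (A + 2) +
          (∏ j, ((T' j).card : ℝ)) / Real.log x ^ (A + 2)) =
        3 * (∏ j, ((T' j).card : ℝ)) / Real.log x ^ (A + 2) := by ring
    rw [h6, div_le_div_iff₀ (pow_pos hL0 _) (pow_pos hL0 _), pow_add]
    have h7 : (3 : ℝ) ≤ Real.log x ^ 2 := by nlinarith
    have h8 : 0 ≤ (∏ j, ((T' j).card : ℝ)) * Real.log x ^ A := mul_nonneg hQ0 (pow_pos hL0 _).le
    nlinarith
  · intro b hb hbE J ξ hξ y hy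
    rw [Finset.mem_union, Finset.mem_union, not_or, not_or] at hbE
    have a1 := hE1' b hb hbE.1 (Jm J) ξ hξ y hy
    have a2 := hE2' b hb hbE.2.1 (Jm J) ξ hξ y hy
    have a3 := hE3' b hb hbE.2.2 (Jm J) ξ hξ y hy
    have hfin : 2 * (x / Real.log x ^ (A1 + 1)) ≤ x / Real.log x ^ A1 := by
      rw [pow_succ, ← mul_div_assoc, div_le_div_iff₀ (mul_pos (pow_pos hL0 _) hL0) (pow_pos hL0 _)]
      have h7 : 0 ≤ (x : ℝ) * Real.log x ^ A1 := mul_nonneg hx0 (pow_pos hL0 _).le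
      nlinarith
    have hpos : 0 ≤ x / Real.log x ^ (A1 + 1) := div_nonneg hx0 (pow_pos hL0 _).le
    by_cases h0 : (0 : Fin (m + 1)) ∈ J
    · have e : ∑ n ∈ Icc 1 y, ((pl J (Fin.cons c b : Fin (m + 1) → ℕ) n -
          pn (zA A' x) J (Fin.cons c b : Fin (m + 1) → ℕ) n : ℝ) : ℂ) * ex (n * ξ) =
          ∑ n ∈ Icc 1 y, (lp (n + c) : ℂ) *
            ((pl (Jm J) b n - pn (zA A' x) (Jm J) b n : ℝ) : ℂ) * ex (n * ξ) +
          ∑ n ∈ Icc 1 y, ((ff (zA A' x) (n + c) * pn (zA A' x) (Jm J) b n : ℝ) : ℂ) *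
            ex (n * ξ) := by
        rw [← Finset.sum_add_distrib]
        refine Finset.sum_congr rfl fun n _ => ?_
        rw [pl_cons_J, pn_cons_J, if_pos h0, if_pos h0]
        unfold ff
        push_cast
        ring
      rw [e]
      refine (norm_add_le _ _).trans ((add_le_add a1 a3).trans ?_)
      linarith
    · have e : ∑ n ∈ Icc 1 y, ((pl J (Fin.cons c b : Fin (m + 1) → ℕ) n -
          pn (zA A' x) J (Fin.cons c b : Fin (m + 1) → ℕ) n : ℝ) : ℂ) * ex (n * ξ) =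
          ∑ n ∈ Icc 1 y, (1 : ℂ) *
            ((pl (Jm J) b n - pn (zA A' x) (Jm J) b n : ℝ) : ℂ) * ex (n * ξ) := by
        refine Finset.sum_congr rfl fun n _ => ?_
        rw [pl_cons_J, pn_cons_J, if_neg h0, if_neg h0]
        simp only [one_mul]
      rw [e]
      refine a2.trans ?_
      linarith

end Pool.Agent.HLU
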