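import Pool.Agent.Lib.HLU.GenW
import Pool.Agent.Lib.HLU.NetY

/-!
# Almost all `b`: small weighted exponential sums at all frequencies of a set of polylog size
-/

set_option autoImplicit false

open Finset Filter

namespace Pool.Agent.HLU

open Pool.Agent.HLB Pool.Agent.HL Pool.Agent.HLT

private theorem card_est_w (k : ℝ) (F1 A A2 : ℕ) (L Q : ℝ) (hL1 : 1 ≤ L) (hQ : 0 ≤ Q) (hk : k ≤ L)
    (h : F1 + 1 + A ≤ A2) : k * (L ^ F1 * (Q / L ^ A2)) ≤ Q / L ^ A := by
  have hL0 : 0 < L := by linarith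
  have h5 : k * (L ^ F1 * (Q / L ^ A2)) ≤ L * (L ^ F1 * (Q / L ^ A2)) :=
    mul_le_mul_of_nonneg_right hk (by positivity)
  refine h5.trans ?_
  have h6 : L * (L ^ F1 * (Q / L ^ A2)) = Q * (L ^ (F1 + 1) / L ^ A2) := by
    rw [pow_succ]
    ring
  rw [h6, div_eq_mul_inv Q]
  apply mul_le_mul_of_nonneg_left _ hQ
  rw [← one_div, div_le_div_iff₀ (by positivity) (by positivity), one_mul, ← pow_add]
  exact pow_le_pow_right₀ hL1 h

theorem good_w (m K C0 A A1 : ℕ) (F : ℕ → ℕ) : ∃ b0 B : ℕ, ∀ A' : ℕ, ∀ᶠ x : ℕ in atTop,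
    SN A' B x → ∀ T' : Fin m → Finset ℕ, (∀ j, SpC F b0 x (T' j)) →
    ∀ w : ℕ → ℂ, (∀ n ∈ Icc 1 x, ‖w n‖ ≤ Real.log x ^ K) →
    ∀ Z : Finset ℝ, (Z.card : ℝ) ≤ Real.log x ^ C0 →
    ∃ E ⊆ Fintype.piFinset T', (E.card : ℝ) ≤ (∏ j, ((T' j).card : ℝ)) / Real.log x ^ A ∧
      ∀ b ∈ Fintype.piFinset T', b ∉ E → ∀ J : Finset (Fin m), ∀ ξ ∈ Z, ∀ y : ℕ, y ≤ x →
        ‖∑ n ∈ Icc 1 y, w n * ((pl J b n - pn (zA A' x) J b n : ℝ) : ℂ) * ex (n * ξ)‖ ≤
          x / Real.log x ^ A1 := by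
  classical
  obtain ⟨A2, hA2⟩ : ∃ A2 : ℕ, A2 = A + C0 + A1 + 1 := ⟨_, rfl⟩
  obtain ⟨b0, B, hgen⟩ := gen_w m K (4 * A2 + (K + 2 * m) + 6) F
  refine ⟨b0, B, fun A' => ?_⟩
  filter_upwards [hgen A', net_y (τ := Fin m → ℕ) A2 (K + 2 * m), DZ_inv_le A', ev_log 2,
    ev_log ((2 : ℝ) ^ m)] with x hg hnet hD hL hk hSN T' hT' w hw Z hZ
  set L : ℝ := Real.log x with hLdef
  have hL1 : 1 ≤ L := by linarith
  have hL0 : 0 < L := by linarith
  set Q : ℝ := ∏ j, ((T' j).card : ℝ) with hQ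
  have hQ0 : 0 ≤ Q := Finset.prod_nonneg fun j _ => Nat.cast_nonneg _
  have key : ∀ (J : Finset (Fin m)) (ξ : ℝ), ∃ E ⊆ Fintype.piFinset T', (E.card : ℝ) ≤ Q / L ^ A2 ∧
      ∀ t ∈ Fintype.piFinset T', t ∉ E → ∀ y : ℕ, y ≤ x →
      ‖∑ n ∈ Icc 1 y, w n * ((pl J t n - pn (zA A' x) J t n : ℝ) : ℂ) * ex (n * ξ)‖ ≤
        x / L ^ A2 := by
    intro J ξ
    apply hnet (Fintype.piFinset T') (fun t n =>
      w n * ((pl J t n - pn (zA A' x) J t n : ℝ) : ℂ) * ex (n * ξ)) Q hQ0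
    · intro t ht n hn
      rw [norm_mul, norm_mul, norm_ex, mul_one, Complex.norm_real, Real.norm_eq_abs, pow_add]
      have h1 : ∀ j ∈ J, n + t j ≤ 2 * x := by
        intro j _
        have h2 := (hT' j).1 (Fintype.mem_piFinset.1 ht j)
        rw [mem_range] at h2
        rw [mem_Icc] at hn
        omega
      have h3 : |pl J t n - pn (zA A' x) J t n| ≤ L ^ (2 * m) := by
        refine (pl_sub_pn_le hL hD J t n h1).trans ?_
        apply pow_le_pow_right₀ hL1
        have : J.card ≤ m := by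
          have := Finset.card_le_univ J
          simpa using this
        omega
      exact mul_le_mul (hw n hn) h3 (abs_nonneg _) (by positivity)
    · intro y hy
      have h1 := hg hSN T' hT' J (fun n => if n ≤ y then w n * ex (n * ξ) else 0) (by
          intro n hn
          split_ifs
          · rw [norm_mul, norm_ex, mul_one]
            exact hw n hn
          · rw [norm_zero]
            positivity)
      refine le_trans (le_of_eq ?_) h1
      apply Finset.sum_congr rfl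
      intro t _
      congr 2
      have h2 : Icc 1 y = (Icc 1 x).filter (fun n => n ≤ y) := by
        ext n
        simp only [mem_Icc, mem_filter]
        omega
      rw [h2, Finset.sum_filter]
      apply Finset.sum_congr rfl
      intro n _
      split_ifs
      · ring
      · rw [zero_mul]
  choose EE hE1 hE2 hE3 using key
  refine ⟨(Finset.univ : Finset (Finset (Fin m))).biUnion fun J => Z.biUnion fun ξ => EE J ξ,
    ?_, ?_, ?_⟩
  · intro t ht
    simp only [mem_biUnion] at ht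
    obtain ⟨J, _, ξ, _, h⟩ := ht
    exact hE1 J ξ h
  · have h1 : (((Finset.univ : Finset (Finset (Fin m))).biUnion fun J => Z.biUnion
        fun ξ => EE J ξ).card : ℝ) ≤ ∑ J : Finset (Fin m), ∑ ξ ∈ Z, ((EE J ξ).card : ℝ) := by
      have h2 : ((Finset.univ : Finset (Finset (Fin m))).biUnion fun J => Z.biUnion
        fun ξ => EE J ξ).card ≤ ∑ J : Finset (Fin m), ∑ ξ ∈ Z, (EE J ξ).card :=
        Finset.card_biUnion_le.trans (Finset.sum_le_sum fun i _ => Finset.card_biUnion_le)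
      exact_mod_cast h2
    have h3 : ∑ J : Finset (Fin m), ∑ ξ ∈ Z, ((EE J ξ).card : ℝ) ≤
        (2 : ℝ) ^ m * (L ^ C0 * (Q / L ^ A2)) := by
      have hq : 0 ≤ Q / L ^ A2 := div_nonneg hQ0 (pow_pos hL0 _).le
      calc ∑ J : Finset (Fin m), ∑ ξ ∈ Z, ((EE J ξ).card : ℝ)
          ≤ ∑ _J : Finset (Fin m), L ^ C0 * (Q / L ^ A2) := by
            apply Finset.sum_le_sum
            intro J _
            calc ∑ ξ ∈ Z, ((EE J ξ).card : ℝ) ≤ ∑ _ξ ∈ Z, Q / L ^ A2 :=
                  Finset.sum_le_sum fun ξ _ => hE2 J ξ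
              _ = (Z.card : ℝ) * (Q / L ^ A2) := by rw [Finset.sum_const, nsmul_eq_mul]
              _ ≤ L ^ C0 * (Q / L ^ A2) := mul_le_mul_of_nonneg_right hZ hq
        _ = (2 : ℝ) ^ m * (L ^ C0 * (Q / L ^ A2)) := by
            rw [Finset.sum_const, nsmul_eq_mul, Finset.card_univ, Fintype.card_finset,
              Fintype.card_fin]
            push_cast
            ring
    exact (h1.trans h3).trans (card_est_w ((2 : ℝ) ^ m) C0 A A2 L Q hL1 hQ0 hk (by omega))
  · intro b hb hbE J ξ hξ y hy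
    have h1 : b ∉ EE J ξ := by
      intro h
      apply hbE
      simp only [mem_biUnion]
      exact ⟨J, mem_univ J, ξ, hξ, h⟩
    refine (hE3 J ξ b hb h1 y hy).trans ?_
    exact div_le_div_of_nonneg_left (Nat.cast_nonneg _) (pow_pos hL0 _)
      (pow_le_pow_right₀ hL1 (by omega))

end Pool.Agent.HLU
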