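import Pool.Agent.Lib.HLT.EnC
import Pool.Agent.Lib.HLU.Abel
import Pool.Agent.Lib.HLU.Planch

/-!
# For good `b`: the sums over the set `T` of the prime indicator and of the model agree in `L^2`
(variant of `GridL2` by helper79, with a general length `Y`)
-/

set_option autoImplicit false

open Finset Filter

namespace Pool.Agent.HLU

open Pool.Agent.HLB Pool.Agent.HL Pool.Agent.HLT

private theorem inv_log_nonneg (u : ℕ) : 0 ≤ 1 / Real.log (u : ℝ) :=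
  one_div_nonneg.2 (Real.log_natCast_nonneg u)

private theorem inv_log_le (u : ℕ) : 1 / Real.log (u : ℝ) ≤ 2 := by
  rcases Nat.lt_or_ge u 2 with h | h
  · have h0 : Real.log (u : ℝ) = 0 := by
      interval_cases u
      · simp
      · simp
    rw [h0, div_zero]
    norm_num
  · have h1 : Real.log 2 ≤ Real.log (u : ℝ) :=
      Real.log_le_log (by norm_num) (by exact_mod_cast h)
    have h2 : (1 / 2 : ℝ) ≤ Real.log 2 := by
      have := Real.log_two_gt_d9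
      linarith
    rw [div_le_iff₀ (by linarith)]
    linarith

private theorem hl_nonneg' {ι : Type} (J : Finset ι) (t : ι → ℕ) (n : ℕ) : 0 ≤ hl J t n :=
  Finset.prod_nonneg fun _ _ => inv_log_nonneg _

private theorem hl_le' {ι : Type} (J : Finset ι) (t : ι → ℕ) (n : ℕ) :
    hl J t n ≤ 2 ^ J.card := by
  unfold hl
  calc ∏ i ∈ J, 1 / Real.log ((n + t i : ℕ) : ℝ) ≤ ∏ _i ∈ J, (2 : ℝ) :=
        Finset.prod_le_prod (fun i _ => inv_log_nonneg _) fun i _ => inv_log_le _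
    _ = 2 ^ J.card := by rw [Finset.prod_const]

private theorem num_est (m A2 F1 : ℕ) (L x C : ℝ) (hx : 0 ≤ x) (hL : 2 * 4 ^ (m + 1) ≤ L)
    (hC : 0 ≤ C) (hCF : C ≤ L ^ F1) :
    x * (L ^ (3 * m)) ^ 2 / (L ^ (3 * m + A2 + 1)) ^ 2 +
      C * (2 ^ (m + 2) * (x / L ^ (F1 + A2 + 1))) ^ 2 / (4 * x + 1) ≤ x / L ^ A2 := by
  have hL2 : 2 ≤ L := by
    have h1 : (1 : ℝ) ≤ 4 ^ (m + 1) := one_le_pow₀ (by norm_num)
    linarith
  have hL1 : 1 ≤ L := by linarith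
  have hL0 : 0 < L := by linarith
  have e1 : x * (L ^ (3 * m)) ^ 2 / (L ^ (3 * m + A2 + 1)) ^ 2 ≤ (x / L ^ A2) / 2 := by
    have h1 : (L ^ (3 * m + A2 + 1)) ^ 2 = (L ^ (3 * m)) ^ 2 * ((L ^ A2 * L ^ A2) * (L * L)) := by
      ring
    rw [h1, div_div, div_le_div_iff₀ (by positivity) (by positivity)]
    have h2 : 1 ≤ L ^ A2 := one_le_pow₀ hL1
    have h3 : 2 ≤ L ^ A2 * (L * L) := by
      have h4 : 2 ≤ L * L := by nlinarith
      nlinarith
    have h5 : 0 ≤ x * (L ^ (3 * m)) ^ 2 * L ^ A2 := by positivity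
    calc x * (L ^ (3 * m)) ^ 2 * (L ^ A2 * 2) = (x * (L ^ (3 * m)) ^ 2 * L ^ A2) * 2 := by ring
      _ ≤ (x * (L ^ (3 * m)) ^ 2 * L ^ A2) * (L ^ A2 * (L * L)) :=
          mul_le_mul_of_nonneg_left h3 h5
      _ = x * ((L ^ (3 * m)) ^ 2 * (L ^ A2 * L ^ A2 * (L * L))) := by ring
  have e2 : C * (2 ^ (m + 2) * (x / L ^ (F1 + A2 + 1))) ^ 2 / (4 * x + 1) ≤
      (x / L ^ A2) / 2 := by
    rcases hx.eq_or_lt with hx0 | hx0
    · rw [← hx0]
      simp
    have h1 : C * (2 ^ (m + 2) * (x / L ^ (F1 + A2 + 1))) ^ 2 / (4 * x + 1) ≤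
        L ^ F1 * (2 ^ (m + 2) * (x / L ^ (F1 + A2 + 1))) ^ 2 / (4 * x) := by
      apply div_le_div₀ (by positivity) _ (by positivity) (by linarith)
      exact mul_le_mul_of_nonneg_right hCF (by positivity)
    refine h1.trans ?_
    have h2 : L ^ F1 * (2 ^ (m + 2) * (x / L ^ (F1 + A2 + 1))) ^ 2 / (4 * x) =
        x * (4 ^ (m + 1)) / (L ^ F1 * (L ^ A2 * L ^ A2) * (L * L)) := by
      have h3 : ((2 : ℝ) ^ (m + 2)) ^ 2 = 4 * 4 ^ (m + 1) := by
        rw [← pow_mul, mul_comm (m + 2) 2, pow_mul]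
        norm_num
        ring
      have h4 : L ^ (F1 + A2 + 1) = L ^ F1 * L ^ A2 * L := by ring
      rw [mul_pow, h3, h4]
      field_simp
    rw [h2, div_div, div_le_div_iff₀ (by positivity) (by positivity)]
    have h5 : 1 ≤ L ^ A2 := one_le_pow₀ hL1
    have h6 : 1 ≤ L ^ F1 := one_le_pow₀ hL1
    have h7 : (4 : ℝ) ^ (m + 1) * 2 ≤ L ^ F1 * L ^ A2 * (L * L) := by
      have h8 : L ≤ L * L := by nlinarith
      have h9 : 1 ≤ L ^ F1 * L ^ A2 := by nlinarith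
      nlinarith
    calc x * 4 ^ (m + 1) * (L ^ A2 * 2) = (x * L ^ A2) * (4 ^ (m + 1) * 2) := by ring
      _ ≤ (x * L ^ A2) * (L ^ F1 * L ^ A2 * (L * L)) :=
          mul_le_mul_of_nonneg_left h7 (by positivity)
      _ = x * (L ^ F1 * (L ^ A2 * L ^ A2) * (L * L)) := by ring
  linarith

theorem grid_l2Y (m A2 : ℕ) (F : ℕ → ℕ) : ∃ b1 A1 : ℕ, ∀ A' : ℕ, ∀ᶠ x : ℕ in atTop,
    ∀ T : Finset ℕ, SpC F b1 x T → ∀ Y : ℕ, (∀ a ∈ T, Y + a ≤ x) → ∀ J : Finset (Fin m),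
    ∀ b : Fin m → ℕ, (∀ j, b j ≤ x) →
    (∀ ξ ∈ Spec (4 * x + 1) T (Real.log x ^ b1), ∀ y : ℕ, y ≤ x →
        ‖∑ n ∈ Icc 1 y, ((pl J b n - pn (zA A' x) J b n : ℝ) : ℂ) *
          ex (n * (ξ / ((4 * x + 1 : ℕ) : ℝ)))‖ ≤ x / Real.log x ^ A1) →
    ∑ n ∈ Icc 1 Y, (∑ a ∈ T, pl J b (n + a) * hl J b (n + a) -
        ∑ a ∈ T, pn (zA A' x) J b (n + a) * hl J b (n + a)) ^ 2 ≤
      (T.card : ℝ) ^ 2 * (x / Real.log x ^ A2) := by
  obtain ⟨b1, hb1⟩ : ∃ b1 : ℕ, b1 = 3 * m + A2 + 1 := ⟨_, rfl⟩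
  refine ⟨b1, F b1 + A2 + 1, fun A' => ?_⟩
  filter_upwards [DZ_inv_le A', ev_log 2, ev_log (2 * 4 ^ (m + 1))] with x hD hL hL4 T hT Y hTx J b
    hb hexp
  obtain ⟨L, hLdef⟩ : ∃ L : ℝ, L = Real.log x := ⟨_, rfl⟩
  rw [← hLdef] at hD hL hL4 hexp ⊢
  have hL1 : 1 ≤ L := by linarith
  have hL0 : 0 < L := by linarith
  have hJ : J.card ≤ m := by
    have := Finset.card_le_univ J
    simpa using this
  obtain ⟨z, hz⟩ : ∃ z : ℕ, z = zA A' x := ⟨_, rfl⟩
  rw [← hz] at hD hexp ⊢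
  have hmain := planch_spec x Y T hTx
    (fun n => (((pl J b n - pn z J b n) * hl J b n : ℝ) : ℂ)) (L ^ (3 * m))
    (2 ^ (m + 2) * (x / L ^ (F b1 + A2 + 1))) (L ^ b1) (pow_pos hL0 _)
    (by
      intro n hn
      rw [mem_Icc] at hn
      rw [Complex.norm_real, Real.norm_eq_abs, abs_mul, abs_of_nonneg (hl_nonneg' J b n)]
      have h1 : |pl J b n - pn z J b n| ≤ L ^ (2 * m) := by
        have h2 := pl_sub_pn_le (x := x) (z := z) (by rw [← hLdef]; exact hL)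
          (by rw [← hLdef]; exact hD) J b n (fun j _ => by have := hb j; omega)
        rw [← hLdef] at h2
        exact h2.trans (pow_le_pow_right₀ hL1 (by omega))
      have h3 : hl J b n ≤ L ^ m := by
        refine (hl_le' J b n).trans ?_
        exact (pow_le_pow_left₀ (by norm_num) hL _).trans (pow_le_pow_right₀ hL1 hJ)
      calc |pl J b n - pn z J b n| * hl J b n ≤ L ^ (2 * m) * L ^ m :=
            mul_le_mul h1 h3 (hl_nonneg' J b n) (by positivity)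
        _ = L ^ (3 * m) := by rw [← pow_add]; congr 1; ring)
    (by
      intro ξ hξ
      have h1 := abel_log J b (fun n => ((pl J b n - pn z J b n : ℝ) : ℂ) *
          ex (n * (ξ / ((4 * x + 1 : ℕ) : ℝ)))) 0 (x / L ^ (F b1 + A2 + 1)) x
          (fun y hy => by rw [mul_zero, sub_zero]; exact hexp ξ hξ y hy) x le_rfl
      rw [zero_mul, sub_zero, norm_zero, add_zero] at h1
      have h2 : ∑ n ∈ Icc 1 x, (((pl J b n - pn z J b n) * hl J b n : ℝ) : ℂ) *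
          ex (n * (ξ / ((4 * x + 1 : ℕ) : ℝ))) = ∑ n ∈ Icc 1 x,
          ((pl J b n - pn z J b n : ℝ) : ℂ) * ex (n * (ξ / ((4 * x + 1 : ℕ) : ℝ))) *
            (hl J b n : ℂ) := by
        apply Finset.sum_congr rfl
        intro n _
        push_cast
        ring
      rw [h2]
      refine h1.trans ?_
      apply mul_le_mul_of_nonneg_right _ (by positivity)
      exact pow_le_pow_right₀ (by norm_num) (by omega))
  have hlhs : ∑ n ∈ Icc 1 Y, (∑ a ∈ T, pl J b (n + a) * hl J b (n + a) -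
        ∑ a ∈ T, pn z J b (n + a) * hl J b (n + a)) ^ 2 =
      ∑ n ∈ Icc 1 Y, ‖∑ a ∈ T, (((pl J b (n + a) - pn z J b (n + a)) *
        hl J b (n + a) : ℝ) : ℂ)‖ ^ 2 := by
    apply Finset.sum_congr rfl
    intro n _
    rw [← Complex.ofReal_sum, Complex.norm_real, Real.norm_eq_abs, sq_abs, ← Finset.sum_sub_distrib]
    congr 1
    apply Finset.sum_congr rfl
    intro a _
    ring
  rw [hlhs]
  refine hmain.trans ?_
  apply mul_le_mul_of_nonneg_left _ (by positivity)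
  have h1 := num_est m A2 (F b1) L x ((Spec (4 * x + 1) T (L ^ b1)).card : ℝ) (Nat.cast_nonneg _)
    hL4 (Nat.cast_nonneg _) (by
      have := hT.2 b1 le_rfl
      rw [← hLdef] at this
      exact this)
  rw [← hb1] at h1
  push_cast
  exact h1

end Pool.Agent.HLU
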