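import Pool.Agent.Lib.HLU.Coinc0
import Pool.Agent.Lib.HLU.Core
import Pool.Agent.Lib.HLU.GoodC

/-!
# Bipartite patterns of shifts: almost all `b`, average over `a`
-/

set_option autoImplicit false

open Finset Filter

namespace Pool.Agent.HLU

open Pool.Agent.HLB Pool.Agent.HL Pool.Agent.HLT

theorem core (k m K A : ℕ) (P : Finset (Fin (k + 1) × Fin m)) (F : ℕ → ℕ) :
    ∃ bg Ag base A1 : ℕ, ∀ A' : ℕ, ∀ᶠ x : ℕ in atTop,
    ∀ T : Fin k → Finset ℕ, (∀ i, SpC F (max bg (lv F base k)) x (T i)) → ∀ β : Fin m → ℕ, (∀ j, β j ≤ x) →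
    ∀ w : ℕ → ℂ, (∀ n ∈ Icc 1 x, ‖w n‖ ≤ Real.log x ^ K) →
    (∀ i : Fin k, ∀ ξ ∈ Spec (4 * x + 1) (T i) (Real.log x ^ bg), ∀ y : ℕ, y ≤ x →
      ‖∑ n ∈ Icc 1 y, ((pl (row P i.succ) β n - pn (zA A' x) (row P i.succ) β n : ℝ) : ℂ) *
        ex (n * (ξ / ((4 * x + 1 : ℕ) : ℝ)))‖ ≤ x / Real.log x ^ Ag) →
    (∀ ξ : Fin k → ℕ, (∀ i, ξ i ∈ Spec (4 * x + 1) (T i) (Real.log x ^ lv F base i)) →
      ∀ y : ℕ, y ≤ x → ‖∑ n ∈ Icc 1 y, w n *
        ((pl (row P 0) β n - pn (zA A' x) (row P 0) β n : ℝ) : ℂ) *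
        ex (n * (-(∑ i, (ξ i : ℝ)) / ((4 * x + 1 : ℕ) : ℝ)))‖ ≤ x / Real.log x ^ A1) →
    ∀ y : ℕ, y ≤ x → (∀ i, ∀ a ∈ T i, y + a ≤ x) →
    ‖∑ a ∈ Fintype.piFinset T, ∑ n ∈ Icc 1 y, w n *
        ((∏ p ∈ P, G0 (n + ((Fin.cons 0 a : Fin (k + 1) → ℕ) p.1 + β p.2)) -
          ∏ p ∈ P, G1 (zA A' x) (n + ((Fin.cons 0 a : Fin (k + 1) → ℕ) p.1 + β p.2)) : ℝ) : ℂ)‖ ≤
      (∏ i, ((T i).card : ℝ)) * (x / Real.log x ^ A) := by
  classical
  obtain ⟨bg, Ag, h1⟩ := core_tel k m (A + K + 1) F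
  obtain ⟨base, A1, h2⟩ := core_trunc k m K (A + 1) F
  refine ⟨bg, Ag, base, A1, fun A' => ?_⟩
  filter_upwards [h1 A', h2 A', ev_log 2] with x h1 h2 hL2
  intro T hT β hβ w hw H1 H2 y hy hT2
  have h3 := h1 T (fun i => (hT i).mono (le_max_left _ _)) (fun i => row P i.succ) β hβ H1 y hy hT2
  have h4 := h2 T (fun i => (hT i).mono (le_max_right _ _)) (row P 0)
    (fun i => row P i.succ) β hβ w hw H2 y hy hT2
  set z := zA A' x with hz
  obtain ⟨L, hLdef⟩ : ∃ L, L = Real.log x := ⟨_, rfl⟩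
  rw [← hLdef] at hL2 hw h3 h4 ⊢
  have hL0 : 0 < L := by linarith
  have hL1 : 1 ≤ L := by linarith
  have hLp : ∀ n : ℕ, 0 < L ^ n := fun n => pow_pos hL0 n
  have hx0 : (0 : ℝ) ≤ x := Nat.cast_nonneg x
  have hprod0 : 0 ≤ ∏ i, ((T i).card : ℝ) := Finset.prod_nonneg fun _ _ => Nat.cast_nonneg _
  -- rewriting
  set U0 : ℕ → ℝ := fun n => ∏ j ∈ row P 0, G0 (n + β j) with hU0
  set V0 : ℕ → ℝ := fun n => ∏ j ∈ row P 0, G1 z (n + β j) with hV0
  set S : ℕ → ℝ := fun n => ∏ i : Fin k, ∑ a ∈ T i, ∏ j ∈ row P i.succ, G0 (n + a + β j) with hS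
  set S' : ℕ → ℝ := fun n => ∏ i : Fin k, ∑ a ∈ T i, ∏ j ∈ row P i.succ, G1 z (n + a + β j) with hS'
  have e : ∑ a ∈ Fintype.piFinset T, ∑ n ∈ Icc 1 y, w n *
        ((∏ p ∈ P, G0 (n + ((Fin.cons 0 a : Fin (k + 1) → ℕ) p.1 + β p.2)) -
          ∏ p ∈ P, G1 z (n + ((Fin.cons 0 a : Fin (k + 1) → ℕ) p.1 + β p.2)) : ℝ) : ℂ) =
      ∑ n ∈ Icc 1 y, w n * ((U0 n * (S n - S' n) : ℝ) : ℂ) +
      ∑ n ∈ Icc 1 y, (w n * ((U0 n - V0 n : ℝ) : ℂ)) * ((S' n : ℝ) : ℂ) := by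
    rw [Finset.sum_comm, ← Finset.sum_add_distrib]
    refine Finset.sum_congr rfl fun n _ => ?_
    rw [← Finset.mul_sum]
    have e1 : ∑ a ∈ Fintype.piFinset T,
        ((∏ p ∈ P, G0 (n + ((Fin.cons 0 a : Fin (k + 1) → ℕ) p.1 + β p.2)) -
          ∏ p ∈ P, G1 z (n + ((Fin.cons 0 a : Fin (k + 1) → ℕ) p.1 + β p.2)) : ℝ) : ℂ) =
        ((U0 n * S n - V0 n * S' n : ℝ) : ℂ) := by
      rw [← Complex.ofReal_sum, Finset.sum_sub_distrib, ← expand0 P T β G0 n,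
        ← expand0 P T β (G1 z) n]
      rfl
    rw [e1]
    push_cast
    ring
  rw [e]
  refine (norm_add_le _ _).trans ?_
  have f1 : ‖∑ n ∈ Icc 1 y, w n * ((U0 n * (S n - S' n) : ℝ) : ℂ)‖ ≤
      L ^ K * ((∏ i, ((T i).card : ℝ)) * (x / L ^ (A + K + 1))) := by
    refine (norm_sum_le _ _).trans ?_
    calc ∑ n ∈ Icc 1 y, ‖w n * ((U0 n * (S n - S' n) : ℝ) : ℂ)‖
        ≤ ∑ n ∈ Icc 1 y, L ^ K * |S n - S' n| := by
          refine Finset.sum_le_sum fun n hn => ?_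
          rw [norm_mul, Complex.norm_real, Real.norm_eq_abs, abs_mul]
          have c1 := prodG0_le (row P 0) β n
          have c2 := prodG_nonneg (row P 0) G0 β n G0_nonneg
          have c3 : |U0 n| * |S n - S' n| ≤ |S n - S' n| := by
            rw [abs_of_nonneg c2]
            exact mul_le_of_le_one_left (abs_nonneg _) c1
          refine mul_le_mul (hw n ?_) c3 (mul_nonneg (abs_nonneg _) (abs_nonneg _)) (hLp _).le
          rw [mem_Icc] at hn ⊢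
          omega
      _ = L ^ K * ∑ n ∈ Icc 1 y, |S n - S' n| := by rw [Finset.mul_sum]
      _ ≤ _ := mul_le_mul_of_nonneg_left h3 (hLp _).le
  have f2 : ‖∑ n ∈ Icc 1 y, (w n * ((U0 n - V0 n : ℝ) : ℂ)) * ((S' n : ℝ) : ℂ)‖ ≤
      (∏ i, ((T i).card : ℝ)) * (x / L ^ (A + 1)) := by
    refine le_trans (le_of_eq ?_) h4
    congr 1
    refine Finset.sum_congr rfl fun n _ => ?_
    simp only [hS', hU0, hV0]
    push_cast
    rfl
  refine (add_le_add f1 f2).trans ?_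
  have f3 : L ^ K * (x / L ^ (A + K + 1)) = x / L ^ (A + 1) := by
    rw [show A + K + 1 = K + (A + 1) by ring, pow_add L K (A + 1)]
    have h5 := (hLp K).ne'
    have h6 := (hLp (A + 1)).ne'
    field_simp
  have f4 : x / L ^ (A + 1) + x / L ^ (A + 1) ≤ x / L ^ A := by
    rw [← two_mul, pow_succ, ← mul_div_assoc, div_le_div_iff₀ (mul_pos (hLp _) hL0) (hLp _)]
    have h8 : 0 ≤ (x : ℝ) * L ^ A := mul_nonneg hx0 (hLp _).le
    nlinarith
  calc L ^ K * ((∏ i, ((T i).card : ℝ)) * (x / L ^ (A + K + 1))) +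
        (∏ i, ((T i).card : ℝ)) * (x / L ^ (A + 1))
      = (∏ i, ((T i).card : ℝ)) * (L ^ K * (x / L ^ (A + K + 1)) + x / L ^ (A + 1)) := by ring
    _ = (∏ i, ((T i).card : ℝ)) * (x / L ^ (A + 1) + x / L ^ (A + 1)) := by rw [f3]
    _ ≤ _ := mul_le_mul_of_nonneg_left f4 hprod0

/-- First set of frequencies. -/
noncomputable def ZA {k : ℕ} (x : ℕ) (T : Fin k → Finset ℕ) (L1 : ℝ) : Finset ℝ := by
  classical
  exact univ.biUnion fun i => (Spec (4 * x + 1) (T i) L1).image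
    (fun ξ : ℕ => (ξ : ℝ) / ((4 * x + 1 : ℕ) : ℝ))

/-- Second set of frequencies. -/
noncomputable def ZB {k : ℕ} (x : ℕ) (T : Fin k → Finset ℕ) (L1 : Fin k → ℝ) : Finset ℝ := by
  classical
  exact (Fintype.piFinset fun i => Spec (4 * x + 1) (T i) (L1 i)).image
    (fun ξ : Fin k → ℕ => -(∑ i, (ξ i : ℝ)) / ((4 * x + 1 : ℕ) : ℝ))

lemma mem_ZA {k x : ℕ} {T : Fin k → Finset ℕ} {L1 : ℝ} {i : Fin k} {ξ : ℕ}
    (h : ξ ∈ Spec (4 * x + 1) (T i) L1) : (ξ : ℝ) / ((4 * x + 1 : ℕ) : ℝ) ∈ ZA x T L1 := by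
  classical
  unfold ZA
  exact Finset.mem_biUnion.mpr ⟨i, Finset.mem_univ _, Finset.mem_image_of_mem _ h⟩

lemma mem_ZB {k x : ℕ} {T : Fin k → Finset ℕ} {L1 : Fin k → ℝ} {ξ : Fin k → ℕ}
    (h : ∀ i, ξ i ∈ Spec (4 * x + 1) (T i) (L1 i)) :
    -(∑ i, (ξ i : ℝ)) / ((4 * x + 1 : ℕ) : ℝ) ∈ ZB x T L1 := by
  classical
  unfold ZB
  exact Finset.mem_image_of_mem _ (Fintype.mem_piFinset.mpr h)

lemma card_ZA {k x : ℕ} (T : Fin k → Finset ℕ) (F : ℕ → ℕ) (b : ℕ) (_hL : 1 ≤ Real.log x)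
    (hk : (k : ℝ) ≤ Real.log x)
    (h : ∀ i, SpC F b x (T i)) : ((ZA x T (Real.log x ^ b)).card : ℝ) ≤ Real.log x ^ (F b + 1) := by
  classical
  have h1 : (ZA x T (Real.log x ^ b)).card ≤ ∑ i, (Spec (4 * x + 1) (T i) (Real.log x ^ b)).card := by
    unfold ZA
    exact Finset.card_biUnion_le.trans (Finset.sum_le_sum fun i _ => Finset.card_image_le)
  have h2 : ((ZA x T (Real.log x ^ b)).card : ℝ) ≤
      ∑ i, ((Spec (4 * x + 1) (T i) (Real.log x ^ b)).card : ℝ) := by exact_mod_cast h1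
  refine h2.trans ?_
  calc ∑ i, ((Spec (4 * x + 1) (T i) (Real.log x ^ b)).card : ℝ) ≤
        ∑ _i : Fin k, Real.log x ^ F b := Finset.sum_le_sum fun i _ => (h i).2 b le_rfl
    _ = k * Real.log x ^ F b := by
        rw [Finset.sum_const, Finset.card_univ, Fintype.card_fin, nsmul_eq_mul]
    _ ≤ Real.log x * Real.log x ^ F b :=
        mul_le_mul_of_nonneg_right hk (pow_nonneg (by linarith) _)
    _ = Real.log x ^ (F b + 1) := by rw [pow_succ, mul_comm]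

lemma card_ZB {k x : ℕ} (T : Fin k → Finset ℕ) (F : ℕ → ℕ) (base : ℕ) (hL : 1 ≤ Real.log x)
    (h : ∀ i, SpC F (lv F base k) x (T i)) :
    ((ZB x T (fun i => Real.log x ^ lv F base i)).card : ℝ) ≤
      Real.log x ^ (∑ i ∈ range k, F (lv F base i)) := by
  classical
  have h1 : (ZB x T (fun i => Real.log x ^ lv F base i)).card ≤
      ∏ i : Fin k, (Spec (4 * x + 1) (T i) (Real.log x ^ lv F base i)).card := by
    unfold ZB
    refine Finset.card_image_le.trans ?_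
    rw [Fintype.card_piFinset]
  have h2 : ((ZB x T (fun i => Real.log x ^ lv F base i)).card : ℝ) ≤
      ∏ i : Fin k, ((Spec (4 * x + 1) (T i) (Real.log x ^ lv F base i)).card : ℝ) := by
    exact_mod_cast h1
  refine h2.trans ?_
  calc ∏ i : Fin k, ((Spec (4 * x + 1) (T i) (Real.log x ^ lv F base i)).card : ℝ)
      ≤ ∏ i : Fin k, Real.log x ^ F (lv F base i) :=
        Finset.prod_le_prod (fun _ _ => Nat.cast_nonneg _) fun i _ =>
          (h i).2 _ (lv_mono F base i.2.le)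
    _ = Real.log x ^ (∑ i ∈ range k, F (lv F base i)) := by
        rw [Finset.prod_pow_eq_pow_sum, Finset.sum_range]

/-- Patterns, arbitrary weight, no corner. -/
theorem pattern_w (k m K A : ℕ) (P : Finset (Fin (k + 1) × Fin (m + 1)))
    (hP : ((0 : Fin (k + 1)), (0 : Fin (m + 1))) ∉ P) (F : ℕ → ℕ) : ∃ b0 B : ℕ, ∀ A' : ℕ,
    ∀ᶠ x : ℕ in atTop, SN A' B x → ∀ T : Fin k → Finset ℕ, (∀ i, SpC F b0 x (T i)) →
    ∀ T' : Fin m → Finset ℕ, (∀ j, SpC F b0 x (T' j)) →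
    ∀ c : ℕ, c ≤ x → ∀ w : ℕ → ℂ, (∀ n ∈ Icc 1 x, ‖w n‖ ≤ Real.log x ^ K) →
    ∃ E ⊆ Fintype.piFinset T', (E.card : ℝ) ≤ (∏ j, ((T' j).card : ℝ)) / Real.log x ^ A ∧
      ∀ b ∈ Fintype.piFinset T', b ∉ E → ∀ y : ℕ, y ≤ x → (∀ i, ∀ a ∈ T i, y + a ≤ x) →
      ‖∑ a ∈ Fintype.piFinset T, ∑ n ∈ Icc 1 y, w n *
        ((∏ p ∈ P, G0 (n + ((Fin.cons 0 a : Fin (k + 1) → ℕ) p.1 +
            (Fin.cons c b : Fin (m + 1) → ℕ) p.2)) -
          ∏ p ∈ P, G1 (zA A' x) (n + ((Fin.cons 0 a : Fin (k + 1) → ℕ) p.1 +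
            (Fin.cons c b : Fin (m + 1) → ℕ) p.2)) : ℝ) : ℂ)‖ ≤
      (∏ i, ((T i).card : ℝ)) * (x / Real.log x ^ A) := by
  classical
  obtain ⟨bg, Ag, base, A1, hcore⟩ := core k (m + 1) K A P F
  obtain ⟨b1, B1, h1⟩ := good_c m (F bg + 1) (A + 1) Ag F
  obtain ⟨b2, B2, h2⟩ := good_w m K (∑ i ∈ range k, F (lv F base i)) (A + 1) A1 F
  refine ⟨max (max b1 b2) (max bg (lv F base k)), max B1 B2, fun A' => ?_⟩
  filter_upwards [hcore A', h1 A', h2 A', ev_log 2, ev_log (k : ℝ)] with x hcore h1 h2 hL2 hLk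
  intro hSN T hT T' hT' c hc w hw
  have hL1 : 1 ≤ Real.log x := by linarith
  have hL0 : 0 < Real.log x := by linarith
  obtain ⟨E1, hE1, hE1c, hE1'⟩ := h1 (hSN.mono (le_max_left _ _) hL1) T'
    (fun j => (hT' j).mono ((le_max_left _ _).trans (le_max_left _ _))) c hc
    (ZA x T (Real.log x ^ bg)) (card_ZA T F bg hL1 hLk fun i =>
      (hT i).mono ((le_max_left _ _).trans (le_max_right _ _)))
  obtain ⟨E2, hE2, hE2c, hE2'⟩ := h2 (hSN.mono (le_max_right _ _) hL1) T'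
    (fun j => (hT' j).mono ((le_max_right _ _).trans (le_max_left _ _))) w hw
    (ZB x T (fun i => Real.log x ^ lv F base i)) (card_ZB T F base hL1 fun i =>
      (hT i).mono ((le_max_right _ _).trans (le_max_right _ _)))
  refine ⟨E1 ∪ E2, Finset.union_subset hE1 hE2, ?_, ?_⟩
  · have h5 : ((E1 ∪ E2).card : ℝ) ≤ E1.card + E2.card := by
      exact_mod_cast Finset.card_union_le E1 E2
    have h6 : 0 ≤ ∏ j, ((T' j).card : ℝ) := Finset.prod_nonneg fun _ _ => Nat.cast_nonneg _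
    refine h5.trans ((add_le_add hE1c hE2c).trans ?_)
    rw [← two_mul, pow_succ, ← mul_div_assoc,
      div_le_div_iff₀ (mul_pos (pow_pos hL0 _) hL0) (pow_pos hL0 _)]
    have h7 : 0 ≤ (∏ j, ((T' j).card : ℝ)) * Real.log x ^ A := mul_nonneg h6 (pow_pos hL0 _).le
    nlinarith
  · intro b hb hbE y hy hT2
    rw [Finset.mem_union, not_or] at hbE
    have hβ : ∀ j, (Fin.cons c b : Fin (m + 1) → ℕ) j ≤ x := by
      intro j
      refine Fin.cases ?_ ?_ j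
      · rw [Fin.cons_zero]
        exact hc
      · intro j
        have h7 := Fintype.mem_piFinset.mp hb j
        have h8 := Finset.mem_range.mp ((hT' j).1 h7)
        rw [Fin.cons_succ]
        omega
    have hrow : (0 : Fin (m + 1)) ∉ row P 0 := by
      unfold row
      rw [Finset.mem_filter]
      exact fun h => hP h.2
    refine hcore T (fun i => (hT i).mono (le_max_right _ _)) _ hβ w hw ?_ ?_ y hy hT2
    · intro i ξ hξ y hy
      exact hE1' b hb hbE.1 (row P i.succ) _ (mem_ZA hξ) y hy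
    · intro ξ hξ y hy
      have h9 := hE2' b hb hbE.2 (Jm (row P 0)) _ (mem_ZB hξ) y hy
      refine le_trans (le_of_eq ?_) h9
      congr 1
      refine Finset.sum_congr rfl fun n _ => ?_
      rw [pl_cons_J, pn_cons_J, if_neg hrow, if_neg hrow, one_mul, one_mul]

/-- Patterns, no weight, with the corner. -/
theorem pattern_1 (k m A : ℕ) (P : Finset (Fin (k + 1) × Fin (m + 1)))
    (F : ℕ → ℕ) : ∃ b0 B : ℕ, ∀ A' : ℕ,
    ∀ᶠ x : ℕ in atTop, SN A' B x → ∀ T : Fin k → Finset ℕ, (∀ i, SpC F b0 x (T i)) →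
    ∀ T' : Fin m → Finset ℕ, (∀ j, SpC F b0 x (T' j)) →
    ∀ c : ℕ, c ≤ x →
    ∃ E ⊆ Fintype.piFinset T', (E.card : ℝ) ≤ (∏ j, ((T' j).card : ℝ)) / Real.log x ^ A ∧
      ∀ b ∈ Fintype.piFinset T', b ∉ E → ∀ y : ℕ, y ≤ x → (∀ i, ∀ a ∈ T i, y + a ≤ x) →
      |∑ a ∈ Fintype.piFinset T, ∑ n ∈ Icc 1 y,
        (∏ p ∈ P, G0 (n + ((Fin.cons 0 a : Fin (k + 1) → ℕ) p.1 +
            (Fin.cons c b : Fin (m + 1) → ℕ) p.2)) -
          ∏ p ∈ P, G1 (zA A' x) (n + ((Fin.cons 0 a : Fin (k + 1) → ℕ) p.1 +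
            (Fin.cons c b : Fin (m + 1) → ℕ) p.2)))| ≤
      (∏ i, ((T i).card : ℝ)) * (x / Real.log x ^ A) := by
  classical
  obtain ⟨bg, Ag, base, A1, hcore⟩ := core k (m + 1) 0 A P F
  obtain ⟨b1, B1, h1⟩ := good_c m (F bg + 1) (A + 1) Ag F
  obtain ⟨b2, B2, h2⟩ := good_c m (∑ i ∈ range k, F (lv F base i)) (A + 1) A1 F
  refine ⟨max (max b1 b2) (max bg (lv F base k)), max B1 B2, fun A' => ?_⟩
  filter_upwards [hcore A', h1 A', h2 A', ev_log 2, ev_log (k : ℝ)] with x hcore h1 h2 hL2 hLk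
  intro hSN T hT T' hT' c hc
  have hL1 : 1 ≤ Real.log x := by linarith
  have hL0 : 0 < Real.log x := by linarith
  obtain ⟨E1, hE1, hE1c, hE1'⟩ := h1 (hSN.mono (le_max_left _ _) hL1) T'
    (fun j => (hT' j).mono ((le_max_left _ _).trans (le_max_left _ _))) c hc
    (ZA x T (Real.log x ^ bg)) (card_ZA T F bg hL1 hLk fun i =>
      (hT i).mono ((le_max_left _ _).trans (le_max_right _ _)))
  obtain ⟨E2, hE2, hE2c, hE2'⟩ := h2 (hSN.mono (le_max_right _ _) hL1) T'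
    (fun j => (hT' j).mono ((le_max_right _ _).trans (le_max_left _ _))) c hc
    (ZB x T (fun i => Real.log x ^ lv F base i)) (card_ZB T F base hL1 fun i =>
      (hT i).mono ((le_max_right _ _).trans (le_max_right _ _)))
  refine ⟨E1 ∪ E2, Finset.union_subset hE1 hE2, ?_, ?_⟩
  · have h5 : ((E1 ∪ E2).card : ℝ) ≤ E1.card + E2.card := by
      exact_mod_cast Finset.card_union_le E1 E2
    have h6 : 0 ≤ ∏ j, ((T' j).card : ℝ) := Finset.prod_nonneg fun _ _ => Nat.cast_nonneg _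
    refine h5.trans ((add_le_add hE1c hE2c).trans ?_)
    rw [← two_mul, pow_succ, ← mul_div_assoc,
      div_le_div_iff₀ (mul_pos (pow_pos hL0 _) hL0) (pow_pos hL0 _)]
    have h7 : 0 ≤ (∏ j, ((T' j).card : ℝ)) * Real.log x ^ A := mul_nonneg h6 (pow_pos hL0 _).le
    nlinarith
  · intro b hb hbE y hy hT2
    rw [Finset.mem_union, not_or] at hbE
    have hβ : ∀ j, (Fin.cons c b : Fin (m + 1) → ℕ) j ≤ x := by
      intro j
      refine Fin.cases ?_ ?_ j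
      · rw [Fin.cons_zero]
        exact hc
      · intro j
        have h7 := Fintype.mem_piFinset.mp hb j
        have h8 := Finset.mem_range.mp ((hT' j).1 h7)
        rw [Fin.cons_succ]
        omega
    have h9 := hcore T (fun i => (hT i).mono (le_max_right _ _)) _ hβ (fun _ => 1)
      (fun n _ => by rw [norm_one, pow_zero]) ?_ ?_ y hy hT2
    · refine le_trans (le_of_eq ?_) h9
      rw [← Real.norm_eq_abs, ← Complex.norm_real]
      congr 1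
      push_cast
      simp only [one_mul]
    · intro i ξ hξ y hy
      exact hE1' b hb hbE.1 (row P i.succ) _ (mem_ZA hξ) y hy
    · intro ξ hξ y hy
      have h10 := hE2' b hb hbE.2 (row P 0) _ (mem_ZB hξ) y hy
      refine le_trans (le_of_eq ?_) h10
      congr 1
      refine Finset.sum_congr rfl fun n _ => ?_
      rw [one_mul]

end Pool.Agent.HLU
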