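import Pool.Agent.Lib.HLU.FinalA
import Pool.Agent.Lib.HLU.Pattern
import Pool.Agent.Lib.HLU.SpcLow

/-!
# Bipartite patterns of shifts: counting with the singular series
-/

set_option autoImplicit false

open Finset Filter

namespace Pool.Agent.HLU

open Pool.Agent.HLB Pool.Agent.HL Pool.Agent.HLT

/-- The shifts `a i + b j`, `(i, j) ∈ P`. -/
def sh {k m : ℕ} (P : Finset (Fin k × Fin m)) (a : Fin k → ℕ) (b : Fin m → ℕ) : P → ℕ :=
  fun p => a p.1.1 + b p.1.2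

lemma prod_sh {k m : ℕ} (P : Finset (Fin k × Fin m)) (a : Fin k → ℕ) (b : Fin m → ℕ)
    (G : ℕ → ℝ) (n : ℕ) :
    ∏ p ∈ P, G (n + (a p.1 + b p.2)) = ∏ p : P, G (n + sh P a b p) := by
  unfold sh
  rw [← Finset.prod_coe_sort P (fun p => G (n + (a p.1 + b p.2)))]

lemma sh_inj {k m : ℕ} (P : Finset (Fin k × Fin m)) (a : Fin k → ℕ) (b : Fin m → ℕ) :
    Function.Injective (sh P a b) ↔
      Set.InjOn (fun p : Fin k × Fin m => a p.1 + b p.2) (P : Set (Fin k × Fin m)) := by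
  constructor
  · intro h p hp q hq hpq
    have := @h ⟨p, Finset.mem_coe.mp hp⟩ ⟨q, Finset.mem_coe.mp hq⟩ hpq
    exact congrArg Subtype.val this
  · intro h p q hpq
    exact Subtype.ext (h (Finset.mem_coe.mpr p.2) (Finset.mem_coe.mpr q.2) hpq)

theorem pattern_count (k m A : ℕ) (P : Finset (Fin (k + 1) × Fin (m + 1))) (F : ℕ → ℕ) :
    ∃ b0 : ℕ, ∀ᶠ x : ℕ in atTop, ∀ T : Fin k → Finset ℕ, (∀ i, SpC F b0 x (T i)) →
    ∀ T' : Fin m → Finset ℕ, (∀ j, SpC F b0 x (T' j)) →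
    ∀ c : ℕ, c ≤ x →
    ∃ E ⊆ Fintype.piFinset T', (E.card : ℝ) ≤ (∏ j, ((T' j).card : ℝ)) / Real.log x ^ A ∧
      ∀ b ∈ Fintype.piFinset T', b ∉ E → ∀ D : Finset (Fin k → ℕ),
        (∀ a, a ∈ D ↔ a ∈ Fintype.piFinset T ∧ Function.Injective
          (sh P (Fin.cons 0 a : Fin (k + 1) → ℕ) (Fin.cons c b : Fin (m + 1) → ℕ))) →
        ∀ y : ℕ, y ≤ x → (∀ i, ∀ a ∈ T i, y + a ≤ x) →
        |∑ a ∈ D, ((((Icc 1 y).filter (fun n : ℕ => ∀ p : P, (n +
            sh P (Fin.cons 0 a : Fin (k + 1) → ℕ) (Fin.cons c b : Fin (m + 1) → ℕ) p).Prime)).card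
              : ℝ) -
            SI (sh P (Fin.cons 0 a : Fin (k + 1) → ℕ) (Fin.cons c b : Fin (m + 1) → ℕ)) *
              ∑ n ∈ Icc 2 y, hl univ
                (sh P (Fin.cons 0 a : Fin (k + 1) → ℕ) (Fin.cons c b : Fin (m + 1) → ℕ)) n)| ≤
          (∏ i, ((T i).card : ℝ)) * (x / Real.log x ^ A) := by
  classical
  obtain ⟨r, hr⟩ : ∃ r, r = P.card := ⟨_, rfl⟩
  obtain ⟨b1, B, hpat⟩ := pattern_1 k m (A + 2) P F
  obtain ⟨A', hA', hSN⟩ := sn_exists ((A + 3) + r + 6) B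
  obtain ⟨b2, hb2⟩ : ∃ b2, b2 = r + A + 4 := ⟨_, rfl⟩
  refine ⟨max b1 b2, ?_⟩
  filter_upwards [hpat A', hSN, model_y r A' (A + 3) hA', sing_upper r,
    ev_pow (r + 1) (A + 3), ev_log (2 ^ (r + 3)), ev_log (2 * r ^ 2 : ℝ), DZ_inv_le A',
    spc_low F b2 b2 le_rfl, eventually_ge_atTop 2, ev_log 2]
    with x hpat hSN hmod hsing hpow hLr hLk hD hlow hx2 hL2
  intro T hT T' hT' c hc
  obtain ⟨E, hE, hEc, hE'⟩ := hpat hSN T (fun i => (hT i).mono (le_max_left _ _)) T'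
    (fun j => (hT' j).mono (le_max_left _ _)) c hc
  have hG1 : ∀ n, G1 (zA A' x) n ≤ Real.log x ^ 2 := G1_le hL2 hD
  obtain ⟨L, hLdef⟩ : ∃ L, L = Real.log x := ⟨_, rfl⟩
  rw [← hLdef] at hmod hsing hpow hLr hLk hlow hL2 hEc hE' hG1 ⊢
  have hL0 : 0 < L := by linarith
  have hL1 : 1 ≤ L := by linarith
  have hLp : ∀ n : ℕ, 0 < L ^ n := fun n => pow_pos hL0 n
  have hx0 : (0 : ℝ) < x := by
    have : 0 < x := by omega
    exact_mod_cast this
  have hQ'0 : 0 ≤ ∏ j, ((T' j).card : ℝ) := Finset.prod_nonneg fun _ _ => Nat.cast_nonneg _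
  have hprod0 : 0 ≤ ∏ i, ((T i).card : ℝ) := Finset.prod_nonneg fun _ _ => Nat.cast_nonneg _
  refine ⟨E, hE, hEc.trans (div_le_div_of_nonneg_left hQ'0 (hLp _)
    (pow_le_pow_right₀ hL1 (by omega))), ?_⟩
  intro b hb hbE D hDef y hy hT2
  have hRHS : 0 ≤ (∏ i, ((T i).card : ℝ)) * (x / L ^ A) :=
    mul_nonneg hprod0 (div_nonneg hx0.le (hLp _).le)
  by_cases hDe : D = ∅
  · rw [hDe, Finset.sum_empty, abs_zero]
    exact hRHS
  obtain ⟨a0, ha0⟩ := Finset.nonempty_iff_ne_empty.mpr hDe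
  rw [hDef] at ha0
  obtain ⟨β, hβ⟩ : ∃ β : Fin (m + 1) → ℕ, β = Fin.cons c b := ⟨_, rfl⟩
  rw [← hβ] at ha0
  have hE'' := hE' b hb hbE y hy hT2
  rw [← hβ] at hE'' hDef
  rw [← hβ]
  have hne : ∀ i, (T i).Nonempty := fun i => ⟨a0 i, Fintype.mem_piFinset.mp ha0.1 i⟩
  have hbinj : ∀ i j j', (i, j) ∈ P → (i, j') ∈ P → β j = β j' → j = j' := by
    intro i j j' h1 h2 h3
    have h4 := @ha0.2 ⟨(i, j), h1⟩ ⟨(i, j'), h2⟩ (by
      unfold sh
      simp only [h3])
    exact (Prod.ext_iff.mp (congrArg Subtype.val h4)).2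
  have hβx : ∀ j, β j ≤ x := by
    intro j
    rw [hβ]
    refine Fin.cases ?_ ?_ j
    · rw [Fin.cons_zero]
      exact hc
    · intro j
      have h7 := Fintype.mem_piFinset.mp hb j
      have h8 := Finset.mem_range.mp ((hT' j).1 h7)
      rw [Fin.cons_succ]
      omega
  obtain ⟨z, hz⟩ : ∃ z, z = zA A' x := ⟨_, rfl⟩
  rw [← hz] at hG1 hmod hE''
  obtain ⟨s, hs⟩ : ∃ s : (Fin k → ℕ) → P → ℕ,
      s = fun a => sh P (Fin.cons 0 a : Fin (k + 1) → ℕ) β := ⟨_, rfl⟩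
  have hs' : ∀ a, sh P (Fin.cons 0 a : Fin (k + 1) → ℕ) β = s a := fun a => by rw [hs]
  simp only [hs'] at hDef ⊢
  have hcd : Fintype.card P = r := by
    rw [hr]
    exact Fintype.card_coe P
  obtain ⟨P0, hP0⟩ : ∃ P0 : (Fin k → ℕ) → ℝ,
      P0 = fun a => ∑ n ∈ Icc 1 y, ∏ p : P, G0 (n + s a p) := ⟨_, rfl⟩
  obtain ⟨P1, hP1⟩ : ∃ P1 : (Fin k → ℕ) → ℝ,
      P1 = fun a => ∑ n ∈ Icc 1 y, ∏ p : P, G1 z (n + s a p) := ⟨_, rfl⟩
  have hall : |∑ a ∈ Fintype.piFinset T, (P0 a - P1 a)| ≤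
      (∏ i, ((T i).card : ℝ)) * (x / L ^ (A + 2)) := by
    refine le_trans (le_of_eq ?_) hE''
    congr 1
    refine Finset.sum_congr rfl fun a _ => ?_
    rw [hP0, hP1]
    simp only [← Finset.sum_sub_distrib]
    refine Finset.sum_congr rfl fun n _ => ?_
    rw [prod_sh, prod_sh, hs']
  have hP0b : ∀ a, |P0 a - P1 a| ≤ x * L ^ (2 * r) := by
    intro a
    have hyx : (y : ℝ) ≤ x := by exact_mod_cast hy
    have c1 : 0 ≤ P0 a := by
      rw [hP0]
      exact Finset.sum_nonneg fun n _ => Finset.prod_nonneg fun p _ => G0_nonneg _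
    have c2 : 0 ≤ P1 a := by
      rw [hP1]
      exact Finset.sum_nonneg fun n _ => Finset.prod_nonneg fun p _ => G1_nonneg _ _
    have c3 : P0 a ≤ x * L ^ (2 * r) := by
      rw [hP0]
      calc ∑ n ∈ Icc 1 y, ∏ p : P, G0 (n + s a p) ≤ ∑ _n ∈ Icc 1 y, (1 : ℝ) :=
            Finset.sum_le_sum fun n _ => prodG0_le univ (s a) n
        _ = y * 1 := by simp
        _ ≤ x * L ^ (2 * r) := mul_le_mul hyx (one_le_pow₀ hL1) zero_le_one hx0.le
    have c4 : P1 a ≤ x * L ^ (2 * r) := by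
      rw [hP1]
      calc ∑ n ∈ Icc 1 y, ∏ p : P, G1 z (n + s a p) ≤ ∑ _n ∈ Icc 1 y, L ^ (2 * r) := by
            refine Finset.sum_le_sum fun n _ => ?_
            have := prodG_le univ (G1 z) (s a) n (L ^ 2) (G1_nonneg z) hG1
            rw [← pow_mul, Finset.card_univ, hcd] at this
            exact this
        _ = y * L ^ (2 * r) := by simp
        _ ≤ x * L ^ (2 * r) := mul_le_mul_of_nonneg_right hyx (hLp _).le
    rw [abs_le]
    constructor <;> linarith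
  have hco := coinc0 P T β (L ^ (2 * b2) / 2) (div_pos (hLp _) two_pos) (fun i => by
    have := hlow (T i) (hne i) ((hT i).mono (le_max_right _ _))
    linarith) hbinj
  rw [← hr] at hco
  obtain ⟨Bad, hBad⟩ : ∃ Bad : Finset (Fin k → ℕ), Bad = (Fintype.piFinset T).filter
      (fun a => ¬ Set.InjOn
        (fun p : Fin (k + 1) × Fin (m + 1) => (Fin.cons 0 a : Fin (k + 1) → ℕ) p.1 + β p.2)
        (P : Set (Fin (k + 1) × Fin (m + 1)))) := ⟨_, rfl⟩
  rw [← hBad] at hco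
  have hsplit : ∑ a ∈ Fintype.piFinset T, (P0 a - P1 a) = ∑ a ∈ D, (P0 a - P1 a) +
      ∑ a ∈ Bad, (P0 a - P1 a) := by
    rw [hBad, ← Finset.sum_filter_add_sum_filter_not (Fintype.piFinset T)
      (fun a => Set.InjOn
        (fun p : Fin (k + 1) × Fin (m + 1) => (Fin.cons 0 a : Fin (k + 1) → ℕ) p.1 + β p.2)
        (P : Set (Fin (k + 1) × Fin (m + 1))))]
    congr 1
    refine Finset.sum_congr ?_ fun _ _ => rfl
    ext a
    rw [hDef, Finset.mem_filter, ← hs', sh_inj]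
  have hbad : |∑ a ∈ Bad, (P0 a - P1 a)| ≤
      (∏ i, ((T i).card : ℝ)) * (x / L ^ (A + 2)) := by
    refine (Finset.abs_sum_le_sum_abs _ _).trans ?_
    refine (Finset.sum_le_sum fun a _ => hP0b a).trans ?_
    rw [Finset.sum_const, nsmul_eq_mul]
    have hQ := hLp (2 * b2)
    calc (Bad.card : ℝ) * (x * L ^ (2 * r))
        ≤ ((r : ℝ) ^ 2 * (∏ i, ((T i).card : ℝ)) / (L ^ (2 * b2) / 2)) * (x * L ^ (2 * r)) :=
          mul_le_mul_of_nonneg_right hco (mul_nonneg hx0.le (hLp _).le)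
      _ = (2 * (r : ℝ) ^ 2) * ((∏ i, ((T i).card : ℝ)) * (x * (L ^ (2 * r) / L ^ (2 * b2)))) := by
          rw [div_div_eq_mul_div]
          ring
      _ ≤ L * ((∏ i, ((T i).card : ℝ)) * (x * (L ^ (2 * r) / L ^ (2 * b2)))) :=
          mul_le_mul_of_nonneg_right hLk (mul_nonneg hprod0 (mul_nonneg hx0.le
            (div_nonneg (hLp _).le (hLp _).le)))
      _ = (∏ i, ((T i).card : ℝ)) * (x * (L ^ (2 * r + 1) / L ^ (2 * b2))) := by
          rw [pow_succ]
          ring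
      _ ≤ (∏ i, ((T i).card : ℝ)) * (x * (1 / L ^ (A + 2))) := by
          refine mul_le_mul_of_nonneg_left (mul_le_mul_of_nonneg_left ?_ hx0.le) hprod0
          rw [div_le_div_iff₀ (hLp _) (hLp _), ← pow_add, one_mul]
          exact pow_le_pow_right₀ hL1 (by omega)
      _ = _ := by ring
  have hmain : |∑ a ∈ D, (P1 a - SI (s a) * ∑ n ∈ Icc 2 y, hl univ (s a) n)| ≤
      (∏ i, ((T i).card : ℝ)) * (x / L ^ (A + 2)) := by
    refine (Finset.abs_sum_le_sum_abs _ _).trans ?_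
    have hDc : (D.card : ℝ) ≤ ∏ i, ((T i).card : ℝ) := by
      have h1 : D ⊆ Fintype.piFinset T := fun a ha => ((hDef a).mp ha).1
      have h2 := Finset.card_le_card h1
      rw [Fintype.card_piFinset] at h2
      exact_mod_cast h2
    calc ∑ a ∈ D, |P1 a - SI (s a) * ∑ n ∈ Icc 2 y, hl univ (s a) n|
        ≤ ∑ _a ∈ D, (x / L ^ (A + 2)) := by
          refine Finset.sum_le_sum fun a ha => ?_
          rw [hDef] at ha
          have hsx : ∀ p, s a p ≤ 2 * x := by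
            intro p
            rw [← hs']
            unfold sh
            have h2 := hβx p.1.2
            have h1 : (Fin.cons 0 a : Fin (k + 1) → ℕ) p.1.1 ≤ x := by
              refine Fin.cases ?_ ?_ p.1.1
              · rw [Fin.cons_zero]
                omega
              · intro i
                rw [Fin.cons_succ]
                have h7 := Finset.mem_range.mp ((hT i).1 (Fintype.mem_piFinset.mp ha.1 i))
                omega
            omega
          have c1 := hmod P (s a) hcd ha.2 hsx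
          have c2 := hsing P (s a) hcd ha.2 hsx
          have c3 := abel_log_real univ (s a) (pn z univ (s a)) (SI (s a))
            (x / L ^ (A + 3)) x c1 y (by omega)
          rw [Finset.card_univ, hcd, abs_of_nonneg (SI_nonneg _ ha.2)] at c3
          simp only [pnhl_eq] at c3
          rw [hP1]
          refine c3.trans ?_
          calc 2 ^ (r + 2) * (x / L ^ (A + 3) + SI (s a))
              ≤ 2 ^ (r + 2) * (x / L ^ (A + 3) + x / L ^ (A + 3)) :=
                mul_le_mul_of_nonneg_left (add_le_add le_rfl (c2.trans hpow))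
                  (pow_nonneg zero_le_two _)
            _ = 2 ^ (r + 3) * (x / L ^ (A + 3)) := by ring
            _ ≤ L * (x / L ^ (A + 3)) :=
                mul_le_mul_of_nonneg_right hLr (div_nonneg hx0.le (hLp _).le)
            _ = x / L ^ (A + 2) := by
                rw [show A + 3 = (A + 2) + 1 by ring, pow_succ L (A + 2)]
                have h6 := (hLp (A + 2)).ne'
                have h7 := hL0.ne'
                field_simp
      _ = D.card * (x / L ^ (A + 2)) := by rw [Finset.sum_const, nsmul_eq_mul]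
      _ ≤ _ := mul_le_mul_of_nonneg_right hDc (div_nonneg hx0.le (hLp _).le)
  have hcount : ∀ a, (((Icc 1 y).filter (fun n : ℕ => ∀ p : P, (n + s a p).Prime)).card : ℝ) =
      P0 a := by
    intro a
    rw [hP0]
    have h1 := count_eq (s a) y
    simp only [plhl_eq] at h1
    exact h1.symm
  have hfin : ∑ a ∈ D, ((((Icc 1 y).filter (fun n : ℕ => ∀ p : P, (n + s a p).Prime)).card : ℝ) -
      SI (s a) * ∑ n ∈ Icc 2 y, hl univ (s a) n) =
      ∑ a ∈ Fintype.piFinset T, (P0 a - P1 a) - ∑ a ∈ Bad, (P0 a - P1 a) +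
      ∑ a ∈ D, (P1 a - SI (s a) * ∑ n ∈ Icc 2 y, hl univ (s a) n) := by
    rw [hsplit, add_sub_cancel_right, ← Finset.sum_add_distrib]
    refine Finset.sum_congr rfl fun a _ => ?_
    rw [hcount]
    ring
  rw [hfin]
  have g1 : |∑ a ∈ Fintype.piFinset T, (P0 a - P1 a) - ∑ a ∈ Bad, (P0 a - P1 a) +
      ∑ a ∈ D, (P1 a - SI (s a) * ∑ n ∈ Icc 2 y, hl univ (s a) n)| ≤
      |∑ a ∈ Fintype.piFinset T, (P0 a - P1 a)| + |∑ a ∈ Bad, (P0 a - P1 a)| +
      |∑ a ∈ D, (P1 a - SI (s a) * ∑ n ∈ Icc 2 y, hl univ (s a) n)| := by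
    refine (abs_add_le _ _).trans (add_le_add ?_ le_rfl)
    rw [sub_eq_add_neg]
    refine (abs_add_le _ _).trans (add_le_add le_rfl ?_)
    rw [abs_neg]
  have hlast : 3 * (x / L ^ (A + 2)) ≤ x / L ^ A := by
    rw [← mul_div_assoc, div_le_div_iff₀ (hLp _) (hLp _), pow_add]
    have h1 : (3:ℝ) ≤ L ^ 2 := by nlinarith
    have h2 : 0 ≤ x * L ^ A := mul_nonneg hx0.le (hLp _).le
    nlinarith
  have hlast2 : 3 * ((∏ i, ((T i).card : ℝ)) * (x / L ^ (A + 2))) ≤
      (∏ i, ((T i).card : ℝ)) * (x / L ^ A) := by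
    calc 3 * ((∏ i, ((T i).card : ℝ)) * (x / L ^ (A + 2)))
        = (∏ i, ((T i).card : ℝ)) * (3 * (x / L ^ (A + 2))) := by ring
      _ ≤ _ := mul_le_mul_of_nonneg_left hlast hprod0
  linarith

end Pool.Agent.HLU
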