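import Pool.Agent.Lib.HLT.FourierOne

/-!
# Correlation of a function with small exponential sums with products of sums over sets of shifts

PROOF SKETCH (the imports are black boxes). `N = 4 x + 1`, `y + a ≤ x` for `a ∈ T i`.
Let `c_i ξ = ∑_{m ≤ x} g i m ex (m ξ/N)`, `G_i n = ∑_{a ∈ T i} g i (n + a)`. As in the proof of `planch`,
`G_i n = (1/N) ∑_{ξ<N} c_i ξ conj (WW (T i) (ξ/N)) ex (-(n ξ/N))` for `1 ≤ n ≤ y`. Let `H_i n` be the part of the
sum with `ξ ∈ Spec N (T i) (L1 i)`. Then (a) `∑_{n ≤ y} ‖G_i n - H_i n‖² ≤ (1/N) ∑_{ξ ∉ Spec} ‖c_i ξ‖² ‖WW‖²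
≤ |T i|² x M² / (L1 i)²` (Bessel as in `planch`, `‖WW‖ < |T| / L1` off the spectrum, `parseval`);
(b) `‖H_i n‖ ≤ S0 i |T i| M` as `‖c_i ξ‖ ≤ x M`, `‖WW‖ ≤ |T i|`, `x ≤ N`, and `‖G_i n‖ ≤ |T i| M`;
(c) `∏_i H_i n = ∑ over (ξ_i) of ∏ (coefficients) * ex (-(n (∑ ξ_i) / N))`, the sum over `n ≤ y` against `u`:
at most `∏ (S0 i |T i| M) * δ` (the hypothesis `hu` is for `ex (n ζ)` with `ζ = - ∑ ξ_i / N`);
(d) telescoping `∏ G_i - ∏ H_i = ∑_i (∏_{i'<i} H_i') (G_i - H_i) (∏_{i'>i} G_i')` (`Finset.prod_sub_ordered`, the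
order matters: the `H` come first), Cauchy-Schwarz in `n` with `y ≤ x`:
`∑_{n ≤ y} ‖term i‖ ≤ (∏_{i'<i} S0 i') (∏ |T i'|) M^k x / L1 i`, times `U`.
-/

set_option autoImplicit false

open Finset Filter

namespace Pool.Agent.HLU

open Pool.Agent.HLB Pool.Agent.HL Pool.Agent.HLT

namespace TruncAux

lemma ex_eq_one_iff {N : ℕ} (hN : 0 < N) (k : ℤ) : ex (k / N) = 1 ↔ (N : ℤ) ∣ k := by
  unfold ex
  rw [Complex.exp_eq_one_iff]
  have hN' : (N : ℂ) ≠ 0 := by exact_mod_cast hN.ne'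
  have hpi : (2 * (Real.pi : ℂ) * Complex.I) ≠ 0 := Complex.two_pi_I_ne_zero
  constructor
  · rintro ⟨m, hm⟩
    refine ⟨m, ?_⟩
    have h1 : ((k : ℂ) / N) * (2 * (Real.pi : ℂ) * Complex.I) = m * (2 * (Real.pi : ℂ) * Complex.I) := by
      rw [← hm]
      push_cast
      ring
    have h2 := mul_right_cancel₀ hpi h1
    rw [div_eq_iff hN'] at h2
    have h3 : ((k : ℤ) : ℂ) = ((N * m : ℤ) : ℂ) := by
      rw [h2]
      push_cast
      ring
    exact_mod_cast h3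
  · rintro ⟨m, rfl⟩
    refine ⟨m, ?_⟩
    push_cast
    field_simp

lemma sum_ex {N : ℕ} (hN : 0 < N) (k : ℤ) :
    ∑ ξ ∈ range N, ex (k * (ξ / N)) = if (N : ℤ) ∣ k then (N : ℂ) else 0 := by
  have h1 : ∀ ξ : ℕ, ex (k * (ξ / N)) = ex (k / N) ^ ξ := by
    intro ξ
    rw [← ex_nat_mul]
    congr 1
    ring
  simp_rw [h1]
  split_ifs with h
  · rw [(ex_eq_one_iff hN k).2 h]
    simp
  · have hne : ex (k / N) ≠ 1 := fun h' => h ((ex_eq_one_iff hN k).1 h')
    rw [geom_sum_eq hne]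
    have h2 : ex (k / N) ^ N = 1 := by
      rw [← ex_nat_mul]
      have h3 : ((N : ℝ) * ((k : ℝ) / N)) = ((k : ℤ) : ℝ) := by
        have : (N : ℝ) ≠ 0 := by exact_mod_cast hN.ne'
        field_simp
      rw [h3]
      exact ex_int k
    rw [h2, sub_self, zero_div]

lemma sum_ex_small {N : ℕ} (hN : 0 < N) (k : ℤ) (hk : k.natAbs < N) :
    ∑ ξ ∈ range N, ex (k * (ξ / N)) = if k = 0 then (N : ℂ) else 0 := by
  rw [sum_ex hN]
  by_cases h : k = 0
  · rw [if_pos h, if_pos (by rw [h]; exact dvd_zero _)]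
  · rw [if_neg h, if_neg]
    intro hd
    exact h (Int.eq_zero_of_dvd_of_natAbs_lt_natAbs hd (by simpa using hk))

/-- the Fourier coefficient -/
noncomputable def cf (N x : ℕ) (T : Finset ℕ) (g : ℕ → ℂ) (ξ : ℕ) : ℂ :=
  (1 / (N : ℂ)) * ((∑ m ∈ Icc 1 x, g m * ex (m * (ξ / N))) * (starRingEnd ℂ) (WW T (ξ / N)))

/-- the partial Fourier expansion -/
noncomputable def PF (N x : ℕ) (T : Finset ℕ) (g : ℕ → ℂ) (X : Finset ℕ) (n : ℕ) : ℂ :=
  ∑ ξ ∈ X, cf N x T g ξ * ex (-(n * (ξ / N)))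

lemma PF_full {N x : ℕ} (hN : 0 < N) (hx : x < N) (T : Finset ℕ) (g : ℕ → ℂ) (n : ℕ)
    (hn : 1 ≤ n) (hT : ∀ a ∈ T, n + a ≤ x) :
    PF N x T g (range N) n = ∑ a ∈ T, g (n + a) := by
  have hN' : (N : ℂ) ≠ 0 := by exact_mod_cast hN.ne'
  have h1 : ∀ ξ ∈ range N, cf N x T g ξ * ex (-(n * (ξ / N))) =
      ∑ a ∈ T, ∑ m ∈ Icc 1 x, (1 / (N : ℂ)) * (g m *
        ex ((((m : ℤ) - a - n : ℤ) : ℝ) * (ξ / N))) := by
    intro ξ _
    unfold cf HLT.WW
    rw [map_sum, Finset.mul_sum, Finset.mul_sum, Finset.sum_mul]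
    refine Finset.sum_congr rfl fun a _ => ?_
    rw [Finset.sum_mul, Finset.mul_sum, Finset.sum_mul]
    refine Finset.sum_congr rfl fun m _ => ?_
    have h2 : ex ((((m : ℤ) - a - n : ℤ) : ℝ) * (ξ / N)) =
        ex (m * (ξ / N)) * ex (-(a * (ξ / N))) * ex (-(n * (ξ / N))) := by
      rw [← ex_add, ← ex_add]
      congr 1
      push_cast
      ring
    rw [h2, ex_neg (a * _)]
    ring
  unfold PF
  rw [Finset.sum_congr rfl h1, Finset.sum_comm]
  refine Finset.sum_congr rfl fun a ha => ?_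
  rw [Finset.sum_comm]
  have h3 := hT a ha
  have h4 : ∀ m ∈ Icc 1 x, ∑ ξ ∈ range N, (1 / (N : ℂ)) * (g m *
      ex ((((m : ℤ) - a - n : ℤ) : ℝ) * (ξ / N))) = if m = n + a then g m else 0 := by
    intro m hm
    rw [Finset.mem_Icc] at hm
    rw [← Finset.mul_sum, ← Finset.mul_sum, sum_ex_small hN _ (by omega)]
    by_cases h : m = n + a
    · rw [if_pos (by omega), if_pos h]
      field_simp
    · rw [if_neg (by omega), if_neg h]
      ring
  rw [Finset.sum_congr rfl h4, Finset.sum_ite_eq', if_pos (Finset.mem_Icc.2 ⟨by omega, h3⟩)]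

lemma bessel {N : ℕ} (hN : 0 < N) (X : Finset ℕ) (hX : X ⊆ range N) (A : ℕ → ℂ) :
    ∑ n ∈ range N, ‖∑ ξ ∈ X, A ξ * ex (-(n * (ξ / N)))‖ ^ 2 = N * ∑ ξ ∈ X, ‖A ξ‖ ^ 2 := by
  have key : ((∑ n ∈ range N, ‖∑ ξ ∈ X, A ξ * ex (-(n * (ξ / N)))‖ ^ 2 : ℝ) : ℂ) =
      ((N * ∑ ξ ∈ X, ‖A ξ‖ ^ 2 : ℝ) : ℂ) := by
    have h1 : ∀ n ∈ range N, ((‖∑ ξ ∈ X, A ξ * ex (-(n * (ξ / N)))‖ ^ 2 : ℝ) : ℂ) =
        ∑ ξ ∈ X, ∑ η ∈ X, A ξ * (starRingEnd ℂ) (A η) *
          ex ((((η : ℤ) - ξ : ℤ) : ℝ) * (n / N)) := by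
      intro n _
      push_cast
      rw [← Complex.mul_conj', map_sum, Finset.sum_mul_sum]
      refine Finset.sum_congr rfl fun ξ _ => Finset.sum_congr rfl fun η _ => ?_
      rw [map_mul, ← ex_neg, neg_neg]
      have h2 : ((((η : ℤ) - ξ : ℤ) : ℝ) * ((n : ℝ) / N)) =
          -(n * ((ξ : ℝ) / N)) + n * ((η : ℝ) / N) := by
        push_cast
        ring
      push_cast at h2
      rw [h2, ex_add]
      ring
    push_cast at h1 ⊢
    rw [Finset.sum_congr rfl h1, Finset.sum_comm, Finset.mul_sum]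
    refine Finset.sum_congr rfl fun ξ hξ => ?_
    rw [Finset.sum_comm]
    have h3 : ∀ η ∈ X, ∑ n ∈ range N, A ξ * (starRingEnd ℂ) (A η) *
        ex (((η : ℝ) - ξ) * (n / N)) =
        if η = ξ then A ξ * (starRingEnd ℂ) (A η) * N else 0 := by
      intro η hη
      have h4 := Finset.mem_range.1 (hX hξ)
      have h5 := Finset.mem_range.1 (hX hη)
      have h6 := sum_ex_small hN ((η : ℤ) - ξ) (by omega)
      push_cast at h6
      rw [← Finset.mul_sum, h6]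
      by_cases h : η = ξ
      · rw [if_pos (by omega), if_pos h]
      · rw [if_neg (by omega), if_neg h, mul_zero]
    rw [Finset.sum_congr rfl h3, Finset.sum_ite_eq', if_pos hξ, Complex.mul_conj']
    ring
  exact_mod_cast key

lemma prod_sub {ι : Type} [DecidableEq ι] (s : Finset ι) (G H : ι → ℂ) (B : ι → ℝ)
    (hG : ∀ i ∈ s, ‖G i‖ ≤ B i) (hH : ∀ i ∈ s, ‖H i‖ ≤ B i) :
    ‖∏ i ∈ s, G i - ∏ i ∈ s, H i‖ ≤ ∑ i ∈ s, ‖G i - H i‖ * ∏ j ∈ s.erase i, B j := by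
  induction s using Finset.induction_on with
  | empty => simp
  | insert a s ha ih =>
    have ih' := ih (fun i hi => hG i (mem_insert_of_mem hi)) (fun i hi => hH i (mem_insert_of_mem hi))
    have hBn : ∀ i ∈ insert a s, 0 ≤ B i := fun i hi => (norm_nonneg _).trans (hG i hi)
    rw [Finset.prod_insert ha, Finset.prod_insert ha, Finset.sum_insert ha,
      Finset.erase_insert ha]
    have h1 : G a * ∏ i ∈ s, G i - H a * ∏ i ∈ s, H i =
        (G a - H a) * ∏ i ∈ s, G i + H a * (∏ i ∈ s, G i - ∏ i ∈ s, H i) := by ring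
    rw [h1]
    refine (norm_add_le _ _).trans ?_
    rw [norm_mul, norm_mul]
    have h2 : ‖∏ i ∈ s, G i‖ ≤ ∏ i ∈ s, B i := by
      rw [norm_prod]
      exact Finset.prod_le_prod (fun _ _ => norm_nonneg _) fun i hi => hG i (mem_insert_of_mem hi)
    have h3 : ∀ i ∈ s, ‖G i - H i‖ * ∏ j ∈ (insert a s).erase i, B j =
        B a * (‖G i - H i‖ * ∏ j ∈ s.erase i, B j) := by
      intro i hi
      have hia : i ≠ a := fun h => ha (h ▸ hi)
      rw [Finset.erase_insert_of_ne hia.symm, Finset.prod_insert]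
      · ring
      · intro h
        exact ha (Finset.mem_of_mem_erase h)
    rw [Finset.sum_congr rfl h3, ← Finset.mul_sum]
    have h4 := mul_le_mul_of_nonneg_left h2 (norm_nonneg (G a - H a))
    have h5 : ‖H a‖ * ‖∏ i ∈ s, G i - ∏ i ∈ s, H i‖ ≤
        B a * ∑ i ∈ s, ‖G i - H i‖ * ∏ j ∈ s.erase i, B j :=
      mul_le_mul (hH a (mem_insert_self a s)) ih' (norm_nonneg _) (hBn a (mem_insert_self a s))
    linarith

end TruncAux

open TruncAux

theorem trunc (k x y : ℕ) (hx : 1 ≤ x) (T : Fin k → Finset ℕ) (hT : ∀ i, ∀ a ∈ T i, y + a ≤ x)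
    (g : Fin k → ℕ → ℝ) (u : ℕ → ℂ) (M U S0 L1 δ : ℝ) (hM1 : 1 ≤ M) (hL1 : 1 ≤ L1)
    (hS1 : 1 ≤ S0) (hU0 : 0 ≤ U) (hδ0 : 0 ≤ δ)
    (hM : ∀ i, ∀ m ∈ Icc 1 x, |g i m| ≤ M) (hU : ∀ n ∈ Icc 1 y, ‖u n‖ ≤ U)
    (hS : ∀ i, ((Spec (4 * x + 1) (T i) L1).card : ℝ) ≤ S0)
    (hu : ∀ ξ : Fin k → ℕ, (∀ i, ξ i ∈ Spec (4 * x + 1) (T i) L1) →
      ‖∑ n ∈ Icc 1 y, u n * ex (n * (-(∑ i, (ξ i : ℝ)) / ((4 * x + 1 : ℕ) : ℝ)))‖ ≤ δ) :
    ‖∑ n ∈ Icc 1 y, u n * ∏ i, (((∑ a ∈ T i, g i (n + a) : ℝ)) : ℂ)‖ ≤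
      (∏ i, ((T i).card : ℝ)) * ((S0 * M) ^ k * δ + k * (S0 * M) ^ k * U * (x / L1)) := by
  classical
  by_cases hE : ∃ i, T i = ∅
  · obtain ⟨i, hi⟩ := hE
    have h1 : ∀ n ∈ Icc 1 y, u n * ∏ i, (((∑ a ∈ T i, g i (n + a) : ℝ)) : ℂ) = 0 := by
      intro n _
      rw [Finset.prod_eq_zero (mem_univ i), mul_zero]
      rw [hi]
      simp
    have h2 : (∏ i, ((T i).card : ℝ)) = 0 := by
      apply Finset.prod_eq_zero (mem_univ i)
      rw [hi]
      simp
    rw [Finset.sum_congr rfl h1, h2]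
    simp
  rcases Nat.eq_zero_or_pos k with hk | hk
  · subst hk
    have h1 := hu (fun i => i.elim0) (fun i => i.elim0)
    simpa using h1
  have hyx : y ≤ x := by
    by_contra hcon
    apply hE
    refine ⟨⟨0, hk⟩, ?_⟩
    rw [Finset.eq_empty_iff_forall_notMem]
    intro a ha
    have := hT _ a ha
    omega
  clear hE
  set N := 4 * x + 1 with hNdef
  have hN : 0 < N := by omega
  have hxN : x < N := by omega
  have hNR : (0 : ℝ) < N := by exact_mod_cast hN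
  have hxR : (0 : ℝ) ≤ x := Nat.cast_nonneg x
  have hxNR : (x : ℝ) ≤ N := by exact_mod_cast hxN.le
  have hM0 : 0 ≤ M := by linarith
  have hL0 : 0 < L1 := by linarith
  have hS0 : 0 ≤ S0 := by linarith
  let gc : Fin k → ℕ → ℂ := fun i m => (g i m : ℂ)
  let Sp : Fin k → Finset ℕ := fun i => Spec N (T i) L1
  have hSp : ∀ i, Sp i ⊆ range N := by
    intro i ζ hζ
    have h1 : ζ ∈ Spec N (T i) L1 := hζ
    unfold Spec at h1
    exact (Finset.mem_filter.1 h1).1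
  let G : Fin k → ℕ → ℂ := fun i n => (((∑ a ∈ T i, g i (n + a) : ℝ)) : ℂ)
  let H : Fin k → ℕ → ℂ := fun i n => PF N x (T i) (gc i) (Sp i) n
  let B : Fin k → ℝ := fun i => S0 * M * (T i).card
  have hB0 : ∀ i, 0 ≤ B i := fun i => by positivity
  have hGfull : ∀ i, ∀ n ∈ Icc 1 y, G i n = PF N x (T i) (gc i) (range N) n := by
    intro i n hn
    rw [Finset.mem_Icc] at hn
    rw [PF_full hN hxN (T i) (gc i) n hn.1 (fun a ha => by have := hT i a ha; omega)]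
    simp only [G, gc]
    push_cast
    rfl
  have hcnorm : ∀ i ξ, ‖∑ m ∈ Icc 1 x, gc i m * ex (m * (ξ / N))‖ ≤ x * M := by
    intro i ξ
    refine (norm_sum_le _ _).trans ?_
    have h1 : ∀ m ∈ Icc 1 x, ‖gc i m * ex (m * (ξ / N))‖ ≤ M := by
      intro m hm
      rw [norm_mul, norm_ex, mul_one, Complex.norm_real, Real.norm_eq_abs]
      exact hM i m hm
    refine (Finset.sum_le_sum h1).trans ?_
    rw [Finset.sum_const, Nat.card_Icc, nsmul_eq_mul, Nat.add_sub_cancel]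
  have hcf : ∀ i ξ, ‖cf N x (T i) (gc i) ξ‖ ≤ M * (T i).card := by
    intro i ξ
    unfold cf
    rw [norm_mul, norm_mul, norm_div, norm_one, Complex.norm_natCast, Complex.norm_conj]
    have h1 := hcnorm i (ξ : ℝ)
    have h2 := norm_WW_le (T i) ((ξ : ℝ) / N)
    have h3 : ‖∑ m ∈ Icc 1 x, gc i m * ex (m * (ξ / N))‖ * ‖WW (T i) ((ξ : ℝ) / N)‖ ≤
        (x * M) * (T i).card := mul_le_mul h1 h2 (norm_nonneg _) (by positivity)
    have h4 : (x * M) * ((T i).card : ℝ) ≤ N * (M * (T i).card) := by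
      have h5 : (0 : ℝ) ≤ M * (T i).card := by positivity
      have h6 := mul_le_mul_of_nonneg_right hxNR h5
      linarith
    rw [one_div, inv_mul_le_iff₀ hNR]
    exact h3.trans h4
  have hHn : ∀ i n, ‖H i n‖ ≤ B i := by
    intro i n
    refine (norm_sum_le _ _).trans ?_
    have h1 : ∀ ξ ∈ Sp i, ‖cf N x (T i) (gc i) ξ * ex (-(n * (ξ / N)))‖ ≤ M * (T i).card := by
      intro ξ _
      rw [norm_mul, norm_ex, mul_one]
      exact hcf i ξ
    refine (Finset.sum_le_sum h1).trans ?_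
    rw [Finset.sum_const, nsmul_eq_mul]
    have h2 : (0 : ℝ) ≤ M * (T i).card := by positivity
    have h3 := mul_le_mul_of_nonneg_right (hS i) h2
    simp only [B]
    linarith
  have hGn : ∀ i, ∀ n ∈ Icc 1 y, ‖G i n‖ ≤ B i := by
    intro i n hn
    rw [Finset.mem_Icc] at hn
    simp only [G]
    rw [Complex.norm_real, Real.norm_eq_abs]
    refine (Finset.abs_sum_le_sum_abs _ _).trans ?_
    have h1 : ∀ a ∈ T i, |g i (n + a)| ≤ M := by
      intro a ha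
      apply hM i
      rw [Finset.mem_Icc]
      have := hT i a ha
      omega
    refine (Finset.sum_le_sum h1).trans ?_
    rw [Finset.sum_const, nsmul_eq_mul]
    have h2 : (0 : ℝ) ≤ (T i).card * M := by positivity
    have h3 := mul_le_mul_of_nonneg_right hS1 h2
    simp only [B]
    linarith
  -- (a) the mean square of the difference
  have hdiff : ∀ i, ∑ n ∈ Icc 1 y, ‖G i n - H i n‖ ^ 2 ≤ ((T i).card * M / L1) ^ 2 * x := by
    intro i
    have h1 : ∀ n ∈ Icc 1 y, ‖G i n - H i n‖ ^ 2 =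
        ‖∑ ξ ∈ range N \ Sp i, cf N x (T i) (gc i) ξ * ex (-(n * (ξ / N)))‖ ^ 2 := by
      intro n hn
      rw [hGfull i n hn]
      have h2 := Finset.sum_sdiff (f := fun ξ : ℕ => cf N x (T i) (gc i) ξ * ex (-(n * (ξ / N))))
        (hSp i)
      congr 2
      rw [sub_eq_iff_eq_add]
      exact h2.symm
    rw [Finset.sum_congr rfl h1]
    have h2 : ∑ n ∈ Icc 1 y,
        ‖∑ ξ ∈ range N \ Sp i, cf N x (T i) (gc i) ξ * ex (-(n * (ξ / N)))‖ ^ 2 ≤
        ∑ n ∈ range N,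
        ‖∑ ξ ∈ range N \ Sp i, cf N x (T i) (gc i) ξ * ex (-(n * (ξ / N)))‖ ^ 2 := by
      apply Finset.sum_le_sum_of_subset_of_nonneg
      · intro n hn
        rw [Finset.mem_Icc] at hn
        rw [Finset.mem_range]
        omega
      · intro _ _ _
        positivity
    refine h2.trans ?_
    rw [bessel hN _ sdiff_subset]
    have h3 : ∀ ξ ∈ range N \ Sp i, ‖cf N x (T i) (gc i) ξ‖ ^ 2 ≤
        (1 / (N : ℝ)) ^ 2 * (((T i).card / L1) ^ 2 *
          ‖∑ m ∈ Icc 1 x, gc i m * ex (m * (ξ / N))‖ ^ 2) := by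
      intro ξ hξ
      rw [Finset.mem_sdiff, Finset.mem_range] at hξ
      have h4 : ¬ (((T i).card : ℝ) ≤ L1 * ‖WW (T i) ((ξ : ℝ) / N)‖) := by
        intro hcon
        apply hξ.2
        change ξ ∈ Spec N (T i) L1
        unfold Spec
        rw [Finset.mem_filter, Finset.mem_range]
        exact ⟨hξ.1, hcon⟩
      have h5 : ‖WW (T i) ((ξ : ℝ) / N)‖ ≤ (T i).card / L1 := by
        rw [le_div_iff₀ hL0]
        linarith [not_le.mp h4]
      unfold cf
      rw [norm_mul, norm_mul, norm_div, norm_one, Complex.norm_natCast, Complex.norm_conj,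
        mul_pow, mul_pow]
      apply mul_le_mul_of_nonneg_left _ (by positivity)
      rw [mul_comm]
      apply mul_le_mul_of_nonneg_right _ (by positivity)
      exact pow_le_pow_left₀ (norm_nonneg _) h5 2
    have h6 := Finset.sum_le_sum h3
    have h7 : ∑ ξ ∈ range N \ Sp i, (1 / (N : ℝ)) ^ 2 * (((T i).card / L1) ^ 2 *
          ‖∑ m ∈ Icc 1 x, gc i m * ex (m * (ξ / N))‖ ^ 2) ≤
        ∑ ξ ∈ range N, (1 / (N : ℝ)) ^ 2 * (((T i).card / L1) ^ 2 *
          ‖∑ m ∈ Icc 1 x, gc i m * ex (m * (ξ / N))‖ ^ 2) :=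
      Finset.sum_le_sum_of_subset_of_nonneg sdiff_subset fun _ _ _ => by positivity
    have h8 : ∑ ξ ∈ range N, (1 / (N : ℝ)) ^ 2 * (((T i).card / L1) ^ 2 *
          ‖∑ m ∈ Icc 1 x, gc i m * ex (m * (ξ / N))‖ ^ 2) =
        (1 / (N : ℝ)) ^ 2 * (((T i).card / L1) ^ 2 * (N * ∑ m ∈ Icc 1 x, ‖gc i m‖ ^ 2)) := by
      rw [← Finset.mul_sum, ← Finset.mul_sum, parseval N x hxN.le hN (gc i)]
    have h9 : ∑ m ∈ Icc 1 x, ‖gc i m‖ ^ 2 ≤ x * M ^ 2 := by
      calc ∑ m ∈ Icc 1 x, ‖gc i m‖ ^ 2 ≤ ∑ m ∈ Icc 1 x, M ^ 2 := by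
            refine Finset.sum_le_sum fun m hm => ?_
            rw [Complex.norm_real, Real.norm_eq_abs]
            exact pow_le_pow_left₀ (abs_nonneg _) (hM i m hm) 2
        _ = x * M ^ 2 := by
            rw [Finset.sum_const, Nat.card_Icc, nsmul_eq_mul, Nat.add_sub_cancel]
    calc (N : ℝ) * ∑ ξ ∈ range N \ Sp i, ‖cf N x (T i) (gc i) ξ‖ ^ 2
        ≤ N * ((1 / (N : ℝ)) ^ 2 * (((T i).card / L1) ^ 2 *
            (N * ∑ m ∈ Icc 1 x, ‖gc i m‖ ^ 2))) := by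
          apply mul_le_mul_of_nonneg_left _ hNR.le
          rw [← h8]
          exact h6.trans h7
      _ = ((T i).card / L1) ^ 2 * ∑ m ∈ Icc 1 x, ‖gc i m‖ ^ 2 := by
          field_simp
      _ ≤ ((T i).card / L1) ^ 2 * (x * M ^ 2) :=
          mul_le_mul_of_nonneg_left h9 (by positivity)
      _ = ((T i).card * M / L1) ^ 2 * x := by ring
  have hdiff1 : ∀ i, ∑ n ∈ Icc 1 y, ‖G i n - H i n‖ ≤ (T i).card * M * (x / L1) := by
    intro i
    have h1 : (∑ n ∈ Icc 1 y, ‖G i n - H i n‖) ^ 2 ≤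
        (Icc 1 y).card * ∑ n ∈ Icc 1 y, ‖G i n - H i n‖ ^ 2 := sq_sum_le_card_mul_sum_sq
    have h2 : ((Icc 1 y).card : ℝ) ≤ x := by
      rw [Nat.card_Icc, Nat.add_sub_cancel]
      exact_mod_cast hyx
    have h3 : (∑ n ∈ Icc 1 y, ‖G i n - H i n‖) ^ 2 ≤ ((T i).card * M * (x / L1)) ^ 2 := by
      calc (∑ n ∈ Icc 1 y, ‖G i n - H i n‖) ^ 2
          ≤ (Icc 1 y).card * ∑ n ∈ Icc 1 y, ‖G i n - H i n‖ ^ 2 := h1
        _ ≤ x * (((T i).card * M / L1) ^ 2 * x) :=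
            mul_le_mul h2 (hdiff i) (Finset.sum_nonneg fun _ _ => by positivity) hxR
        _ = ((T i).card * M * (x / L1)) ^ 2 := by ring
    exact le_of_sq_le_sq h3 (by positivity)
  -- (c) the main term
  have hmain : ‖∑ n ∈ Icc 1 y, u n * ∏ i, H i n‖ ≤ (∏ i, B i) * δ := by
    have h1 : ∀ n ∈ Icc 1 y, u n * ∏ i, H i n =
        ∑ ξ ∈ Fintype.piFinset Sp, (∏ i, cf N x (T i) (gc i) (ξ i)) *
          (u n * ex (n * (-(∑ i, (ξ i : ℝ)) / (N : ℝ)))) := by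
      intro n _
      simp only [H, PF]
      rw [Finset.prod_univ_sum, Finset.mul_sum]
      refine Finset.sum_congr rfl fun ξ _ => ?_
      rw [Finset.prod_mul_distrib]
      have h2 : ∏ i, ex (-((n : ℝ) * ((ξ i : ℝ) / N))) =
          ex (n * (-(∑ i, (ξ i : ℝ)) / (N : ℝ))) := by
        have h3 : ∀ (s : Finset (Fin k)) (f : Fin k → ℝ), ex (∑ i ∈ s, f i) = ∏ i ∈ s, ex (f i) := by
          intro s f
          induction s using Finset.induction_on with
          | empty => simp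
          | insert a s ha ih => rw [Finset.sum_insert ha, Finset.prod_insert ha, ex_add, ih]
        rw [← h3]
        congr 1
        rw [Finset.sum_neg_distrib, ← Finset.mul_sum, ← Finset.sum_div]
        ring
      rw [h2]
      ring
    rw [Finset.sum_congr rfl h1, Finset.sum_comm]
    refine (norm_sum_le _ _).trans ?_
    have h4 : ∀ ξ ∈ Fintype.piFinset Sp, ‖∑ n ∈ Icc 1 y, (∏ i, cf N x (T i) (gc i) (ξ i)) *
          (u n * ex (n * (-(∑ i, (ξ i : ℝ)) / (N : ℝ))))‖ ≤ (∏ i, (M * (T i).card)) * δ := by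
      intro ξ hξ
      rw [Fintype.mem_piFinset] at hξ
      rw [← Finset.mul_sum, norm_mul, norm_prod]
      exact mul_le_mul (Finset.prod_le_prod (fun _ _ => norm_nonneg _) fun i _ => hcf i (ξ i))
        (hu ξ hξ) (norm_nonneg _) (Finset.prod_nonneg fun i _ => by positivity)
    refine (Finset.sum_le_sum h4).trans ?_
    rw [Finset.sum_const, nsmul_eq_mul, Fintype.card_piFinset]
    push_cast
    have h5 : (∏ i, ((Sp i).card : ℝ)) * ∏ i, (M * (T i).card) ≤ ∏ i, B i := by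
      rw [← Finset.prod_mul_distrib]
      refine Finset.prod_le_prod (fun i _ => by positivity) fun i _ => ?_
      have h6 : (0 : ℝ) ≤ M * (T i).card := by positivity
      have h7 := mul_le_mul_of_nonneg_right (hS i) h6
      simp only [B]
      calc ((Sp i).card : ℝ) * (M * (T i).card) ≤ S0 * (M * (T i).card) := h7
        _ = _ := by ring
    have h8 := mul_le_mul_of_nonneg_right h5 hδ0
    linarith
  -- (d) the error term
  have herr : ‖∑ n ∈ Icc 1 y, u n * (∏ i, G i n - ∏ i, H i n)‖ ≤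
      k * (∏ i, B i) * U * (x / L1) := by
    refine (norm_sum_le _ _).trans ?_
    have h1 : ∀ n ∈ Icc 1 y, ‖u n * (∏ i, G i n - ∏ i, H i n)‖ ≤
        U * ∑ i, ‖G i n - H i n‖ * ∏ j ∈ univ.erase i, B j := by
      intro n hn
      rw [norm_mul]
      exact mul_le_mul (hU n hn) (prod_sub univ (fun i => G i n) (fun i => H i n) B
        (fun i _ => hGn i n hn) (fun i _ => hHn i n)) (norm_nonneg _) hU0
    refine (Finset.sum_le_sum h1).trans ?_
    rw [← Finset.mul_sum, Finset.sum_comm]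
    have h2 : ∀ i ∈ (univ : Finset (Fin k)), ∑ n ∈ Icc 1 y, ‖G i n - H i n‖ *
        ∏ j ∈ univ.erase i, B j ≤ (∏ i, B i) * (x / L1) := by
      intro i _
      rw [← Finset.sum_mul]
      have h3 : (0 : ℝ) ≤ ∏ j ∈ univ.erase i, B j := Finset.prod_nonneg fun j _ => hB0 j
      have h4 := mul_le_mul_of_nonneg_right (hdiff1 i) h3
      refine h4.trans ?_
      rw [← Finset.mul_prod_erase univ B (mem_univ i)]
      have h5 : ((T i).card : ℝ) * M * (x / L1) ≤ B i * (x / L1) := by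
        apply mul_le_mul_of_nonneg_right _ (by positivity)
        have h6 : (0 : ℝ) ≤ (T i).card * M := by positivity
        have h7 := mul_le_mul_of_nonneg_right hS1 h6
        simp only [B]
        linarith
      calc ((T i).card : ℝ) * M * (x / L1) * ∏ j ∈ univ.erase i, B j
          ≤ B i * (x / L1) * ∏ j ∈ univ.erase i, B j := mul_le_mul_of_nonneg_right h5 h3
        _ = _ := by ring
    have h3 := Finset.sum_le_sum h2
    rw [Finset.sum_const, Finset.card_univ, Fintype.card_fin, nsmul_eq_mul] at h3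
    have h4 := mul_le_mul_of_nonneg_left h3 hU0
    linarith
  have hsplit : ∑ n ∈ Icc 1 y, u n * ∏ i, (((∑ a ∈ T i, g i (n + a) : ℝ)) : ℂ) =
      ∑ n ∈ Icc 1 y, u n * ∏ i, H i n + ∑ n ∈ Icc 1 y, u n * (∏ i, G i n - ∏ i, H i n) := by
    rw [← Finset.sum_add_distrib]
    refine Finset.sum_congr rfl fun n _ => ?_
    simp only [G]
    ring
  have hBprod : ∏ i, B i = (S0 * M) ^ k * ∏ i, ((T i).card : ℝ) := by
    simp only [B]
    rw [Finset.prod_mul_distrib, Finset.prod_const, Finset.card_univ, Fintype.card_fin]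
  rw [hsplit]
  refine (norm_add_le _ _).trans ((add_le_add hmain herr).trans (le_of_eq ?_))
  rw [hBprod]
  ring

end Pool.Agent.HLU
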